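import Pool.Agent.Lib.MP_e8d1ff_al.Data

set_option autoImplicit false
set_option maxRecDepth 100000

/-! Executable checks for the arcs. -/

namespace Pool.Agent.Lib.MP_e8d1ff_al

/-- base for packing polynomials -/
def BA : ℕ := 2 ^ 384

/-- offset -/
def OFA : ℕ := 2 ^ 380

/-- sum of offsets -/
def offs : ℕ → ℕ
  | 0 => 0
  | n + 1 => OFA + BA * offs n

/-- value of a quadratic -/
def qv (c : ℤ) : ℕ := (((SS * BA ^ 2 + SS : ℕ) : ℤ) - c * BA).toNat

/-- value of the product -/
def pv : List ℕ → ℕ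
  | [] => 1
  | a :: l => qv (cN a) * pv l

/-- largest absolute value of a coefficient -/
def cmx : ℕ → ℕ → ℕ
  | 0, _ => 0
  | n + 1, M => max (((M % BA : ℕ) : ℤ) - OFA).natAbs (cmx n (M / BA))

/-- sum of the largest coefficients -/
def etaSum (P : ℕ) : List ℕ → ℕ
  | [] => 0
  | a :: l => cmx 23 (P / qv (cN a) + offs 23) + etaSum P l

/-- coefficient -/
def cf (P k : ℕ) : ℤ := (((P + offs 25) / BA ^ k % BA : ℕ) : ℤ) - OFA

/-- simple condition -/
def arcA (P H : ℕ) : List ℕ → Bool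
  | [] => true
  | k :: l => Nat.blt H (cf P k).natAbs && arcA P H l

/-- second condition -/
def arcB (P H : ℕ) (p12 : ℤ) : List ℕ → Bool
  | [] => true
  | k :: l => Nat.blt (H * (SS ^ 12 + p12.natAbs + (cf P (k + 12)).natAbs) + H * H)
      (p12 * cf P (k + 12) - cf P k * SS ^ 12).natAbs && arcB P H p12 l

/-- all conditions for the arcs -/
def arcChk (idx : List ℕ) (P H : ℕ) (p12 : ℤ) : Bool :=
  Nat.beq (pv idx) P && Nat.ble (17600 * etaSum P idx) H && decide (cf P 12 = p12) &&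
  arcA P H [9, 12, 13, 14, 15, 16, 17, 18, 19, 20, 22, 23] &&
  arcB P H p12 [1, 2, 3, 4, 5, 6, 7, 8, 10, 11]

/-- all conditions, computing everything -/
def arcChk' (idx : List ℕ) : Bool :=
  arcChk idx (pv idx) (17600 * etaSum (pv idx) idx) (cf (pv idx) 12)

end Pool.Agent.Lib.MP_e8d1ff_al
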