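import Pool.Agent.Lib.MP_e8d1ff_al.Quad
set_option autoImplicit false

namespace Pool.Agent.Lib.MP_e8d1ff_al

open Polynomial

section
variable {ι : Type*} [DecidableEq ι]

theorem lagr (s : Finset ι) (a δ : ι → ℝ) (ha : Set.InjOn a s) (y T : ℝ) (hy : y ≠ 0) :
    y ^ s.card * ((∏ i ∈ s, (T - a i * y + δ i)) - ∏ i ∈ s, (T - a i * y))
      = y * ∑ j ∈ s, δ j * ((∏ i ∈ s.erase j, (y + δ i / (a j - a i)))
          * ∏ i ∈ s.erase j, (T - a i * y)) := by
  classical
  rcases s.eq_empty_or_nonempty with rfl | hne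
  · simp
  set t : ι → ℝ := fun i => a i * y with ht
  have hinj : Set.InjOn t s := by
    intro i hi j hj h
    exact ha hi hj (mul_right_cancel₀ hy h)
  set F : ℝ[X] := (∏ i ∈ s, (X - C (t i - δ i))) - ∏ i ∈ s, (X - C (t i)) with hF
  have hm1 : (∏ i ∈ s, (X - C (t i - δ i))).Monic := monic_prod_of_monic _ _ fun i _ =>
    monic_X_sub_C _
  have hm2 : (∏ i ∈ s, (X - C (t i))).Monic := monic_prod_of_monic _ _ fun i _ =>
    monic_X_sub_C _
  have hd1 : (∏ i ∈ s, (X - C (t i - δ i))).natDegree = s.card := by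
    rw [natDegree_prod_of_monic _ _ fun i _ => monic_X_sub_C _]
    simp only [natDegree_X_sub_C, Finset.sum_const, smul_eq_mul, mul_one]
  have hd2 : (∏ i ∈ s, (X - C (t i))).natDegree = s.card := by
    rw [natDegree_prod_of_monic _ _ fun i _ => monic_X_sub_C _]
    simp only [natDegree_X_sub_C, Finset.sum_const, smul_eq_mul, mul_one]
  have hdeg : F.degree < s.card := by
    have h := degree_sub_lt_left (p := ∏ i ∈ s, (X - C (t i - δ i))) (q := ∏ i ∈ s, (X - C (t i)))
      (by rw [degree_eq_natDegree hm1.ne_zero, degree_eq_natDegree hm2.ne_zero, hd1, hd2])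
      hm1.ne_zero (by rw [hm1.leadingCoeff, hm2.leadingCoeff])
    rwa [degree_eq_natDegree hm1.ne_zero, hd1] at h
  have hint := Lagrange.eq_interpolate (f := F) hinj hdeg
  have hT : F.eval T = ∑ j ∈ s, F.eval (t j) * ∏ i ∈ s.erase j, ((t j - t i)⁻¹ * (T - t i)) := by
    conv_lhs => rw [hint]
    rw [Lagrange.interpolate_apply, eval_finsetSum]
    refine Finset.sum_congr rfl fun j hj => ?_
    rw [eval_mul, eval_C, Lagrange.basis, eval_prod]
    congr 1
    refine Finset.prod_congr rfl fun i hi => ?_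
    simp [Lagrange.basisDivisor]
  have hFT : F.eval T = (∏ i ∈ s, (T - a i * y + δ i)) - ∏ i ∈ s, (T - a i * y) := by
    simp only [hF, eval_sub, eval_prod, eval_X, eval_C, ht]
    congr 1
    refine Finset.prod_congr rfl fun i hi => ?_
    ring
  have hFj : ∀ j ∈ s, F.eval (t j) = δ j * ∏ i ∈ s.erase j, (t j - t i + δ i) := by
    intro j hj
    simp only [hF, eval_sub, eval_prod, eval_X, eval_C]
    have : ∏ i ∈ s, (t j - t i) = 0 := Finset.prod_eq_zero hj (sub_self _)
    rw [this, sub_zero, ← Finset.mul_prod_erase s _ hj]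
    congr 1
    · ring
    · refine Finset.prod_congr rfl fun i hi => ?_
      ring
  rw [← hFT, hT, Finset.mul_sum, Finset.mul_sum]
  refine Finset.sum_congr rfl fun j hj => ?_
  rw [hFj j hj]
  have hcard : y ^ s.card = y * ∏ i ∈ s.erase j, y := by
    rw [Finset.prod_const, Finset.card_erase_of_mem hj, ← pow_succ']
    congr 1
    have := Finset.card_pos.mpr hne
    omega
  rw [hcard]
  have : (∏ i ∈ s.erase j, y) * ((∏ i ∈ s.erase j, (t j - t i + δ i))
      * ∏ i ∈ s.erase j, ((t j - t i)⁻¹ * (T - t i)))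
      = (∏ i ∈ s.erase j, (y + δ i / (a j - a i))) * ∏ i ∈ s.erase j, (T - a i * y) := by
    rw [← Finset.prod_mul_distrib, ← Finset.prod_mul_distrib, ← Finset.prod_mul_distrib]
    refine Finset.prod_congr rfl fun i hi => ?_
    have hij : a j - a i ≠ 0 := by
      intro h
      have := ha hj (Finset.mem_of_mem_erase hi) (sub_eq_zero.mp h)
      exact Finset.ne_of_mem_erase hi this.symm
    simp only [ht]
    have h2 : a j * y - a i * y ≠ 0 := by
      rw [← sub_mul]
      exact mul_ne_zero hij hy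
    field_simp
  rw [← this]
  ring

end

/-- sup bound on coefficients -/
def SupLe (f : ℝ[X]) (c : ℝ) : Prop := ∀ k, |f.coeff k| ≤ c

theorem SupLe.linear_mul {f : ℝ[X]} {c : ℝ} (h : SupLe f c) (a b : ℝ) :
    SupLe ((C a * X + C b) * f) ((|a| + |b|) * c) := by
  intro k
  have hc : 0 ≤ c := (abs_nonneg _).trans (h 0)
  rw [add_mul, coeff_add, coeff_C_mul, mul_assoc, coeff_C_mul]
  have h1 : |a * (X * f).coeff k| ≤ |a| * c := by
    rw [abs_mul]
    apply mul_le_mul_of_nonneg_left _ (abs_nonneg _)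
    cases k with
    | zero => simpa using hc
    | succ k => rw [coeff_X_mul]; exact h k
  have h2 : |b * f.coeff k| ≤ |b| * c := by
    rw [abs_mul]
    exact mul_le_mul_of_nonneg_left (h k) (abs_nonneg _)
  calc _ ≤ |a * (X * f).coeff k| + |b * f.coeff k| := abs_add_le _ _
    _ ≤ _ := by linarith

theorem SupLe.mono {f : ℝ[X]} {c d : ℝ} (h : SupLe f c) (hcd : c ≤ d) : SupLe f d :=
  fun k => (h k).trans hcd

theorem SupLe.sum {ι : Type*} (s : Finset ι) (f : ι → ℝ[X]) (c : ι → ℝ)
    (h : ∀ i ∈ s, SupLe (f i) (c i)) : SupLe (∑ i ∈ s, f i) (∑ i ∈ s, c i) := by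
  intro k
  rw [finsetSum_coeff]
  exact (Finset.abs_sum_le_sum_abs _ _).trans (Finset.sum_le_sum fun i hi => h i hi k)

theorem SupLe.prod_linear_mul {ι : Type*} [DecidableEq ι] (s : Finset ι) (a b : ι → ℝ) (f : ℝ[X])
    (c : ℝ) (h : SupLe f c) :
    SupLe ((∏ i ∈ s, (C (a i) * X + C (b i))) * f) ((∏ i ∈ s, (|a i| + |b i|)) * c) := by
  induction s using Finset.induction_on with
  | empty => simpa using h
  | insert j s hj ih =>
    rw [Finset.prod_insert hj, Finset.prod_insert hj, mul_assoc, mul_assoc]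
    exact ih.linear_mul _ _

section
variable {ι : Type*} [DecidableEq ι]

theorem pert_identity (s : Finset ι) (a u v : ι → ℝ) (ha : Set.InjOn a s) :
    X ^ s.card * ((∏ i ∈ s, qd (a i + u i) (1 + v i)) - ∏ i ∈ s, qd (a i) 1)
      = X * ∑ j ∈ s, (C (- u j) * X + C (v j)) *
        ((∏ i ∈ s.erase j, (C (1 - u i / (a j - a i)) * X + C (v i / (a j - a i))))
          * ∏ i ∈ s.erase j, qd (a i) 1) := by
  apply Polynomial.eq_of_infinite_eval_eq
  apply (Set.Ioi_infinite (0 : ℝ)).mono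
  intro y hy
  have hy0 : y ≠ 0 := ne_of_gt hy
  have h := lagr s a (fun i => - u i * y + v i) ha y (y ^ 2 + 1) hy0
  simp only [Set.mem_ofPred_eq, eval_mul, eval_pow, eval_X, eval_sub, eval_prod, eval_finsetSum,
    eval_add, eval_C, qd]
  have e1 : ∀ i, y ^ 2 - (a i + u i) * y + (1 + v i) = y ^ 2 + 1 - a i * y + (- u i * y + v i) := by
    intro i
    ring
  have e2 : ∀ i, y ^ 2 - a i * y + 1 = y ^ 2 + 1 - a i * y := by
    intro i
    ring
  have e3 : ∀ i j, (1 - u i / (a j - a i)) * y + v i / (a j - a i)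
      = y + (- u i * y + v i) / (a j - a i) := by
    intro i j
    ring
  simp only [e1, e2, e3]
  exact h

theorem pert_sup (s : Finset ι) (a u v : ι → ℝ) (ha : Set.InjOn a s) (ε g : ℝ) (hg : 0 < g)
    (hε : 0 ≤ ε) (hgap : ∀ i ∈ s, ∀ j ∈ s, i ≠ j → g ≤ |a j - a i|)
    (hu : ∀ i ∈ s, |u i| ≤ ε) (hv : ∀ i ∈ s, |v i| ≤ ε) (N : ι → ℝ)
    (hN : ∀ j ∈ s, SupLe (∏ i ∈ s.erase j, qd (a i) 1) (N j)) :
    SupLe ((∏ i ∈ s, qd (a i + u i) (1 + v i)) - ∏ i ∈ s, qd (a i) 1)
      (∑ j ∈ s, 2 * ε * ((1 + 2 * ε / g) ^ (s.card - 1) * N j)) := by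
  have key : SupLe (∑ j ∈ s, (C (- u j) * X + C (v j)) *
        ((∏ i ∈ s.erase j, (C (1 - u i / (a j - a i)) * X + C (v i / (a j - a i))))
          * ∏ i ∈ s.erase j, qd (a i) 1))
      (∑ j ∈ s, 2 * ε * ((1 + 2 * ε / g) ^ (s.card - 1) * N j)) := by
    apply SupLe.sum
    intro j hj
    have hNj : 0 ≤ N j := (abs_nonneg _).trans (hN j hj 0)
    have h1 := SupLe.prod_linear_mul (s.erase j) (fun i => 1 - u i / (a j - a i))
      (fun i => v i / (a j - a i)) _ _ (hN j hj)
    have h2 := h1.linear_mul (- u j) (v j)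
    refine h2.mono ?_
    have h3 : |- u j| + |v j| ≤ 2 * ε := by
      rw [abs_neg]
      linarith [hu j hj, hv j hj]
    have h4 : ∏ i ∈ s.erase j, (|1 - u i / (a j - a i)| + |v i / (a j - a i)|)
        ≤ (1 + 2 * ε / g) ^ (s.card - 1) := by
      rw [← Finset.card_erase_of_mem hj, ← Finset.prod_const]
      apply Finset.prod_le_prod
      · intro i _
        positivity
      · intro i hi
        have hi' := Finset.mem_of_mem_erase hi
        have hg' : g ≤ |a j - a i| := hgap i hi' j hj (Finset.ne_of_mem_erase hi)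
        have hpos : 0 < |a j - a i| := lt_of_lt_of_le hg hg'
        have b1 : |u i / (a j - a i)| ≤ ε / g := by
          rw [abs_div]
          exact div_le_div₀ hε (hu i hi') hg hg'
        have b2 : |v i / (a j - a i)| ≤ ε / g := by
          rw [abs_div]
          exact div_le_div₀ hε (hv i hi') hg hg'
        have b3 : |1 - u i / (a j - a i)| ≤ 1 + |u i / (a j - a i)| := by
          have := abs_sub (1 : ℝ) (u i / (a j - a i))
          simpa using this
        have : 2 * ε / g = ε / g + ε / g := by ring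
        rw [this]
        linarith
    apply mul_le_mul h3 _ _ (by positivity)
    · exact mul_le_mul_of_nonneg_right h4 hNj
    · exact mul_nonneg (Finset.prod_nonneg fun i _ => by positivity) hNj
  intro k
  have hid := pert_identity s a u v ha
  have h1 : ((∏ i ∈ s, qd (a i + u i) (1 + v i)) - ∏ i ∈ s, qd (a i) 1).coeff k
      = (X ^ s.card * ((∏ i ∈ s, qd (a i + u i) (1 + v i)) - ∏ i ∈ s, qd (a i) 1)).coeff
        (k + s.card) := by
    rw [coeff_X_pow_mul]
  rw [h1, hid]
  rcases Nat.eq_zero_or_pos (k + s.card) with h0 | h0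
  · rw [h0, mul_coeff_zero, coeff_X_zero, zero_mul, abs_zero]
    exact (abs_nonneg _).trans (key 0)
  · obtain ⟨n, hn⟩ : ∃ n, k + s.card = n + 1 := ⟨k + s.card - 1, by omega⟩
    rw [hn, coeff_X_mul]
    exact key n

end

end Pool.Agent.Lib.MP_e8d1ff_al
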