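import Mathlib

set_option autoImplicit false

namespace Pool.Agent.Lib.MP_e8d1ff_al

/-- twice the cosine of the angle `2πj/63` -/
noncomputable def ca (j : ℕ) : ℝ := 2 * Real.cos (2 * Real.pi * j / 63)

theorem ca_le (j : ℕ) : |ca j| ≤ 2 := by
  unfold ca
  rw [abs_mul, abs_of_pos (by norm_num : (0 : ℝ) < 2)]
  linarith [Real.abs_cos_le_one (2 * Real.pi * j / 63)]

theorem ca_two_mul (j : ℕ) : ca (2 * j) = ca j ^ 2 - 2 := by
  unfold ca
  have : 2 * Real.pi * ((2 * j : ℕ) : ℝ) / 63 = 2 * (2 * Real.pi * j / 63) := by
    push_cast
    ring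
  rw [this, Real.cos_two_mul]
  ring

theorem ca_two_mul_add_one (j : ℕ) : ca (2 * j + 1) = ca j * ca (j + 1) - ca 1 := by
  unfold ca
  have h1 : 2 * Real.pi * ((2 * j + 1 : ℕ) : ℝ) / 63
      = 2 * Real.pi * j / 63 + 2 * Real.pi * ((j + 1 : ℕ) : ℝ) / 63 := by
    push_cast
    ring
  have h2 : 2 * Real.pi * ((1 : ℕ) : ℝ) / 63
      = 2 * Real.pi * ((j + 1 : ℕ) : ℝ) / 63 - 2 * Real.pi * j / 63 := by
    push_cast
    ring
  rw [h1, h2, Real.cos_add, Real.cos_sub]
  ring

theorem ca_double (j : ℕ) (x e y d : ℝ) (h : |ca j - x| ≤ e) (hx : |x| ≤ 2)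
    (hy : |x ^ 2 - 2 - y| ≤ d) : |ca (2 * j) - y| ≤ e * (4 + e) + d := by
  have he : 0 ≤ e := (abs_nonneg _).trans h
  rw [ca_two_mul]
  have h1 : ca j ^ 2 - 2 - y = (ca j - x) * (ca j - x + 2 * x) + (x ^ 2 - 2 - y) := by ring
  have h2 : |ca j - x + 2 * x| ≤ e + 4 := by
    have h3 := abs_add_le (ca j - x) (2 * x)
    rw [abs_mul, abs_of_pos (by norm_num : (0 : ℝ) < 2)] at h3
    linarith
  have h4 := abs_add_le ((ca j - x) * (ca j - x + 2 * x)) (x ^ 2 - 2 - y)
  rw [← h1, abs_mul] at h4
  have h5 : |ca j - x| * |ca j - x + 2 * x| ≤ e * (e + 4) :=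
    mul_le_mul h h2 (abs_nonneg _) he
  linarith

theorem ca_next (j : ℕ) (x e x' e' x1 e1 y d : ℝ) (h : |ca j - x| ≤ e)
    (h' : |ca (j + 1) - x'| ≤ e') (h1 : |ca 1 - x1| ≤ e1) (hx : |x| ≤ 2) (hx' : |x'| ≤ 2)
    (hy : |x * x' - x1 - y| ≤ d) :
    |ca (2 * j + 1) - y| ≤ 2 * e + 2 * e' + e * e' + e1 + d := by
  have he : 0 ≤ e := (abs_nonneg _).trans h
  rw [ca_two_mul_add_one]
  have e0 : ca j * ca (j + 1) - ca 1 - y
      = (ca j - x) * x' + x * (ca (j + 1) - x') + (ca j - x) * (ca (j + 1) - x')
        + (-(ca 1 - x1)) + (x * x' - x1 - y) := by ring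
  have a1 : |(ca j - x) * x'| ≤ e * 2 := by
    rw [abs_mul]
    exact mul_le_mul h hx' (abs_nonneg _) he
  have a2 : |x * (ca (j + 1) - x')| ≤ 2 * e' := by
    rw [abs_mul]
    exact mul_le_mul hx h' (abs_nonneg _) (by norm_num)
  have a3 : |(ca j - x) * (ca (j + 1) - x')| ≤ e * e' := by
    rw [abs_mul]
    exact mul_le_mul h h' (abs_nonneg _) he
  have a4 : |-(ca 1 - x1)| ≤ e1 := by
    rwa [abs_neg]
  rw [abs_le] at a1 a2 a3 a4 hy
  rw [e0, abs_le]
  constructor <;> linarith [a1.1, a1.2, a2.1, a2.2, a3.1, a3.2, a4.1, a4.2, hy.1, hy.2]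

theorem cos_taylor (t : ℝ) (ht : |t| ≤ 1) :
    |Real.cos t - (1 - t ^ 2 / 2 + t ^ 4 / 24 - t ^ 6 / 720)| ≤ |t| ^ 8 * (9 / 322560) := by
  have hn : ‖(t : ℂ) * Complex.I‖ = |t| := by
    simp
  have h := Complex.exp_bound (x := (t : ℂ) * Complex.I) (by rw [hn]; exact ht) (n := 8)
    (by norm_num)
  rw [hn] at h
  have hre := (Complex.abs_re_le_norm _).trans h
  rw [Complex.sub_re, Complex.exp_ofReal_mul_I_re] at hre
  have h2 : (∑ m ∈ Finset.range 8, ((t : ℂ) * Complex.I) ^ m / (m.factorial : ℂ)).re
      = 1 - t ^ 2 / 2 + t ^ 4 / 24 - t ^ 6 / 720 := by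
    have : (∑ m ∈ Finset.range 8, ((t : ℂ) * Complex.I) ^ m / (m.factorial : ℂ))
        = ((1 - t ^ 2 / 2 + t ^ 4 / 24 - t ^ 6 / 720 : ℝ) : ℂ)
          + ((t - t ^ 3 / 6 + t ^ 5 / 120 - t ^ 7 / 5040 : ℝ) : ℂ) * Complex.I := by
      have i2 : Complex.I ^ 2 = -1 := Complex.I_sq
      have i3 : Complex.I ^ 3 = - Complex.I := by rw [pow_succ, i2]; ring
      have i4 : Complex.I ^ 4 = 1 := by rw [pow_succ, i3]; rw [neg_mul, Complex.I_mul_I]; ring
      have i5 : Complex.I ^ 5 = Complex.I := by rw [pow_succ, i4]; ring
      have i6 : Complex.I ^ 6 = -1 := by rw [pow_succ, i5, Complex.I_mul_I]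
      have i7 : Complex.I ^ 7 = - Complex.I := by rw [pow_succ, i6]; ring
      simp only [Finset.sum_range_succ, Finset.sum_range_zero, mul_pow, i2, i3, i4, i5, i6, i7,
        Nat.factorial]
      push_cast
      ring
    rw [this]
    simp [-Complex.ofReal_sub, -Complex.ofReal_add, -Complex.ofReal_div, -Complex.ofReal_pow]
  rw [h2] at hre
  refine hre.trans (le_of_eq ?_)
  norm_num [Nat.factorial]

theorem ca_1 : |ca 1 - (199006155073080 / 100000000000000)| ≤ 200 / 100000000000000 := by
  have hpi1 := Real.pi_gt_d20
  have hpi2 := Real.pi_lt_d20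
  set x := 2 * Real.pi * ((1 : ℕ) : ℝ) / 63 with hx
  have hx1 : (2 * 3.14159265358979323846 / 63 : ℝ) ≤ x := by
    rw [hx]; push_cast; linarith
  have hx2 : x ≤ (2 * 3.14159265358979323847 / 63 : ℝ) := by
    rw [hx]; push_cast; linarith
  have hx0 : 0 ≤ x := le_trans (by norm_num) hx1
  have h1 : |x| ≤ 1 := by
    rw [abs_of_nonneg hx0]
    exact hx2.trans (by norm_num)
  have ht := cos_taylor x h1
  rw [abs_of_nonneg hx0] at ht
  have l2 := pow_le_pow_left₀ (by norm_num) hx1 2
  have l4 := pow_le_pow_left₀ (by norm_num) hx1 4
  have l6 := pow_le_pow_left₀ (by norm_num) hx1 6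
  have u2 := pow_le_pow_left₀ hx0 hx2 2
  have u4 := pow_le_pow_left₀ hx0 hx2 4
  have u6 := pow_le_pow_left₀ hx0 hx2 6
  have u8 := pow_le_pow_left₀ hx0 hx2 8
  have hca : ca 1 = 2 * Real.cos x := rfl
  rw [hca]
  rw [abs_le] at ht ⊢
  norm_num at l2 l4 l6 u2 u4 u6 u8
  constructor <;> linarith [ht.1, ht.2]


theorem ca_2 : |ca 2 - (196034497569709 / 100000000000000)| ≤ (803 / 100000000000000) := by
  have h := ca_double 1 (199006155073080 / 100000000000000) (200 / 100000000000000) (196034497569709 / 100000000000000) (2 / 100000000000000) ca_1 (by norm_num [abs_le]) (by norm_num [abs_le])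
  refine h.trans ?_
  norm_num

theorem ca_3 : |ca 3 - (191114561157228 / 100000000000000)| ≤ (2208 / 100000000000000) := by
  have h := ca_next 1 (199006155073080 / 100000000000000) (200 / 100000000000000) (196034497569709 / 100000000000000) (803 / 100000000000000) (199006155073080 / 100000000000000) (200 / 100000000000000) (191114561157228 / 100000000000000) (1 / 100000000000000) ca_1 ca_2 ca_1 (by norm_num [abs_le]) (by norm_num [abs_le]) (by norm_num [abs_le])
  refine h.trans ?_
  norm_num

theorem ca_4 : |ca 4 - (184295242374082 / 100000000000000)| ≤ (3214 / 100000000000000) := by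
  have h := ca_double 2 (196034497569709 / 100000000000000) (803 / 100000000000000) (184295242374082 / 100000000000000) (1 / 100000000000000) ca_2 (by norm_num [abs_le]) (by norm_num [abs_le])
  refine h.trans ?_
  norm_num

theorem ca_5 : |ca 5 - (175644314674046 / 100000000000000)| ≤ (6224 / 100000000000000) := by
  have h := ca_next 2 (196034497569709 / 100000000000000) (803 / 100000000000000) (191114561157228 / 100000000000000) (2208 / 100000000000000) (199006155073080 / 100000000000000) (200 / 100000000000000) (175644314674046 / 100000000000000) (1 / 100000000000000) ca_2 ca_3 ca_1 (by norm_num [abs_le]) (by norm_num [abs_le]) (by norm_num [abs_le])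
  refine h.trans ?_
  norm_num

theorem ca_6 : |ca 6 - (165247754863199 / 100000000000000)| ≤ (8834 / 100000000000000) := by
  have h := ca_double 3 (191114561157228 / 100000000000000) (2208 / 100000000000000) (165247754863199 / 100000000000000) (1 / 100000000000000) ca_3 (by norm_num [abs_le]) (by norm_num [abs_le])
  refine h.trans ?_
  norm_num

theorem ca_7 : |ca 7 - (153208888623796 / 100000000000000)| ≤ (11046 / 100000000000000) := by
  have h := ca_next 3 (191114561157228 / 100000000000000) (2208 / 100000000000000) (184295242374082 / 100000000000000) (3214 / 100000000000000) (199006155073080 / 100000000000000) (200 / 100000000000000) (153208888623796 / 100000000000000) (1 / 100000000000000) ca_3 ca_4 ca_1 (by norm_num [abs_le]) (by norm_num [abs_le]) (by norm_num [abs_le])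
  refine h.trans ?_
  norm_num

theorem ca_8 : |ca 8 - (139647363617215 / 100000000000000)| ≤ (12859 / 100000000000000) := by
  have h := ca_double 4 (184295242374082 / 100000000000000) (3214 / 100000000000000) (139647363617215 / 100000000000000) (2 / 100000000000000) ca_4 (by norm_num [abs_le]) (by norm_num [abs_le])
  refine h.trans ?_
  norm_num

theorem ca_9 : |ca 9 - (124697960371747 / 100000000000000)| ≤ (19079 / 100000000000000) := by
  have h := ca_next 4 (184295242374082 / 100000000000000) (3214 / 100000000000000) (175644314674046 / 100000000000000) (6224 / 100000000000000) (199006155073080 / 100000000000000) (200 / 100000000000000) (124697960371747 / 100000000000000) (2 / 100000000000000) ca_4 ca_5 ca_1 (by norm_num [abs_le]) (by norm_num [abs_le]) (by norm_num [abs_le])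
  refine h.trans ?_
  norm_num

theorem ca_10 : |ca 10 - (108509252773152 / 100000000000000)| ≤ (24898 / 100000000000000) := by
  have h := ca_double 5 (175644314674046 / 100000000000000) (6224 / 100000000000000) (108509252773152 / 100000000000000) (1 / 100000000000000) ca_5 (by norm_num [abs_le]) (by norm_num [abs_le])
  refine h.trans ?_
  norm_num

theorem ca_11 : |ca 11 - (91242131470633 / 100000000000000)| ≤ (30318 / 100000000000000) := by
  have h := ca_next 5 (175644314674046 / 100000000000000) (6224 / 100000000000000) (165247754863199 / 100000000000000) (8834 / 100000000000000) (199006155073080 / 100000000000000) (200 / 100000000000000) (91242131470633 / 100000000000000) (1 / 100000000000000) ca_5 ca_6 ca_1 (by norm_num [abs_le]) (by norm_num [abs_le]) (by norm_num [abs_le])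
  refine h.trans ?_
  norm_num

theorem ca_12 : |ca 12 - (73068204873279 / 100000000000000)| ≤ (35338 / 100000000000000) := by
  have h := ca_double 6 (165247754863199 / 100000000000000) (8834 / 100000000000000) (73068204873279 / 100000000000000) (1 / 100000000000000) ca_6 (by norm_num [abs_le]) (by norm_num [abs_le])
  refine h.trans ?_
  norm_num

theorem ca_13 : |ca 13 - (54168093628601 / 100000000000000)| ≤ (39962 / 100000000000000) := by
  have h := ca_next 6 (165247754863199 / 100000000000000) (8834 / 100000000000000) (153208888623796 / 100000000000000) (11046 / 100000000000000) (199006155073080 / 100000000000000) (200 / 100000000000000) (54168093628601 / 100000000000000) (1 / 100000000000000) ca_6 ca_7 ca_1 (by norm_num [abs_le]) (by norm_num [abs_le]) (by norm_num [abs_le])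
  refine h.trans ?_
  norm_num

theorem ca_14 : |ca 14 - (34729635533386 / 100000000000000)| ≤ (44187 / 100000000000000) := by
  have h := ca_double 7 (153208888623796 / 100000000000000) (11046 / 100000000000000) (34729635533386 / 100000000000000) (2 / 100000000000000) ca_7 (by norm_num [abs_le]) (by norm_num [abs_le])
  refine h.trans ?_
  norm_num

theorem ca_15 : |ca 15 - (14946018717285 / 100000000000000)| ≤ (48013 / 100000000000000) := by
  have h := ca_next 7 (153208888623796 / 100000000000000) (11046 / 100000000000000) (139647363617215 / 100000000000000) (12859 / 100000000000000) (199006155073080 / 100000000000000) (200 / 100000000000000) (14946018717285 / 100000000000000) (2 / 100000000000000) ca_7 ca_8 ca_1 (by norm_num [abs_le]) (by norm_num [abs_le]) (by norm_num [abs_le])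
  refine h.trans ?_
  norm_num

theorem ca_16 : |ca 16 - (-4986138347615 / 100000000000000)| ≤ (51439 / 100000000000000) := by
  have h := ca_double 8 (139647363617215 / 100000000000000) (12859 / 100000000000000) (-4986138347615 / 100000000000000) (2 / 100000000000000) ca_8 (by norm_num [abs_le]) (by norm_num [abs_le])
  refine h.trans ?_
  norm_num

theorem ca_17 : |ca 17 - (-24868740929497 / 100000000000000)| ≤ (64079 / 100000000000000) := by
  have h := ca_next 8 (139647363617215 / 100000000000000) (12859 / 100000000000000) (124697960371747 / 100000000000000) (19079 / 100000000000000) (199006155073080 / 100000000000000) (200 / 100000000000000) (-24868740929497 / 100000000000000) (2 / 100000000000000) ca_8 ca_9 ca_1 (by norm_num [abs_le]) (by norm_num [abs_le]) (by norm_num [abs_le])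
  refine h.trans ?_
  norm_num

theorem ca_18 : |ca 18 - (-44504186791263 / 100000000000000)| ≤ (76318 / 100000000000000) := by
  have h := ca_double 9 (124697960371747 / 100000000000000) (19079 / 100000000000000) (-44504186791263 / 100000000000000) (1 / 100000000000000) ca_9 (by norm_num [abs_le]) (by norm_num [abs_le])
  refine h.trans ?_
  norm_num

theorem ca_19 : |ca 19 - (-63697330050337 / 100000000000000)| ≤ (88156 / 100000000000000) := by
  have h := ca_next 9 (124697960371747 / 100000000000000) (19079 / 100000000000000) (108509252773152 / 100000000000000) (24898 / 100000000000000) (199006155073080 / 100000000000000) (200 / 100000000000000) (-63697330050337 / 100000000000000) (1 / 100000000000000) ca_9 ca_10 ca_1 (by norm_num [abs_le]) (by norm_num [abs_le]) (by norm_num [abs_le])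
  refine h.trans ?_
  norm_num

theorem ca_20 : |ca 20 - (-82257420626122 / 100000000000000)| ≤ (99594 / 100000000000000) := by
  have h := ca_double 10 (108509252773152 / 100000000000000) (24898 / 100000000000000) (-82257420626122 / 100000000000000) (1 / 100000000000000) ca_10 (by norm_num [abs_le]) (by norm_num [abs_le])
  refine h.trans ?_
  norm_num

theorem ca_21 : |ca 21 - (-100000000000000 / 100000000000000)| ≤ (110634 / 100000000000000) := by
  have h := ca_next 10 (108509252773152 / 100000000000000) (24898 / 100000000000000) (91242131470633 / 100000000000000) (30318 / 100000000000000) (199006155073080 / 100000000000000) (200 / 100000000000000) (-100000000000000 / 100000000000000) (1 / 100000000000000) ca_10 ca_11 ca_1 (by norm_num [abs_le]) (by norm_num [abs_le]) (by norm_num [abs_le])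
  refine h.trans ?_
  norm_num

theorem ca_22 : |ca 22 - (-116748734446958 / 100000000000000)| ≤ (121274 / 100000000000000) := by
  have h := ca_double 11 (91242131470633 / 100000000000000) (30318 / 100000000000000) (-116748734446958 / 100000000000000) (1 / 100000000000000) ca_11 (by norm_num [abs_le]) (by norm_num [abs_le])
  refine h.trans ?_
  norm_num

theorem ca_23 : |ca 23 - (-132337167519372 / 100000000000000)| ≤ (131514 / 100000000000000) := by
  have h := ca_next 11 (91242131470633 / 100000000000000) (30318 / 100000000000000) (73068204873279 / 100000000000000) (35338 / 100000000000000) (199006155073080 / 100000000000000) (200 / 100000000000000) (-132337167519372 / 100000000000000) (1 / 100000000000000) ca_11 ca_12 ca_1 (by norm_num [abs_le]) (by norm_num [abs_le]) (by norm_num [abs_le])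
  refine h.trans ?_
  norm_num

theorem ca_24 : |ca 24 - (-146610374365965 / 100000000000000)| ≤ (141354 / 100000000000000) := by
  have h := ca_double 12 (73068204873279 / 100000000000000) (35338 / 100000000000000) (-146610374365965 / 100000000000000) (1 / 100000000000000) ca_12 (by norm_num [abs_le]) (by norm_num [abs_le])
  refine h.trans ?_
  norm_num

theorem ca_25 : |ca 25 - (-159426501444584 / 100000000000000)| ≤ (150802 / 100000000000000) := by
  have h := ca_next 12 (73068204873279 / 100000000000000) (35338 / 100000000000000) (54168093628601 / 100000000000000) (39962 / 100000000000000) (199006155073080 / 100000000000000) (200 / 100000000000000) (-159426501444584 / 100000000000000) (1 / 100000000000000) ca_12 ca_13 ca_1 (by norm_num [abs_le]) (by norm_num [abs_le]) (by norm_num [abs_le])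
  refine h.trans ?_
  norm_num

theorem ca_26 : |ca 26 - (-170658176326431 / 100000000000000)| ≤ (159850 / 100000000000000) := by
  have h := ca_double 13 (54168093628601 / 100000000000000) (39962 / 100000000000000) (-170658176326431 / 100000000000000) (1 / 100000000000000) ca_13 (by norm_num [abs_le]) (by norm_num [abs_le])
  refine h.trans ?_
  norm_num

theorem ca_27 : |ca 27 - (-180193773580484 / 100000000000000)| ≤ (168500 / 100000000000000) := by
  have h := ca_next 13 (54168093628601 / 100000000000000) (39962 / 100000000000000) (34729635533386 / 100000000000000) (44187 / 100000000000000) (199006155073080 / 100000000000000) (200 / 100000000000000) (-180193773580484 / 100000000000000) (1 / 100000000000000) ca_13 ca_14 ca_1 (by norm_num [abs_le]) (by norm_num [abs_le]) (by norm_num [abs_le])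
  refine h.trans ?_
  norm_num

theorem ca_28 : |ca 28 - (-187938524157182 / 100000000000000)| ≤ (176750 / 100000000000000) := by
  have h := ca_double 14 (34729635533386 / 100000000000000) (44187 / 100000000000000) (-187938524157182 / 100000000000000) (1 / 100000000000000) ca_14 (by norm_num [abs_le]) (by norm_num [abs_le])
  refine h.trans ?_
  norm_num

theorem ca_29 : |ca 29 - (-193815457245816 / 100000000000000)| ≤ (184602 / 100000000000000) := by
  have h := ca_next 14 (34729635533386 / 100000000000000) (44187 / 100000000000000) (14946018717285 / 100000000000000) (48013 / 100000000000000) (199006155073080 / 100000000000000) (200 / 100000000000000) (-193815457245816 / 100000000000000) (1 / 100000000000000) ca_14 ca_15 ca_1 (by norm_num [abs_le]) (by norm_num [abs_le]) (by norm_num [abs_le])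
  refine h.trans ?_
  norm_num

theorem ca_30 : |ca 30 - (-197766165245026 / 100000000000000)| ≤ (192054 / 100000000000000) := by
  have h := ca_double 15 (14946018717285 / 100000000000000) (48013 / 100000000000000) (-197766165245026 / 100000000000000) (1 / 100000000000000) ca_15 (by norm_num [abs_le]) (by norm_num [abs_le])
  refine h.trans ?_
  norm_num

theorem ca_31 : |ca 31 - (-199751384243784 / 100000000000000)| ≤ (199106 / 100000000000000) := by
  have h := ca_next 15 (14946018717285 / 100000000000000) (48013 / 100000000000000) (-4986138347615 / 100000000000000) (51439 / 100000000000000) (199006155073080 / 100000000000000) (200 / 100000000000000) (-199751384243784 / 100000000000000) (1 / 100000000000000) ca_15 ca_16 ca_1 (by norm_num [abs_le]) (by norm_num [abs_le]) (by norm_num [abs_le])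
  refine h.trans ?_
  norm_num

end Pool.Agent.Lib.MP_e8d1ff_al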