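import Pool.Agent.Lib.MP_e8d1ff_al.Realize
set_option autoImplicit false

namespace Pool.Agent.Lib.MP_e8d1ff_al

open Polynomial Matrix

theorem charpoly_smul' {n : ℕ} (A : Matrix (Fin n) (Fin n) ℝ) (s : ℝ) (hs : s ≠ 0) :
    (s • A).charpoly = A.charpoly.scaleRoots s := by
  apply Polynomial.funext
  intro x
  have h1 := Polynomial.scaleRoots_eval₂_mul (RingHom.id ℝ) (x / s) (p := A.charpoly) s
  simp only [eval₂_id, RingHom.id_apply] at h1
  rw [show s * (x / s) = x by field_simp] at h1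
  rw [h1, Matrix.eval_charpoly, Matrix.eval_charpoly, Matrix.charpoly_natDegree_eq_dim]
  rw [← Matrix.det_smul]
  congr 1
  ext i j
  simp only [Matrix.sub_apply, Matrix.smul_apply, smul_eq_mul, Matrix.scalar_apply,
    Matrix.diagonal_apply]
  split_ifs
  · field_simp
  · simp

theorem exists_enum (R : Finset (Fin 31)) (hR : R.card = 12) (α β : Fin 31 → ℝ)
    (hα : ∀ j, α j ≠ 0) (hβ : ∀ j, β j ≠ 0) :
    ∃ α' β' : ℕ → ℝ, (∀ t < 19, α' t ≠ 0) ∧ (∀ t < 19, β' t ≠ 0) ∧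
      (∏ t ∈ Finset.range 19, qd (α' t) (β' t)) = ∏ j ∈ Rᶜ, qd (α j) (β j) := by
  have hc : Rᶜ.card = 19 := by
    rw [Finset.card_compl, hR]
    simp
  let e := Finset.equivFinOfCardEq hc
  refine ⟨fun t => if h : t < 19 then α (e.symm ⟨t, h⟩) else 0,
    fun t => if h : t < 19 then β (e.symm ⟨t, h⟩) else 0, ?_, ?_, ?_⟩
  · intro t ht
    simp [ht, hα]
  · intro t ht
    simp [ht, hβ]
  · rw [Finset.prod_range]
    simp only [Fin.is_lt, dite_true, Fin.eta]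
    rw [Equiv.prod_comp e.symm (fun j : {x // x ∈ Rᶜ} => qd (α j) (β j))]
    exact Finset.prod_coe_sort Rᶜ (fun j => qd (α j) (β j))

/-- the polynomial attached to a parameter -/
noncomputable def DD (ρ : ℝ) (α β : Fin 31 → ℝ) : ℝ[X] :=
  (X - C ρ) * ∏ j, qd (α j) (β j)

theorem realize_of_factor (p : ℝ[X]) (hp : p.Monic) (hpd : p.natDegree = 63)
    (h0 : 0 ≤ p.coeff 0) (s : ℝ) (hs : 0 < s) (ρ : ℝ) (α β : Fin 31 → ℝ)
    (hD : DD ρ α β = p.scaleRoots s - C (1 + s ^ 63 * p.coeff 0))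
    (hρ : ρ ≠ 0) (hα : ∀ j, α j ≠ 0) (hβ : ∀ j, β j ≠ 0)
    (R : Finset (Fin 31)) (hR : R.card = 12)
    (h21 : (∏ j ∈ R, qd (α j) (β j)).coeff 21 = 0) (harc : ArcsOK (∏ j ∈ R, qd (α j) (β j))) :
    ∃ A : Matrix (Fin 63) (Fin 63) ℝ, (∀ i j, A i j ≠ 0 ↔ (i, j) ∈ pat) ∧ A.charpoly = p := by
  obtain ⟨α', β', hα', hβ', he⟩ := exists_enum R hR α β hα hβ
  have hc : -(1 + s ^ 63 * p.coeff 0) ≠ 0 := by
    have : 0 ≤ s ^ 63 * p.coeff 0 := by positivity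
    linarith
  obtain ⟨A, hA, hch⟩ := realize_core (∏ j ∈ R, qd (α j) (β j)) (prod_qd_monic _ _ _)
    (by rw [prod_qd_natDegree, hR]) h21 harc ρ (-(1 + s ^ 63 * p.coeff 0)) α' β' hρ hc hα' hβ'
  refine ⟨s⁻¹ • A, ?_, ?_⟩
  · intro i j
    rw [← hA i j]
    simp [hs.ne']
  · rw [charpoly_smul' A s⁻¹ (inv_ne_zero hs.ne'), hch, he]
    have h1 : (∏ j ∈ R, qd (α j) (β j)) * (X - C ρ) * (∏ j ∈ Rᶜ, qd (α j) (β j))
        - C (-(1 + s ^ 63 * p.coeff 0)) = p.scaleRoots s := by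
      have h2 := Finset.prod_mul_prod_compl R (fun j => qd (α j) (β j))
      have h3 : (∏ j ∈ R, qd (α j) (β j)) * (X - C ρ) * (∏ j ∈ Rᶜ, qd (α j) (β j))
          = DD ρ α β := by
        rw [DD, ← h2]
        ring
      rw [h3, hD, map_neg]
      ring
    rw [h1, ← scaleRoots_mul]
    rw [mul_inv_cancel₀ hs.ne', scaleRoots_one]

end Pool.Agent.Lib.MP_e8d1ff_al
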