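import Pool.Agent.Lib.MP_e8d1ff_al.Quad
import Pool.Agent.Lib.MP_e8d1ff_al.Factor
import Pool.Agent.Lib.MP_e8d1ff_al.CosVal
set_option autoImplicit false

namespace Pool.Agent.Lib.MP_e8d1ff_al

open Polynomial

/-- root of unity -/
noncomputable def zt : ℂ := Complex.exp (2 * Real.pi * Complex.I / (63 : ℕ))

theorem zt_prim : IsPrimitiveRoot zt 63 := Complex.isPrimitiveRoot_exp 63 (by norm_num)

theorem zt_pow : zt ^ 63 = 1 := zt_prim.pow_eq_one

theorem ca_eq (j : ℕ) (hj : j ≤ 63) : ((ca j : ℝ) : ℂ) = zt ^ j + zt ^ (63 - j) := by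
  have hz : zt ≠ 0 := Complex.exp_ne_zero _
  have h1 : zt ^ (63 - j) = (zt ^ j)⁻¹ := by
    rw [← mul_eq_one_iff_eq_inv₀ (pow_ne_zero _ hz), ← pow_add, Nat.sub_add_cancel hj, zt_pow]
  rw [h1]
  unfold ca zt
  rw [← Complex.exp_nat_mul, ← Complex.exp_neg]
  push_cast
  rw [Complex.cos]
  have e1 : 2 * (Real.pi : ℂ) * j / 63 * Complex.I = j * (2 * Real.pi * Complex.I / 63) := by ring
  have e2 : -(2 * (Real.pi : ℂ) * j / 63) * Complex.I = -(j * (2 * Real.pi * Complex.I / 63)) := by
    ring
  rw [e1, e2]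
  ring

theorem DD_monic (ρ : ℝ) (α β : Fin 31 → ℝ) : (DD ρ α β).Monic :=
  (monic_X_sub_C ρ).mul (prod_qd_monic _ _ _)

theorem DD_natDegree (ρ : ℝ) (α β : Fin 31 → ℝ) : (DD ρ α β).natDegree = 63 := by
  rw [DD, (monic_X_sub_C ρ).natDegree_mul (prod_qd_monic _ _ _), natDegree_X_sub_C,
    prod_qd_natDegree]
  simp

theorem DD_base_complex :
    (DD 1 (fun j => ca (j.val + 1)) (fun _ => 1)).map (algebraMap ℝ ℂ) = X ^ 63 - 1 := by
  have hm1 := DD_monic 1 (fun j => ca (j.val + 1)) (fun _ => 1)
  have hd1 := DD_natDegree 1 (fun j => ca (j.val + 1)) (fun _ => 1)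
  have hm2 := hm1.map (algebraMap ℝ ℂ)
  have hd2 := hm1.natDegree_map (algebraMap ℝ ℂ)
  rw [hd1] at hd2
  have hm3 : (X ^ 63 - 1 : ℂ[X]).Monic := monic_X_pow_sub_C 1 (by norm_num)
  have hd3 : (X ^ 63 - 1 : ℂ[X]).natDegree = 63 := natDegree_X_pow_sub_C
  have hdeg : (((DD 1 (fun j => ca (j.val + 1)) (fun _ => 1)).map (algebraMap ℝ ℂ))
      - (X ^ 63 - 1)).degree < ((Finset.range 63).card : WithBot ℕ) := by
    have h := degree_sub_lt_left (p := (DD 1 (fun j => ca (j.val + 1)) (fun _ => 1)).map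
      (algebraMap ℝ ℂ)) (q := X ^ 63 - 1)
      (by rw [degree_eq_natDegree hm2.ne_zero, degree_eq_natDegree hm3.ne_zero, hd2, hd3])
      hm2.ne_zero (by rw [hm2.leadingCoeff, hm3.leadingCoeff])
    rw [degree_eq_natDegree hm2.ne_zero, hd2] at h
    rw [Finset.card_range]
    exact h
  refine Polynomial.eq_of_degree_sub_lt_of_eval_index_eq (v := fun k => zt ^ k)
    (Finset.range 63) ?_ hdeg ?_
  rotate_left
  · intro k hk
    have hk' : k < 63 := by simpa using hk
    have hR : eval (zt ^ k) (X ^ 63 - 1 : ℂ[X]) = 0 := by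
      have : (zt ^ k) ^ 63 = 1 := by rw [← pow_mul, mul_comm, pow_mul, zt_pow, one_pow]
      simp [this]
    rw [hR, DD, Polynomial.map_mul, eval_mul, Polynomial.map_prod, eval_prod]
    rcases Nat.eq_zero_or_pos k with h0 | h0
    · subst h0
      simp
    · apply mul_eq_zero_of_right
      rcases le_or_gt k 31 with hk2 | hk2
      · apply Finset.prod_eq_zero (Finset.mem_univ (⟨k - 1, by omega⟩ : Fin 31))
        have hc := ca_eq k (by omega)
        have e : k - 1 + 1 = k := by omega
        simp only [e, qd, Polynomial.map_add, Polynomial.map_sub, Polynomial.map_mul,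
          Polynomial.map_pow, map_X, map_C, eval_add, eval_sub, eval_mul, eval_pow, eval_X, eval_C,
          Complex.coe_algebraMap, hc, map_one, Polynomial.map_one, eval_one]
        have h63 : zt ^ k * zt ^ (63 - k) = 1 := by
          rw [← pow_add, Nat.add_sub_cancel' (by omega), zt_pow]
        linear_combination - h63
      · apply Finset.prod_eq_zero (Finset.mem_univ (⟨63 - k - 1, by omega⟩ : Fin 31))
        have hc := ca_eq (63 - k) (by omega)
        have e : 63 - k - 1 + 1 = 63 - k := by omega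
        have e2 : 63 - (63 - k) = k := by omega
        rw [e2] at hc
        simp only [e, qd, Polynomial.map_add, Polynomial.map_sub, Polynomial.map_mul,
          Polynomial.map_pow, map_X, map_C, eval_add, eval_sub, eval_mul, eval_pow, eval_X, eval_C,
          Complex.coe_algebraMap, hc, map_one, Polynomial.map_one, eval_one]
        have h63 : zt ^ k * zt ^ (63 - k) = 1 := by
          rw [← pow_add, Nat.add_sub_cancel' (by omega), zt_pow]
        linear_combination - h63
  · intro i hi j hj h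
    have hi' : i < 63 := by simpa using hi
    have hj' : j < 63 := by simpa using hj
    exact zt_prim.pow_inj hi' hj' h

theorem DD_base : DD 1 (fun j => ca (j.val + 1)) (fun _ => 1) = X ^ 63 - 1 := by
  apply Polynomial.map_injective (algebraMap ℝ ℂ) (algebraMap ℝ ℂ).injective
  rw [DD_base_complex]
  simp

/-- the finite set of a list of indices -/
def Rset (idx : List ℕ) : Finset (Fin 31) := Finset.univ.filter fun j => j.val ∈ idx

theorem sum_Rset {M : Type*} [AddCommMonoid M] (idx : List ℕ) (hn : idx.Nodup)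
    (hl : ∀ i ∈ idx, i < 31) (g : ℕ → M) :
    ∑ j ∈ Rset idx, g j.val = (idx.map g).sum := by
  rw [← List.sum_toFinset g hn]
  apply Finset.sum_bij (fun (j : Fin 31) _ => j.val)
  · intro j hj
    simpa [Rset] using hj
  · intro i _ j _ h
    exact Fin.ext h
  · intro b hb
    have hb' : b ∈ idx := by simpa using hb
    exact ⟨⟨b, hl b hb'⟩, by simpa [Rset] using hb', rfl⟩
  · intro j _
    rfl

theorem card_Rset (idx : List ℕ) (hn : idx.Nodup) (hl : ∀ i ∈ idx, i < 31) :
    (Rset idx).card = idx.length := by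
  have h := sum_Rset idx hn hl (fun _ => 1)
  simpa using h

theorem prod_Rset {M : Type*} [CommMonoid M] (idx : List ℕ) (hn : idx.Nodup)
    (hl : ∀ i ∈ idx, i < 31) (g : ℕ → M) :
    ∏ j ∈ Rset idx, g j.val = (idx.map g).prod := by
  rw [← List.prod_toFinset g hn]
  apply Finset.prod_bij (fun (j : Fin 31) _ => j.val)
  · intro j hj
    simpa [Rset] using hj
  · intro i _ j _ h
    exact Fin.ext h
  · intro b hb
    have hb' : b ∈ idx := by simpa using hb
    exact ⟨⟨b, hl b hb'⟩, by simpa [Rset] using hb', rfl⟩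
  · intro j _
    rfl

theorem phi7 : 1 + zt ^ 9 + zt ^ 18 + zt ^ 27 + zt ^ 36 + zt ^ 45 + zt ^ 54 = 0 := by
  have h1 : zt ^ 9 ≠ 1 := by
    intro h
    have := zt_prim.pow_inj (i := 9) (j := 0) (by norm_num) (by norm_num) (by rw [h, pow_zero])
    omega
  have h2 : (zt ^ 9 - 1) * (1 + zt ^ 9 + zt ^ 18 + zt ^ 27 + zt ^ 36 + zt ^ 45 + zt ^ 54) = 0 := by
    linear_combination zt_pow
  rcases mul_eq_zero.mp h2 with h | h
  · exact absurd (sub_eq_zero.mp h) h1
  · exact h

theorem phi3 : 1 + zt ^ 21 + zt ^ 42 = 0 := by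
  have h1 : zt ^ 21 ≠ 1 := by
    intro h
    have := zt_prim.pow_inj (i := 21) (j := 0) (by norm_num) (by norm_num) (by rw [h, pow_zero])
    omega
  have h2 : (zt ^ 21 - 1) * (1 + zt ^ 21 + zt ^ 42) = 0 := by
    linear_combination zt_pow
  rcases mul_eq_zero.mp h2 with h | h
  · exact absurd (sub_eq_zero.mp h) h1
  · exact h

theorem ca_refl (j k : ℕ) (h : j + k = 63) : ca j = ca k := by
  have h1 := ca_eq j (by omega)
  have h2 := ca_eq k (by omega)
  have e1 : 63 - j = k := by omega
  have e2 : 63 - k = j := by omega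
  rw [e1] at h1
  rw [e2] at h2
  have : ((ca j : ℝ) : ℂ) = ((ca k : ℝ) : ℂ) := by rw [h1, h2, add_comm]
  exact_mod_cast this

theorem ca_period (j : ℕ) : ca (j + 63) = ca j := by
  unfold ca
  have : 2 * Real.pi * ((j + 63 : ℕ) : ℝ) / 63 = 2 * Real.pi * j / 63 + 2 * Real.pi := by
    push_cast
    ring
  rw [this, Real.cos_add_two_pi]

theorem ca_three_mul (j : ℕ) : ca (3 * j) = ca j ^ 3 - 3 * ca j := by
  unfold ca
  have : 2 * Real.pi * ((3 * j : ℕ) : ℝ) / 63 = 3 * (2 * Real.pi * j / 63) := by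
    push_cast
    ring
  rw [this, Real.cos_three_mul]
  ring

/-- the exact zero set -/
def idx0 : List ℕ := [0, 5, 7, 8, 9, 11, 14, 16, 18, 25, 27, 29]

theorem G3_base : G3 (fun j : Fin 31 => ca (j.val + 1)) (fun _ => 1) (Rset idx0) = 0 := by
  have hn : idx0.Nodup := by decide
  have hl : ∀ i ∈ idx0, i < 31 := by decide
  have s1 := sum_Rset idx0 hn hl (fun j => ca (j + 1))
  have s2 := sum_Rset idx0 hn hl (fun j => ca (j + 1) ^ 2)
  have s3 := sum_Rset idx0 hn hl (fun j => ca (j + 1) ^ 3)
  have s4 := card_Rset idx0 hn hl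
  simp only [idx0, List.map_cons, List.map_nil, List.sum_cons, List.sum_nil] at s1 s2 s3
  have lin : ∀ l : List ℕ, (∀ i ∈ l, i ≤ 63) →
      (((l.map ca).sum : ℝ) : ℂ) = (l.map fun i => zt ^ i + zt ^ (63 - i)).sum := by
    intro l
    induction l with
    | nil => simp
    | cons a l ih =>
      intro h
      rw [List.map_cons, List.sum_cons, List.map_cons, List.sum_cons, Complex.ofReal_add,
        ih (fun i hi => h i (by simp [hi])), ca_eq a (h a (by simp))]
  have h7a : ca 1 + ca 8 + ca 10 + ca 17 + ca 19 + ca 26 + ca 28 = 0 := by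
    have h := lin [1, 8, 10, 17, 19, 26, 28] (by decide)
    simp only [List.map_cons, List.map_nil, List.sum_cons, List.sum_nil] at h
    norm_num at h
    have h' : ((ca 1 + ca 8 + ca 10 + ca 17 + ca 19 + ca 26 + ca 28 : ℝ) : ℂ) = 0 := by
      push_cast
      linear_combination h + (zt + zt ^ 8) * phi7
    exact_mod_cast h'
  have h7b : ca 2 + ca 16 + ca 20 + ca 29 + ca 25 + ca 11 + ca 7 = 0 := by
    have h := lin [2, 16, 20, 29, 25, 11, 7] (by decide)
    simp only [List.map_cons, List.map_nil, List.sum_cons, List.sum_nil] at h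
    norm_num at h
    have h' : ((ca 2 + ca 16 + ca 20 + ca 29 + ca 25 + ca 11 + ca 7 : ℝ) : ℂ) = 0 := by
      push_cast
      linear_combination h + (zt ^ 2 + zt ^ 7) * phi7
    exact_mod_cast h'
  have h7c : ca 3 + ca 24 + ca 30 + ca 12 + ca 6 + ca 15 + ca 21 = 0 := by
    have h := lin [3, 24, 30, 12, 6, 15, 21] (by decide)
    simp only [List.map_cons, List.map_nil, List.sum_cons, List.sum_nil] at h
    norm_num at h
    have h' : ((ca 3 + ca 24 + ca 30 + ca 12 + ca 6 + ca 15 + ca 21 : ℝ) : ℂ) = 0 := by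
      push_cast
      linear_combination h + (zt ^ 3 + zt ^ 6) * phi7
    exact_mod_cast h'
  have h3a : ca 9 + ca 12 + ca 30 = 0 := by
    have h := lin [9, 12, 30] (by decide)
    simp only [List.map_cons, List.map_nil, List.sum_cons, List.sum_nil] at h
    norm_num at h
    have h' : ((ca 9 + ca 12 + ca 30 : ℝ) : ℂ) = 0 := by
      push_cast
      linear_combination h + (zt ^ 9 + zt ^ 12) * phi3
    exact_mod_cast h'
  have h3b : ca 6 + ca 15 + ca 27 = 0 := by
    have h := lin [6, 15, 27] (by decide)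
    simp only [List.map_cons, List.map_nil, List.sum_cons, List.sum_nil] at h
    norm_num at h
    have h' : ((ca 6 + ca 15 + ca 27 : ℝ) : ℂ) = 0 := by
      push_cast
      linear_combination h + (zt ^ 6 + zt ^ 15) * phi3
    exact_mod_cast h'
  have h3c : ca 18 + ca 24 + ca 3 = 0 := by
    have h := lin [18, 24, 3] (by decide)
    simp only [List.map_cons, List.map_nil, List.sum_cons, List.sum_nil] at h
    norm_num at h
    have h' : ((ca 18 + ca 24 + ca 3 : ℝ) : ℂ) = 0 := by
      push_cast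
      linear_combination h + (zt ^ 3 + zt ^ 18) * phi3
    exact_mod_cast h'
  have q1 : ca 1 ^ 2 = ca 2 + 2 := by
    have h := ca_two_mul 1
    norm_num at h
    linarith
  have q6 : ca 6 ^ 2 = ca 12 + 2 := by
    have h := ca_two_mul 6
    norm_num at h
    linarith
  have q8 : ca 8 ^ 2 = ca 16 + 2 := by
    have h := ca_two_mul 8
    norm_num at h
    linarith
  have q9 : ca 9 ^ 2 = ca 18 + 2 := by
    have h := ca_two_mul 9
    norm_num at h
    linarith
  have q10 : ca 10 ^ 2 = ca 20 + 2 := by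
    have h := ca_two_mul 10
    norm_num at h
    linarith
  have q12 : ca 12 ^ 2 = ca 24 + 2 := by
    have h := ca_two_mul 12
    norm_num at h
    linarith
  have q15 : ca 15 ^ 2 = ca 30 + 2 := by
    have h := ca_two_mul 15
    norm_num at h
    linarith
  have q17 : ca 17 ^ 2 = ca 29 + 2 := by
    have h := ca_two_mul 17
    have h2 := ca_refl 34 29 (by norm_num)
    norm_num at h h2
    rw [h2] at h
    linarith
  have q19 : ca 19 ^ 2 = ca 25 + 2 := by
    have h := ca_two_mul 19
    have h2 := ca_refl 38 25 (by norm_num)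
    norm_num at h h2
    rw [h2] at h
    linarith
  have q26 : ca 26 ^ 2 = ca 11 + 2 := by
    have h := ca_two_mul 26
    have h2 := ca_refl 52 11 (by norm_num)
    norm_num at h h2
    rw [h2] at h
    linarith
  have q28 : ca 28 ^ 2 = ca 7 + 2 := by
    have h := ca_two_mul 28
    have h2 := ca_refl 56 7 (by norm_num)
    norm_num at h h2
    rw [h2] at h
    linarith
  have q30 : ca 30 ^ 2 = ca 3 + 2 := by
    have h := ca_two_mul 30
    have h2 := ca_refl 60 3 (by norm_num)
    norm_num at h h2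
    rw [h2] at h
    linarith
  have t1 : ca 1 ^ 3 = ca 3 + 3 * ca 1 := by
    have h := ca_three_mul 1
    norm_num at h
    linarith
  have t6 : ca 6 ^ 3 = ca 18 + 3 * ca 6 := by
    have h := ca_three_mul 6
    norm_num at h
    linarith
  have t8 : ca 8 ^ 3 = ca 24 + 3 * ca 8 := by
    have h := ca_three_mul 8
    norm_num at h
    linarith
  have t9 : ca 9 ^ 3 = ca 27 + 3 * ca 9 := by
    have h := ca_three_mul 9
    norm_num at h
    linarith
  have t10 : ca 10 ^ 3 = ca 30 + 3 * ca 10 := by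
    have h := ca_three_mul 10
    norm_num at h
    linarith
  have t12 : ca 12 ^ 3 = ca 27 + 3 * ca 12 := by
    have h := ca_three_mul 12
    have h2 := ca_refl 36 27 (by norm_num)
    norm_num at h h2
    rw [h2] at h
    linarith
  have t15 : ca 15 ^ 3 = ca 18 + 3 * ca 15 := by
    have h := ca_three_mul 15
    have h2 := ca_refl 45 18 (by norm_num)
    norm_num at h h2
    rw [h2] at h
    linarith
  have t17 : ca 17 ^ 3 = ca 12 + 3 * ca 17 := by
    have h := ca_three_mul 17
    have h2 := ca_refl 51 12 (by norm_num)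
    norm_num at h h2
    rw [h2] at h
    linarith
  have t19 : ca 19 ^ 3 = ca 6 + 3 * ca 19 := by
    have h := ca_three_mul 19
    have h2 := ca_refl 57 6 (by norm_num)
    norm_num at h h2
    rw [h2] at h
    linarith
  have t26 : ca 26 ^ 3 = ca 15 + 3 * ca 26 := by
    have h := ca_three_mul 26
    have h2 := ca_period 15
    norm_num at h h2
    rw [h2] at h
    linarith
  have t28 : ca 28 ^ 3 = ca 21 + 3 * ca 28 := by
    have h := ca_three_mul 28
    have h2 := ca_period 21
    norm_num at h h2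
    rw [h2] at h
    linarith
  have t30 : ca 30 ^ 3 = ca 27 + 3 * ca 30 := by
    have h := ca_three_mul 30
    have h2 := ca_period 27
    norm_num at h h2
    rw [h2] at h
    linarith
  have t27 : ca 27 ^ 3 = ca 18 + 3 * ca 27 := by
    have h := ca_three_mul 27
    have h2 := ca_period 18
    norm_num at h h2
    rw [h2] at h
    linarith
  have q27 : ca 27 ^ 2 = ca 9 + 2 := by
    have h := ca_two_mul 27
    have h2 := ca_refl 54 9 (by norm_num)
    norm_num at h h2
    rw [h2] at h
    linarith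
  have e1 : (∑ j ∈ Rset idx0, ca (j.val + 1)) = - ca 27 := by
    unfold idx0
    rw [s1]
    norm_num
    linarith
  have e2 : (∑ j ∈ Rset idx0, ca (j.val + 1) ^ 2) = 26 - ca 27 ^ 2 := by
    unfold idx0
    rw [s2]
    norm_num
    linarith
  have e3 : (∑ j ∈ Rset idx0, ca (j.val + 1) ^ 3) = 2 * (ca 27 ^ 3 - 3 * ca 27) := by
    unfold idx0
    rw [s3]
    norm_num
    linarith
  have e4 : (∑ _j ∈ Rset idx0, (1 : ℝ)) = 12 := by
    rw [Finset.sum_const, s4]
    simp [idx0]
  have e5 : (∑ j ∈ Rset idx0, ca (j.val + 1) * 1) = - ca 27 := by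
    rw [← e1]
    exact Finset.sum_congr rfl fun j _ => mul_one _
  unfold G3
  rw [e1, e2, e3, e4, e5]
  ring

end Pool.Agent.Lib.MP_e8d1ff_al
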