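import Pool.Agent.Lib.MP_e8d1ff_al.LpS
import Pool.Agent.Lib.MP_e8d1ff_al.Base
set_option autoImplicit false

namespace Pool.Agent.Lib.MP_e8d1ff_al

section
variable {ι : Type*}

/-- remainder of the expansion of `G3` -/
noncomputable def rem3 (s : Finset ι) (a u v : ι → ℝ) : ℝ :=
  (∑ j ∈ s, a j) * (∑ j ∈ s, u j) ^ 2 / 2 - (∑ j ∈ s, a j) * (∑ j ∈ s, u j ^ 2) / 2
    - (∑ j ∈ s, u j) * (∑ j ∈ s, a j * u j) + ∑ j ∈ s, a j * u j ^ 2
    + ((∑ j ∈ s, u j) ^ 3 - 3 * (∑ j ∈ s, u j) * (∑ j ∈ s, u j ^ 2) + 2 * ∑ j ∈ s, u j ^ 3) / 6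
    + (∑ j ∈ s, u j) * (∑ j ∈ s, v j) - ∑ j ∈ s, u j * v j

theorem G3_expand (s : Finset ι) (a u v : ι → ℝ) :
    G3 (fun j => a j + u j) (fun j => 1 + v j) s
      = ((∑ j ∈ s, a j) ^ 3 - 3 * (∑ j ∈ s, a j) * (∑ j ∈ s, a j ^ 2) + 2 * ∑ j ∈ s, a j ^ 3) / 6
        + (∑ j ∈ s, a j) * s.card - (∑ j ∈ s, a j)
        + ∑ j ∈ s, ((((∑ j ∈ s, a j) ^ 2 - ∑ j ∈ s, a j ^ 2) / 2 - (∑ j ∈ s, a j) * a j + a j ^ 2
            + (s.card - 1)) * u j + ((∑ j ∈ s, a j) - a j) * v j)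
        + rem3 s a u v := by
  unfold G3 rem3
  have e1 : ∑ j ∈ s, (a j + u j) = (∑ j ∈ s, a j) + ∑ j ∈ s, u j := Finset.sum_add_distrib
  have e2 : ∑ j ∈ s, (a j + u j) ^ 2
      = (∑ j ∈ s, a j ^ 2) + 2 * (∑ j ∈ s, a j * u j) + ∑ j ∈ s, u j ^ 2 := by
    rw [Finset.mul_sum, ← Finset.sum_add_distrib, ← Finset.sum_add_distrib]
    exact Finset.sum_congr rfl fun j _ => by ring
  have e3 : ∑ j ∈ s, (a j + u j) ^ 3
      = (∑ j ∈ s, a j ^ 3) + 3 * (∑ j ∈ s, a j ^ 2 * u j) + 3 * (∑ j ∈ s, a j * u j ^ 2)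
        + ∑ j ∈ s, u j ^ 3 := by
    rw [Finset.mul_sum, Finset.mul_sum, ← Finset.sum_add_distrib, ← Finset.sum_add_distrib,
      ← Finset.sum_add_distrib]
    exact Finset.sum_congr rfl fun j _ => by ring
  have e4 : ∑ j ∈ s, (1 + v j) = s.card + ∑ j ∈ s, v j := by
    rw [Finset.sum_add_distrib]
    simp
  have e5 : ∑ j ∈ s, (a j + u j) * (1 + v j)
      = (∑ j ∈ s, a j) + (∑ j ∈ s, u j) + (∑ j ∈ s, a j * v j) + ∑ j ∈ s, u j * v j := by
    rw [← Finset.sum_add_distrib, ← Finset.sum_add_distrib, ← Finset.sum_add_distrib]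
    exact Finset.sum_congr rfl fun j _ => by ring
  have e6 : ∑ j ∈ s, ((((∑ j ∈ s, a j) ^ 2 - ∑ j ∈ s, a j ^ 2) / 2 - (∑ j ∈ s, a j) * a j + a j ^ 2
            + ((s.card : ℝ) - 1)) * u j + ((∑ j ∈ s, a j) - a j) * v j)
      = (((∑ j ∈ s, a j) ^ 2 - ∑ j ∈ s, a j ^ 2) / 2 + (s.card - 1)) * (∑ j ∈ s, u j)
        - (∑ j ∈ s, a j) * (∑ j ∈ s, a j * u j) + (∑ j ∈ s, a j ^ 2 * u j)
        + (∑ j ∈ s, a j) * (∑ j ∈ s, v j) - ∑ j ∈ s, a j * v j := by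
    simp only [Finset.mul_sum]
    rw [← Finset.sum_sub_distrib, ← Finset.sum_add_distrib, ← Finset.sum_add_distrib,
      ← Finset.sum_sub_distrib]
    exact Finset.sum_congr rfl fun j _ => by ring
  rw [e1, e2, e3, e4, e5, e6]
  ring

theorem abs_sum_le_card (s : Finset ι) (f : ι → ℝ) (c : ℝ) (h : ∀ i ∈ s, |f i| ≤ c) :
    |∑ i ∈ s, f i| ≤ s.card * c := by
  refine (Finset.abs_sum_le_sum_abs _ _).trans ?_
  refine (Finset.sum_le_sum h).trans ?_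
  rw [Finset.sum_const, nsmul_eq_mul]

theorem rem3_bound (s : Finset ι) (hs : s.card = 12) (a u v : ι → ℝ) (ε : ℝ) (hε : 0 ≤ ε)
    (ha : ∀ j ∈ s, |a j| ≤ 2) (hA : |∑ j ∈ s, a j| ≤ 4) (hu : ∀ j ∈ s, |u j| ≤ ε)
    (hv : ∀ j ∈ s, |v j| ≤ ε) : |rem3 s a u v| ≤ 780 * ε ^ 2 + 364 * ε ^ 3 := by
  have h1 : |∑ j ∈ s, u j| ≤ 12 * ε := by
    have := abs_sum_le_card s u ε hu
    rw [hs] at this
    exact_mod_cast this
  have h2 : |∑ j ∈ s, u j ^ 2| ≤ 12 * ε ^ 2 := by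
    have := abs_sum_le_card s (fun j => u j ^ 2) (ε ^ 2) (fun j hj => by
      rw [abs_pow]
      exact pow_le_pow_left₀ (abs_nonneg _) (hu j hj) 2)
    rw [hs] at this
    exact_mod_cast this
  have h3 : |∑ j ∈ s, u j ^ 3| ≤ 12 * ε ^ 3 := by
    have := abs_sum_le_card s (fun j => u j ^ 3) (ε ^ 3) (fun j hj => by
      rw [abs_pow]
      exact pow_le_pow_left₀ (abs_nonneg _) (hu j hj) 3)
    rw [hs] at this
    exact_mod_cast this
  have h4 : |∑ j ∈ s, a j * u j| ≤ 24 * ε := by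
    have := abs_sum_le_card s (fun j => a j * u j) (2 * ε) (fun j hj => by
      rw [abs_mul]
      exact mul_le_mul (ha j hj) (hu j hj) (abs_nonneg _) (by norm_num))
    rw [hs] at this
    push_cast at this
    linarith
  have h5 : |∑ j ∈ s, a j * u j ^ 2| ≤ 24 * ε ^ 2 := by
    have := abs_sum_le_card s (fun j => a j * u j ^ 2) (2 * ε ^ 2) (fun j hj => by
      rw [abs_mul, abs_pow]
      exact mul_le_mul (ha j hj) (pow_le_pow_left₀ (abs_nonneg _) (hu j hj) 2) (by positivity)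
        (by norm_num))
    rw [hs] at this
    push_cast at this
    linarith
  have h6 : |∑ j ∈ s, v j| ≤ 12 * ε := by
    have := abs_sum_le_card s v ε hv
    rw [hs] at this
    exact_mod_cast this
  have h7 : |∑ j ∈ s, u j * v j| ≤ 12 * ε ^ 2 := by
    have := abs_sum_le_card s (fun j => u j * v j) (ε * ε) (fun j hj => by
      rw [abs_mul]
      exact mul_le_mul (hu j hj) (hv j hj) (abs_nonneg _) hε)
    rw [hs] at this
    push_cast at this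
    linarith
  unfold rem3
  generalize (∑ j ∈ s, a j) = A at *
  generalize (∑ j ∈ s, u j) = U at *
  generalize (∑ j ∈ s, u j ^ 2) = U2 at *
  generalize (∑ j ∈ s, u j ^ 3) = U3 at *
  generalize (∑ j ∈ s, a j * u j) = X at *
  generalize (∑ j ∈ s, a j * u j ^ 2) = Y at *
  generalize (∑ j ∈ s, v j) = V at *
  generalize (∑ j ∈ s, u j * v j) = Z at *
  have k1 : |A * U ^ 2| ≤ 4 * (12 * ε) ^ 2 := by
    rw [abs_mul, abs_pow]
    exact mul_le_mul hA (pow_le_pow_left₀ (abs_nonneg _) h1 2) (by positivity) (by norm_num)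
  have k2 : |A * U2| ≤ 4 * (12 * ε ^ 2) := by
    rw [abs_mul]
    exact mul_le_mul hA h2 (abs_nonneg _) (by norm_num)
  have k3 : |U * X| ≤ (12 * ε) * (24 * ε) := by
    rw [abs_mul]
    exact mul_le_mul h1 h4 (abs_nonneg _) (by positivity)
  have k4 : |U ^ 3| ≤ (12 * ε) ^ 3 := by
    rw [abs_pow]
    exact pow_le_pow_left₀ (abs_nonneg _) h1 3
  have k5 : |U * U2| ≤ (12 * ε) * (12 * ε ^ 2) := by
    rw [abs_mul]
    exact mul_le_mul h1 h2 (abs_nonneg _) (by positivity)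
  have k6 : |U * V| ≤ (12 * ε) * (12 * ε) := by
    rw [abs_mul]
    exact mul_le_mul h1 h6 (abs_nonneg _) (by positivity)
  rw [abs_le] at *
  constructor <;> nlinarith [k1.1, k1.2, k2.1, k2.2, k3.1, k3.2, k4.1, k4.2, k5.1, k5.2, k6.1, k6.2,
    h3.1, h3.2, h5.1, h5.2, h7.1, h7.2]

end

/-- rational approximation -/
noncomputable def at' (j : ℕ) : ℝ := (cN j : ℝ) / 10 ^ 8

theorem nthz_bound (l : List ℤ) (c : ℤ) (hc : 0 ≤ c) (h : ∀ a ∈ l, |a| ≤ c) (j : ℕ) :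
    |nthz l j| ≤ c := by
  induction l generalizing j with
  | nil => simpa [nthz] using hc
  | cons a l ih =>
    cases j with
    | zero => exact h a (by simp)
    | succ j => exact ih (fun b hb => h b (by simp [hb])) j

theorem cN_bound (j : ℕ) : |cN j| ≤ 2 * SS := by
  apply nthz_bound _ _ (by norm_num [SS])
  decide +kernel

theorem at_bound (j : ℕ) : |at' j| ≤ 2 := by
  unfold at'
  have h := cN_bound j
  rw [abs_div, abs_of_pos (by norm_num : (0 : ℝ) < 10 ^ 8), div_le_iff₀ (by norm_num)]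
  have h2 : ((|cN j| : ℤ) : ℝ) ≤ ((2 * SS : ℤ) : ℝ) := by exact_mod_cast h
  rw [Int.cast_abs] at h2
  exact h2.trans (by norm_num [SS])

theorem mem'_iff (m : ℕ) (l : List ℕ) : mem' m l = true ↔ m ∈ l := by
  induction l with
  | nil => simp [mem']
  | cons a l ih =>
    simp only [mem', Bool.or_eq_true, ih, List.mem_cons, Nat.beq_eq]

theorem psum_eq (k : ℕ) (l : List ℕ) : psum k l = (l.map fun a => cN a ^ k).sum := by
  induction l with
  | nil => simp [psum]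
  | cons a l ih => simp [psum, ih]

theorem incr_sound (m : ℕ) (l : List ℕ) (h : incr m l = true) :
    (∀ a ∈ l, m ≤ a ∧ a < 31) ∧ l.Nodup := by
  induction l generalizing m with
  | nil => simp
  | cons a l ih =>
    simp only [incr, Bool.and_eq_true, Nat.ble_eq, Nat.blt_eq] at h
    obtain ⟨⟨h1, h2⟩, h3⟩ := h
    obtain ⟨i1, i2⟩ := ih (a + 1) h3
    constructor
    · intro b hb
      rcases List.mem_cons.mp hb with rfl | hb
      · exact ⟨h1, h2⟩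
      · have := i1 b hb
        omega
    · rw [List.nodup_cons]
      refine ⟨fun hb => ?_, i2⟩
      have := i1 a hb
      omega

/-- the extended vector -/
noncomputable def zz (u v : Fin 31 → ℝ) (m : ℕ) : ℝ :=
  if h : m < 31 then u ⟨m, h⟩ else if h : m - 31 < 31 then v ⟨m - 31, h⟩ else 0

theorem sum_zz (f : ℕ → ℝ) (u v : Fin 31 → ℝ) :
    ∑ m ∈ Finset.range 62, f m * zz u v m
      = ∑ j : Fin 31, f j.val * u j + ∑ j : Fin 31, f (31 + j.val) * v j := by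
  rw [show (62 : ℕ) = 31 + 31 by norm_num, Finset.sum_range_add, Finset.sum_range,
    Finset.sum_range]
  have h1 : ∀ j : Fin 31, zz u v j.val = u j := fun j => by simp [zz]
  have h2 : ∀ j : Fin 31, zz u v (31 + j.val) = v j := fun j => by simp [zz]
  simp only [h1, h2]

theorem zz_bound (u v : Fin 31 → ℝ) (ε : ℝ) (hε : 0 ≤ ε) (hu : ∀ j, |u j| ≤ ε)
    (hv : ∀ j, |v j| ≤ ε) (m : ℕ) : |zz u v m| ≤ ε := by
  unfold zz
  split_ifs
  · exact hu _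
  · exact hv _
  · simpa using hε

theorem msgn_abs (g x : ℤ) : |msgn g x| = |x| := by
  cases g <;> simp [msgn]

/-- the facts extracted from the row check -/
structure RowFacts (d : SD) : Prop where
  lt : ∀ a ∈ d.idx, a < 31
  nodup : d.idx.Nodup
  len : d.idx.length = 12
  e1 : psum 1 d.idx = d.c1
  e2 : psum 2 d.idx = d.c2
  e3 : psum 3 d.idx = d.c3
  eg : d.c1 ^ 3 - 3 * d.c1 * d.c2 + 2 * d.c3 + 66 * (SS * SS) * d.c1 = d.g
  b1 : d.c1.natAbs ≤ 4 * SS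
  pack : pk (fun m => (rowfun d.idx d.c1 d.c2 d.g m + OFF).toNat) 0 62 = d.P
  tee : d.g.natAbs + 3 * SS * EE ≤ 3 * SS * d.T
  start : 3 * absum d.idx d.c1 d.c2 d.idx + 10 ^ 12 < d.g.natAbs

theorem rowFacts (d : SD) (h : rowChk d = true) : RowFacts d := by
  simp only [rowChk, Bool.and_eq_true, Nat.blt_eq, Nat.beq_eq, Nat.ble_eq, decide_eq_true_eq] at h
  obtain ⟨⟨⟨⟨⟨⟨⟨⟨⟨h1, h2⟩, h3⟩, h4⟩, h5⟩, h6⟩, h7⟩, h8⟩, h9⟩, h10⟩ := h
  obtain ⟨i1, i2⟩ := incr_sound _ _ h1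
  exact ⟨fun a ha => (i1 a ha).2, i2, h2, h3, h4, h5, h6, h7, h8, h9, h10⟩

theorem psum_real (d : SD) (hf : RowFacts d) (k : ℕ) :
    ∑ j ∈ Rset d.idx, at' j.val ^ k = (psum k d.idx : ℝ) / (10 ^ 8) ^ k := by
  have h := sum_Rset d.idx hf.nodup hf.lt (fun a => cN a ^ k)
  rw [← psum_eq] at h
  have h2 : ((psum k d.idx : ℤ) : ℝ) = ∑ j ∈ Rset d.idx, (cN j.val : ℝ) ^ k := by
    rw [← h]
    push_cast
    rfl
  rw [h2, Finset.sum_div]
  refine Finset.sum_congr rfl fun j _ => ?_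
  unfold at'
  rw [div_pow]

theorem SS_real : ((SS : ℕ) : ℝ) = 10 ^ 8 := by norm_num [SS]

theorem G3_lin (d : SD) (hf : RowFacts d) (u v : Fin 31 → ℝ) (ε : ℝ) (hε : 0 ≤ ε)
    (hu : ∀ j, |u j| ≤ ε) (hv : ∀ j, |v j| ≤ ε) :
    |G3 (fun j => at' j.val + u j) (fun j => 1 + v j) (Rset d.idx)
      - ((d.g : ℝ) / (6 * 10 ^ 24) + (∑ j ∈ Rset d.idx, ((rU d.c1 d.c2 (cN j.val) : ℝ) * u j
        + (rV d.c1 (cN j.val) : ℝ) * v j)) / (2 * 10 ^ 16))| ≤ 780 * ε ^ 2 + 364 * ε ^ 3 := by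
  have hcard : (Rset d.idx).card = 12 := by
    rw [card_Rset _ hf.nodup hf.lt, hf.len]
  have s1 := psum_real d hf 1
  have s2 := psum_real d hf 2
  have s3 := psum_real d hf 3
  simp only [pow_one] at s1
  rw [hf.e1] at s1
  rw [hf.e2] at s2
  rw [hf.e3] at s3
  have hg : ((d.c1 : ℝ) ^ 3 - 3 * d.c1 * d.c2 + 2 * d.c3 + 66 * (10 ^ 8 * 10 ^ 8) * d.c1) = d.g := by
    have := hf.eg
    have h2 : ((d.c1 ^ 3 - 3 * d.c1 * d.c2 + 2 * d.c3 + 66 * (SS * SS) * d.c1 : ℤ) : ℝ)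
        = (d.g : ℝ) := by exact_mod_cast this
    push_cast at h2
    rw [SS_real] at h2
    exact h2
  have hA : |∑ j ∈ Rset d.idx, at' j.val| ≤ 4 := by
    rw [s1, abs_div, abs_of_pos (by norm_num : (0 : ℝ) < 10 ^ 8), div_le_iff₀ (by norm_num)]
    have h := hf.b1
    have h2 : ((d.c1.natAbs : ℕ) : ℝ) ≤ ((4 * SS : ℕ) : ℝ) := by exact_mod_cast h
    rw [Nat.cast_natAbs, Int.cast_abs] at h2
    push_cast at h2
    rw [SS_real] at h2
    exact h2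
  have hb := rem3_bound (Rset d.idx) hcard (fun j => at' j.val) u v ε hε
    (fun j _ => at_bound _) hA (fun j _ => hu j) (fun j _ => hv j)
  rw [G3_expand, hcard, s1, s2, s3]
  have hlin : ∑ j ∈ Rset d.idx, (((((d.c1 : ℝ) / 10 ^ 8) ^ 2 - (d.c2 : ℝ) / (10 ^ 8) ^ 2) / 2
        - (d.c1 : ℝ) / 10 ^ 8 * at' j.val + at' j.val ^ 2 + (((12 : ℕ) : ℝ) - 1)) * u j
        + ((d.c1 : ℝ) / 10 ^ 8 - at' j.val) * v j)
      = (∑ j ∈ Rset d.idx, ((rU d.c1 d.c2 (cN j.val) : ℝ) * u j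
        + (rV d.c1 (cN j.val) : ℝ) * v j)) / (2 * 10 ^ 16) := by
    rw [Finset.sum_div]
    refine Finset.sum_congr rfl fun j _ => ?_
    unfold rU rV at'
    push_cast
    rw [SS_real]
    ring
  rw [hlin]
  have hconst : (((d.c1 : ℝ) / 10 ^ 8) ^ 3
      - 3 * ((d.c1 : ℝ) / 10 ^ 8) * ((d.c2 : ℝ) / (10 ^ 8) ^ 2)
      + 2 * ((d.c3 : ℝ) / (10 ^ 8) ^ 3)) / 6 + (d.c1 : ℝ) / 10 ^ 8 * ((12 : ℕ) : ℝ)
      - (d.c1 : ℝ) / 10 ^ 8 = (d.g : ℝ) / (6 * 10 ^ 24) := by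
    rw [← hg]
    push_cast
    ring
  rw [hconst]
  refine le_trans (le_of_eq ?_) hb
  congr 1
  ring

theorem row_bound (d : SD) (hf : RowFacts d) (u v : Fin 31 → ℝ)
    (hu : ∀ j, |u j| ≤ 8 / 10 ^ 5) (hv : ∀ j, |v j| ≤ 8 / 10 ^ 5)
    (h1 : 0 ≤ d.g → 0 ≤ G3 (fun j => at' j.val + u j) (fun j => 1 + v j) (Rset d.idx))
    (h2 : d.g < 0 → G3 (fun j => at' j.val + u j) (fun j => 1 + v j) (Rset d.idx) ≤ 0) :
    ∑ m ∈ Finset.range 62, ((rowfun d.idx d.c1 d.c2 d.g m : ℤ) : ℝ) * zz u v m ≤ (d.T : ℕ) := by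
  have hlin := G3_lin d hf u v (8 / 10 ^ 5) (by norm_num) hu hv
  set G := G3 (fun j => at' j.val + u j) (fun j => 1 + v j) (Rset d.idx) with hG
  set L := ∑ j ∈ Rset d.idx, ((rU d.c1 d.c2 (cN j.val) : ℝ) * u j
        + (rV d.c1 (cN j.val) : ℝ) * v j) with hL
  have hsum : ∑ m ∈ Finset.range 62, ((rowfun d.idx d.c1 d.c2 d.g m : ℤ) : ℝ) * zz u v m
      = ∑ j ∈ Rset d.idx, ((msgn d.g (rU d.c1 d.c2 (cN j.val)) : ℝ) * u j
        + (msgn d.g (rV d.c1 (cN j.val)) : ℝ) * v j) := by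
    rw [sum_zz (fun m => ((rowfun d.idx d.c1 d.c2 d.g m : ℤ) : ℝ)), ← Finset.sum_add_distrib,
      Rset, Finset.sum_filter]
    refine Finset.sum_congr rfl fun j _ => ?_
    have hj := j.isLt
    have e1 : 31 + j.val - 31 = j.val := by omega
    have e2 : ¬ (31 + j.val < 31) := by omega
    unfold rowfun
    simp only [hj, e1, e2, if_true, if_false, mem'_iff]
    split_ifs <;> simp
  have hT : (|d.g| : ℝ) + 3 * 10 ^ 8 * 99843727361 ≤ 3 * 10 ^ 8 * d.T := by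
    have h := hf.tee
    have h3 : ((d.g.natAbs + 3 * SS * EE : ℕ) : ℝ) ≤ ((3 * SS * d.T : ℕ) : ℝ) := by
      exact_mod_cast h
    push_cast at h3
    rw [Nat.cast_natAbs, SS_real, Int.cast_abs] at h3
    have h4 : ((EE : ℕ) : ℝ) = 99843727361 := by norm_num [EE]
    rw [h4] at h3
    exact h3
  rw [hsum]
  rw [abs_le] at hlin
  norm_num at hlin
  rcases lt_or_ge d.g 0 with hneg | hpos
  · have e1 : ∑ j ∈ Rset d.idx, ((msgn d.g (rU d.c1 d.c2 (cN j.val)) : ℝ) * u j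
        + (msgn d.g (rV d.c1 (cN j.val)) : ℝ) * v j) = L := by
      rw [hL]
      refine Finset.sum_congr rfl fun j _ => ?_
      cases hg : d.g with
      | ofNat n => rw [hg] at hneg; exact absurd hneg (by simp)
      | negSucc n => simp [msgn]
    have h3 := h2 hneg
    have h4 : |(d.g : ℝ)| = - d.g := abs_of_neg (by exact_mod_cast hneg)
    rw [e1]
    rw [h4] at hT
    linarith [hlin.1, hlin.2]
  · have e1 : ∑ j ∈ Rset d.idx, ((msgn d.g (rU d.c1 d.c2 (cN j.val)) : ℝ) * u j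
        + (msgn d.g (rV d.c1 (cN j.val)) : ℝ) * v j) = - L := by
      rw [hL, ← Finset.sum_neg_distrib]
      refine Finset.sum_congr rfl fun j _ => ?_
      cases hg : d.g with
      | ofNat n => simp [msgn]; ring
      | negSucc n => rw [hg] at hpos; exact absurd hpos (by simp)
    have h3 := h1 hpos
    have h4 : |(d.g : ℝ)| = d.g := abs_of_nonneg (by exact_mod_cast hpos)
    rw [e1]
    rw [h4] at hT
    linarith [hlin.1, hlin.2]

end Pool.Agent.Lib.MP_e8d1ff_al
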