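import Pool.Agent.Lib.MP_e8d1ff_al.ArcChk
import Pool.Agent.Lib.MP_e8d1ff_al.Row
import Pool.Agent.Lib.MP_e8d1ff_al.Pert
set_option autoImplicit false

namespace Pool.Agent.Lib.MP_e8d1ff_al

open Polynomial

/-- packing for polynomials -/
def pkA (f : ℕ → ℕ) : ℕ → ℕ → ℕ
  | _, 0 => 0
  | m, n + 1 => f m + BA * pkA f (m + 1) n

/-- shifted entry -/
def tnA (f : ℕ → ℤ) (m : ℕ) : ℕ := (f m + (OFA : ℤ)).toNat

theorem BA_pos : 0 < BA := by decide +kernel

theorem two_OFA : 2 * OFA < BA := by decide +kernel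

theorem two_le_BA : 2 ≤ BA := by decide +kernel

theorem pow_lt_OFA : (4 * SS) ^ 12 < OFA := by decide +kernel

theorem tnA_eq (f : ℕ → ℤ) (m : ℕ) (h : |f m| < OFA) : ((tnA f m : ℕ) : ℤ) = f m + OFA := by
  unfold tnA
  apply Int.toNat_of_nonneg
  rw [abs_lt] at h
  omega

theorem tnA_lt (f : ℕ → ℤ) (m : ℕ) (h : |f m| < OFA) : tnA f m < BA := by
  have h1 := tnA_eq f m h
  have h2 := two_OFA
  rw [abs_lt] at h
  omega

theorem pkA_sum (f : ℕ → ℤ) (hf : ∀ m, |f m| < OFA) (m n : ℕ) :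
    ((pkA (tnA f) m n : ℕ) : ℤ)
      = (∑ k ∈ Finset.range n, f (m + k) * (BA : ℤ) ^ k) + (offs n : ℕ) := by
  induction n generalizing m with
  | zero => simp [pkA, offs]
  | succ n ih =>
    rw [Finset.sum_range_succ', pkA, offs]
    push_cast
    rw [ih (m + 1), tnA_eq f m (hf m)]
    have : ∀ k, f (m + (k + 1)) * (BA : ℤ) ^ (k + 1) = BA * (f (m + 1 + k) * (BA : ℤ) ^ k) := by
      intro k
      rw [show m + (k + 1) = m + 1 + k by ring]
      ring
    simp only [this]
    rw [← Finset.mul_sum]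
    simp only [add_zero, pow_zero, mul_one]
    ring

theorem pkA_mod (f : ℕ → ℤ) (hf : ∀ m, |f m| < OFA) (m n : ℕ) :
    pkA (tnA f) m (n + 1) % BA = tnA f m := by
  rw [pkA, Nat.add_mul_mod_self_left, Nat.mod_eq_of_lt (tnA_lt f m (hf m))]

theorem pkA_div (f : ℕ → ℤ) (hf : ∀ m, |f m| < OFA) (m n : ℕ) :
    pkA (tnA f) m (n + 1) / BA = pkA (tnA f) (m + 1) n := by
  rw [pkA, Nat.add_mul_div_left _ _ BA_pos, Nat.div_eq_of_lt (tnA_lt f m (hf m)), zero_add]

theorem cmx_sound (f : ℕ → ℤ) (hf : ∀ m, |f m| < OFA) (m n : ℕ) (k : ℕ) (hk : k < n) :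
    (f (m + k)).natAbs ≤ cmx n (pkA (tnA f) m n) := by
  induction n generalizing m k with
  | zero => omega
  | succ n ih =>
    rw [cmx, pkA_mod f hf, pkA_div f hf, tnA_eq f m (hf m)]
    cases k with
    | zero =>
      apply le_max_of_le_left
      simp
    | succ k =>
      apply le_max_of_le_right
      rw [show m + (k + 1) = m + 1 + k by ring]
      exact ih (m + 1) k (by omega)

theorem digit_sound (f : ℕ → ℤ) (hf : ∀ m, |f m| < OFA) (m n : ℕ) (k : ℕ) (hk : k < n) :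
    pkA (tnA f) m n / BA ^ k % BA = tnA f (m + k) := by
  induction k generalizing m n with
  | zero =>
    obtain ⟨n, rfl⟩ : ∃ n', n = n' + 1 := ⟨n - 1, by omega⟩
    rw [pow_zero, Nat.div_one, pkA_mod f hf, add_zero]
  | succ k ih =>
    obtain ⟨n, rfl⟩ : ∃ n', n = n' + 1 := ⟨n - 1, by omega⟩
    rw [pow_succ', ← Nat.div_div_eq_div_mul, pkA_div f hf, ih (m + 1) n (by omega)]
    congr 1
    ring

/-- integer quadratic -/
noncomputable def qz (c : ℤ) : ℤ[X] := C (SS : ℤ) * X ^ 2 - C c * X + C (SS : ℤ)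

/-- integer product -/
noncomputable def ZR (s : Finset (Fin 31)) : ℤ[X] := ∏ i ∈ s, qz (cN i.val)

theorem qz_natDegree (c : ℤ) : (qz c).natDegree ≤ 2 := by
  unfold qz
  compute_degree

theorem ZR_natDegree (s : Finset (Fin 31)) : (ZR s).natDegree ≤ 2 * s.card := by
  unfold ZR
  refine (natDegree_prod_le _ _).trans ?_
  refine (Finset.sum_le_card_nsmul _ _ 2 fun i _ => qz_natDegree _).trans ?_
  rw [smul_eq_mul, mul_comm]

theorem ZR_bound (s : Finset (Fin 31)) (k : ℕ) : |(ZR s).coeff k| ≤ (4 * (SS : ℤ)) ^ s.card := by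
  classical
  induction s using Finset.induction_on generalizing k with
  | empty =>
    simp only [ZR, Finset.prod_empty, Finset.card_empty, pow_zero, coeff_one]
    split_ifs <;> simp
  | insert j s hj ih =>
    have hz : ZR (insert j s) = qz (cN j.val) * ZR s := by
      unfold ZR
      rw [Finset.prod_insert hj]
    have hc := cN_bound j.val
    have hS : (0 : ℤ) ≤ SS := by positivity
    have hM : (0 : ℤ) ≤ (4 * (SS : ℤ)) ^ s.card := by positivity
    rw [hz, Finset.card_insert_of_notMem hj, pow_succ, qz, add_mul, sub_mul, coeff_add, coeff_sub,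
      mul_assoc, mul_assoc, coeff_C_mul, coeff_C_mul, coeff_C_mul]
    have h1 : |(X ^ 2 * ZR s).coeff k| ≤ (4 * (SS : ℤ)) ^ s.card := by
      rcases lt_or_ge k 2 with h | h
      · rw [coeff_X_pow_mul', if_neg (by omega)]
        simp
      · rw [coeff_X_pow_mul', if_pos h]
        exact ih _
    have h2 : |(X * ZR s).coeff k| ≤ (4 * (SS : ℤ)) ^ s.card := by
      cases k with
      | zero => simp
      | succ k => rw [coeff_X_mul]; exact ih _
    have h3 := ih k
    have k1 : |(SS : ℤ) * (X ^ 2 * ZR s).coeff k| ≤ SS * (4 * (SS : ℤ)) ^ s.card := by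
      rw [abs_mul, abs_of_nonneg hS]
      exact mul_le_mul_of_nonneg_left h1 hS
    have k2 : |cN j.val * (X * ZR s).coeff k| ≤ 2 * SS * (4 * (SS : ℤ)) ^ s.card := by
      rw [abs_mul]
      exact mul_le_mul hc h2 (abs_nonneg _) (by positivity)
    have k3 : |(SS : ℤ) * (ZR s).coeff k| ≤ SS * (4 * (SS : ℤ)) ^ s.card := by
      rw [abs_mul, abs_of_nonneg hS]
      exact mul_le_mul_of_nonneg_left h3 hS
    rw [abs_le] at k1 k2 k3 ⊢
    constructor <;> linarith [k1.1, k1.2, k2.1, k2.2, k3.1, k3.2]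

theorem ZR_lt (s : Finset (Fin 31)) (hs : s.card ≤ 12) (k : ℕ) : |(ZR s).coeff k| < OFA := by
  refine lt_of_le_of_lt (ZR_bound s k) ?_
  have h1 : ((4 * SS : ℕ) : ℤ) ^ s.card ≤ ((4 * SS : ℕ) : ℤ) ^ 12 :=
    pow_le_pow_right₀ (by norm_num [SS]) hs
  push_cast at h1
  refine lt_of_le_of_lt h1 ?_
  have h2 : (((4 * SS) ^ 12 : ℕ) : ℤ) < (OFA : ℕ) := by exact_mod_cast pow_lt_OFA
  push_cast at h2
  exact h2

theorem qv_eq (c : ℤ) (hc : |c| ≤ 2 * SS) : ((qv c : ℕ) : ℤ) = (qz c).eval (BA : ℤ) := by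
  have h0 : 0 ≤ ((SS * BA ^ 2 + SS : ℕ) : ℤ) - c * BA := by
    have hc' := (abs_le.mp hc).2
    have hB : (2 : ℤ) ≤ BA := by exact_mod_cast two_le_BA
    have hS : (0 : ℤ) ≤ SS := by positivity
    push_cast
    have h1 : c * (BA : ℤ) ≤ (2 * SS) * BA := mul_le_mul_of_nonneg_right hc' (by linarith)
    have h3 : 0 ≤ (SS : ℤ) * BA * (BA - 2) :=
      mul_nonneg (mul_nonneg (by positivity) (by linarith)) (by linarith)
    have h2 : (2 * SS) * (BA : ℤ) ≤ SS * (BA : ℤ) ^ 2 := by nlinarith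
    linarith
  unfold qv
  rw [Int.toNat_of_nonneg h0, qz]
  simp only [eval_add, eval_sub, eval_mul, eval_pow, eval_X, eval_C]
  push_cast
  ring

theorem ZR_eval (s : Finset (Fin 31)) :
    ((∏ i ∈ s, qv (cN i.val) : ℕ) : ℤ) = (ZR s).eval (BA : ℤ) := by
  unfold ZR
  rw [eval_prod]
  push_cast
  exact Finset.prod_congr rfl fun i _ => qv_eq _ (cN_bound _)

theorem ZR_pack (s : Finset (Fin 31)) (hs : s.card ≤ 12) (n : ℕ) (hn : 2 * s.card < n) :
    (∏ i ∈ s, qv (cN i.val)) + offs n = pkA (tnA fun k => (ZR s).coeff k) 0 n := by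
  have h1 := pkA_sum (fun k => (ZR s).coeff k) (ZR_lt s hs) 0 n
  have h2 := ZR_eval s
  rw [eval_eq_sum_range' (lt_of_le_of_lt (ZR_natDegree s) hn)] at h2
  simp only [zero_add] at h1
  rw [← h2] at h1
  exact_mod_cast h1.symm

theorem qv_pos (c : ℤ) (hc : |c| ≤ 2 * SS) : 0 < qv c := by
  have h := qv_eq c hc
  have h0 : 0 < (qz c).eval (BA : ℤ) := by
    have hc' := (abs_le.mp hc).2
    have hB : (2 : ℤ) ≤ BA := by exact_mod_cast two_le_BA
    have hS : (0 : ℤ) < SS := by norm_num [SS]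
    simp only [qz, eval_add, eval_sub, eval_mul, eval_pow, eval_X, eval_C]
    have h1 : c * (BA : ℤ) ≤ (2 * SS) * BA := mul_le_mul_of_nonneg_right hc' (by linarith)
    have h3 : 0 ≤ (SS : ℤ) * BA * (BA - 2) :=
      mul_nonneg (mul_nonneg (by positivity) (by linarith)) (by linarith)
    have h2 : (2 * SS) * (BA : ℤ) ≤ SS * (BA : ℤ) ^ 2 := by nlinarith
    linarith
  omega

theorem ZR_real (s : Finset (Fin 31)) (k : ℕ) :
    ((ZR s).coeff k : ℝ) = (10 ^ 8) ^ s.card * (∏ i ∈ s, qd (at' i.val) 1).coeff k := by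
  have h : (ZR s).map (Int.castRingHom ℝ)
      = C ((10 ^ 8 : ℝ) ^ s.card) * ∏ i ∈ s, qd (at' i.val) 1 := by
    unfold ZR
    rw [Polynomial.map_prod, C_pow, ← Finset.prod_const, ← Finset.prod_mul_distrib]
    refine Finset.prod_congr rfl fun i _ => ?_
    unfold qz qd at'
    simp only [Polynomial.map_add, Polynomial.map_sub, Polynomial.map_mul, Polynomial.map_pow,
      map_X, map_C]
    have e1 : (Int.castRingHom ℝ) (SS : ℤ) = 10 ^ 8 := by
      rw [eq_intCast]
      exact_mod_cast SS_real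
    have e2 : (Int.castRingHom ℝ) (cN i.val) = 10 ^ 8 * ((cN i.val : ℝ) / 10 ^ 8) := by
      rw [eq_intCast]
      field_simp
    rw [e1, e2, C_mul, C_1]
    ring
  have h2 := congrArg (fun p => p.coeff k) h
  simp only [coeff_map, coeff_C_mul] at h2
  rw [← h2, eq_intCast]

theorem cmx_ZR (s : Finset (Fin 31)) (hs : s.card = 11) (k : ℕ) :
    ((ZR s).coeff k).natAbs ≤ cmx 23 ((∏ i ∈ s, qv (cN i.val)) + offs 23) := by
  rcases lt_or_ge k 23 with hk | hk
  · have h := cmx_sound (fun k => (ZR s).coeff k) (ZR_lt s (by omega)) 0 23 k hk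
    rw [zero_add] at h
    rw [ZR_pack s (by omega) 23 (by omega)]
    exact h
  · rw [coeff_eq_zero_of_natDegree_lt (lt_of_le_of_lt (ZR_natDegree s) (by omega))]
    simp

theorem cf_ZR (s : Finset (Fin 31)) (hs : s.card = 12) (k : ℕ) (hk : k < 25) :
    cf (∏ i ∈ s, qv (cN i.val)) k = (ZR s).coeff k := by
  have h := digit_sound (fun k => (ZR s).coeff k) (ZR_lt s (by omega)) 0 25 k hk
  rw [zero_add, ← ZR_pack s (by omega) 25 (by omega)] at h
  unfold cf
  rw [h, tnA_eq _ _ (ZR_lt s (by omega) k)]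
  ring

theorem pv_eq (idx : List ℕ) (hn : idx.Nodup) (hl : ∀ i ∈ idx, i < 31) :
    pv idx = ∏ i ∈ Rset idx, qv (cN i.val) := by
  rw [prod_Rset idx hn hl (fun a => qv (cN a))]
  clear hn hl
  induction idx with
  | nil => simp [pv]
  | cons a l ih => simp [pv, ih]

theorem etaSum_list (P : ℕ) (idx : List ℕ) :
    etaSum P idx = (idx.map fun a => cmx 23 (P / qv (cN a) + offs 23)).sum := by
  induction idx with
  | nil => simp [etaSum]
  | cons a l ih => simp [etaSum, ih]

theorem etaSum_eq (idx : List ℕ) (hn : idx.Nodup) (hl : ∀ i ∈ idx, i < 31) :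
    etaSum (pv idx) idx
      = ∑ j ∈ Rset idx, cmx 23 ((∏ i ∈ (Rset idx).erase j, qv (cN i.val)) + offs 23) := by
  rw [etaSum_list, ← sum_Rset idx hn hl (fun a => cmx 23 (pv idx / qv (cN a) + offs 23))]
  refine Finset.sum_congr rfl fun j hj => ?_
  rw [pv_eq idx hn hl, ← Finset.mul_prod_erase _ _ hj,
    Nat.mul_div_cancel_left _ (qv_pos _ (cN_bound _))]

theorem gaps : ∀ i j : Fin 31, i ≠ j → 1980000 ≤ |cN j.val - cN i.val| := by decide +kernel

theorem at_gap (i j : Fin 31) (h : i ≠ j) : 198 / 10 ^ 4 ≤ |at' j.val - at' i.val| := by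
  have h1 := gaps i j h
  unfold at'
  rw [← sub_div, abs_div, abs_of_pos (by norm_num : (0 : ℝ) < 10 ^ 8), le_div_iff₀ (by norm_num)]
  have h2 : ((1980000 : ℤ) : ℝ) ≤ ((|cN j.val - cN i.val| : ℤ) : ℝ) := by exact_mod_cast h1
  push_cast at h2
  refine le_trans (by norm_num) h2

theorem arcA_sound (P H : ℕ) (l : List ℕ) (h : arcA P H l = true) :
    ∀ k ∈ l, H < (cf P k).natAbs := by
  induction l with
  | nil => simp
  | cons a l ih =>
    simp only [arcA, Bool.and_eq_true, Nat.blt_eq] at h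
    intro k hk
    rcases List.mem_cons.mp hk with rfl | hk
    · exact h.1
    · exact ih h.2 k hk

theorem arcB_sound (P H : ℕ) (p12 : ℤ) (l : List ℕ) (h : arcB P H p12 l = true) :
    ∀ k ∈ l, H * (SS ^ 12 + p12.natAbs + (cf P (k + 12)).natAbs) + H * H
      < (p12 * cf P (k + 12) - cf P k * SS ^ 12).natAbs := by
  induction l with
  | nil => simp
  | cons a l ih =>
    simp only [arcB, Bool.and_eq_true, Nat.blt_eq] at h
    intro k hk
    rcases List.mem_cons.mp hk with rfl | hk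
    · exact h.1
    · exact ih h.2 k hk

theorem ne_of_close (a b c a' b' c' H T : ℝ) (hT : 0 ≤ T) (ha : |a' - a| ≤ H)
    (hb : |b' - b| ≤ H) (hc : |c' - c| ≤ H)
    (h : H * (T + |a| + |b|) + H * H < |a * b - c * T|) : c' * T ≠ a' * b' := by
  intro he
  have hH : 0 ≤ H := (abs_nonneg _).trans ha
  have e : a * b - c * T = -((a' - a) * b) - a * (b' - b) - (a' - a) * (b' - b)
      + (c' - c) * T := by
    linear_combination - he
  have h1 : |(a' - a) * b| ≤ H * |b| := by
    rw [abs_mul]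
    exact mul_le_mul_of_nonneg_right ha (abs_nonneg _)
  have h2 : |a * (b' - b)| ≤ |a| * H := by
    rw [abs_mul]
    exact mul_le_mul_of_nonneg_left hb (abs_nonneg _)
  have h3 : |(a' - a) * (b' - b)| ≤ H * H := by
    rw [abs_mul]
    exact mul_le_mul ha hb (abs_nonneg _) hH
  have h4 : |(c' - c) * T| ≤ H * T := by
    rw [abs_mul, abs_of_nonneg hT]
    exact mul_le_mul_of_nonneg_right hc hT
  have h5 : |a * b - c * T| ≤ H * |b| + |a| * H + H * H + H * T := by
    rw [e, abs_le]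
    rw [abs_le] at h1 h2 h3 h4
    constructor <;> linarith [h1.1, h1.2, h2.1, h2.2, h3.1, h3.2, h4.1, h4.2]
  linarith

/-- soundness of the arc checks -/
theorem arcs_sound (idx : List ℕ) (hn : idx.Nodup) (hl : ∀ i ∈ idx, i < 31)
    (hlen : idx.length = 12) (hchk : arcChk' idx = true) (u v : Fin 31 → ℝ)
    (hu : ∀ j, |u j| ≤ 8 / 10 ^ 5) (hv : ∀ j, |v j| ≤ 8 / 10 ^ 5)
    (h21 : (∏ j ∈ Rset idx, qd (at' j.val + u j) (1 + v j)).coeff 21 = 0) :
    ArcsOK (∏ j ∈ Rset idx, qd (at' j.val + u j) (1 + v j)) := by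
  have hcard : (Rset idx).card = 12 := by rw [card_Rset idx hn hl, hlen]
  simp only [arcChk', arcChk, Bool.and_eq_true] at hchk
  obtain ⟨⟨_, hA⟩, hB⟩ := hchk
  set S : ℕ := ∑ j ∈ Rset idx, cmx 23 ((∏ i ∈ (Rset idx).erase j, qv (cN i.val)) + offs 23)
    with hS
  rw [etaSum_eq idx hn hl, pv_eq idx hn hl, ← hS] at hA hB
  set H : ℕ := 17600 * S with hH
  set P := ∏ j ∈ Rset idx, qd (at' j.val + u j) (1 + v j) with hP
  set P0 := ∏ j ∈ Rset idx, qd (at' j.val) 1 with hP0
  have hz : ∀ k, ((ZR (Rset idx)).coeff k : ℝ) = 10 ^ 96 * P0.coeff k := by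
    intro k
    rw [ZR_real, hcard, hP0]
    norm_num
  -- perturbation
  have hpert : SupLe (P - P0) ((H : ℝ) / 10 ^ 96) := by
    have h1 := pert_sup (Rset idx) (fun j => at' j.val) u v (by
        intro i _ j _ hij
        by_contra hne
        have := at_gap i j hne
        simp only at hij
        rw [hij, sub_self, abs_zero] at this
        norm_num at this) (8 / 10 ^ 5) (198 / 10 ^ 4) (by norm_num) (by norm_num)
      (fun i _ j _ hij => at_gap i j hij) (fun i _ => hu i) (fun i _ => hv i)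
      (fun j => (cmx 23 ((∏ i ∈ (Rset idx).erase j, qv (cN i.val)) + offs 23) : ℕ) / 10 ^ 88) (by
        intro j hj k
        have hc11 : ((Rset idx).erase j).card = 11 := by
          rw [Finset.card_erase_of_mem hj, hcard]
        have h2 := cmx_ZR ((Rset idx).erase j) hc11 k
        have h3 := ZR_real ((Rset idx).erase j) k
        rw [hc11] at h3
        have h4 : (((((ZR ((Rset idx).erase j)).coeff k).natAbs : ℕ)) : ℝ)
            ≤ ((cmx 23 ((∏ i ∈ (Rset idx).erase j, qv (cN i.val)) + offs 23) : ℕ) : ℝ) := by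
          exact_mod_cast h2
        generalize cmx 23 ((∏ i ∈ (Rset idx).erase j, qv (cN i.val)) + offs 23) = N at *
        rw [Nat.cast_natAbs, Int.cast_abs, h3, abs_mul, abs_of_pos (by positivity)] at h4
        rw [le_div_iff₀ (by positivity)]
        norm_num at h4 ⊢
        linarith)
    refine h1.mono ?_
    rw [hcard, hH, hS]
    push_cast
    rw [Finset.mul_sum, Finset.sum_div]
    refine Finset.sum_le_sum fun j _ => ?_
    have hN : (0 : ℝ) ≤ ((cmx 23 ((∏ i ∈ (Rset idx).erase j, qv (cN i.val)) + offs 23) : ℕ) : ℝ) :=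
      Nat.cast_nonneg _
    generalize ((cmx 23 ((∏ i ∈ (Rset idx).erase j, qv (cN i.val)) + offs 23) : ℕ) : ℝ) = N at *
    have hk : (1 + 2 * (8 / 10 ^ 5) / (198 / 10 ^ 4) : ℝ) ^ (12 - 1) ≤ 11 / 10 := by norm_num
    have h5 : (1 + 2 * (8 / 10 ^ 5) / (198 / 10 ^ 4) : ℝ) ^ (12 - 1) * (N / 10 ^ 88)
        ≤ 11 / 10 * (N / 10 ^ 88) := mul_le_mul_of_nonneg_right hk (by positivity)
    calc 2 * (8 / 10 ^ 5) * ((1 + 2 * (8 / 10 ^ 5) / (198 / 10 ^ 4) : ℝ) ^ (12 - 1) * (N / 10 ^ 88))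
        ≤ 2 * (8 / 10 ^ 5) * (11 / 10 * (N / 10 ^ 88)) :=
          mul_le_mul_of_nonneg_left h5 (by norm_num)
      _ ≤ 17600 * N / 10 ^ 96 := by
          apply le_of_eq
          ring
  have hcl : ∀ k, |10 ^ 96 * P.coeff k - ((ZR (Rset idx)).coeff k : ℝ)| ≤ (H : ℝ) := by
    intro k
    have h := hpert k
    rw [coeff_sub, le_div_iff₀ (by positivity)] at h
    rw [hz k, ← mul_sub, abs_mul, abs_of_pos (by positivity : (0 : ℝ) < 10 ^ 96), mul_comm]
    exact h
  have hcf : ∀ k < 25, cf (∏ i ∈ Rset idx, qv (cN i.val)) k = (ZR (Rset idx)).coeff k :=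
    fun k hk => cf_ZR (Rset idx) hcard k hk
  have hA' := arcA_sound _ _ _ hA
  have hB' := arcB_sound _ _ _ _ hB
  have hne : ∀ k < 25, H < (cf (∏ i ∈ Rset idx, qv (cN i.val)) k).natAbs → P.coeff k ≠ 0 := by
    intro k hk hlt h0
    rw [hcf k hk] at hlt
    have h1 := hcl k
    rw [h0, mul_zero, zero_sub, abs_neg] at h1
    have h2 : (H : ℝ) < (((ZR (Rset idx)).coeff k).natAbs : ℕ) := by exact_mod_cast hlt
    rw [Nat.cast_natAbs, Int.cast_abs] at h2
    linarith
  refine ⟨?_, ?_, ?_⟩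
  · rw [hP, coeff_zero_prod, Finset.prod_ne_zero_iff]
    intro j _
    have : (qd (at' j.val + u j) (1 + v j)).coeff 0 = 1 + v j := by
      simp [qd]
    rw [this]
    have := (abs_le.mp (hv j)).1
    norm_num at this
    linarith
  · intro k hk1 hk2 hk3
    apply hne k (by omega)
    apply hA'
    simp only [List.mem_cons, List.not_mem_nil, or_false]
    omega
  · intro k hk1 hk2
    by_cases h9 : k = 9
    · subst h9
      rw [show 9 + 12 = 21 by norm_num, h21, mul_zero]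
      apply hne 9 (by norm_num)
      apply hA'
      simp
    · have hkB : k ∈ [1, 2, 3, 4, 5, 6, 7, 8, 10, 11] := by
        simp only [List.mem_cons, List.not_mem_nil, or_false]
        omega
      have h := hB' k hkB
      rw [hcf 12 (by norm_num), hcf k (by omega), hcf (k + 12) (by omega)] at h
      intro he
      have hreal : (H : ℝ) * (10 ^ 96 + |((ZR (Rset idx)).coeff 12 : ℝ)|
          + |((ZR (Rset idx)).coeff (k + 12) : ℝ)|) + H * H
          < |((ZR (Rset idx)).coeff 12 : ℝ) * ((ZR (Rset idx)).coeff (k + 12) : ℝ)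
            - ((ZR (Rset idx)).coeff k : ℝ) * 10 ^ 96| := by
        have h2 : ((H * (SS ^ 12 + ((ZR (Rset idx)).coeff 12).natAbs
            + ((ZR (Rset idx)).coeff (k + 12)).natAbs) + H * H : ℕ) : ℝ)
            < ((((ZR (Rset idx)).coeff 12 * (ZR (Rset idx)).coeff (k + 12)
              - (ZR (Rset idx)).coeff k * (SS : ℤ) ^ 12).natAbs : ℕ) : ℝ) := by
          exact_mod_cast h
        rw [Nat.cast_natAbs, Int.cast_abs] at h2
        push_cast at h2
        rw [Nat.cast_natAbs, Int.cast_abs, Nat.cast_natAbs, Int.cast_abs, SS_real] at h2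
        norm_num at h2 ⊢
        exact h2
      apply ne_of_close _ _ _ (10 ^ 96 * P.coeff 12) (10 ^ 96 * P.coeff (k + 12))
        (10 ^ 96 * P.coeff k) _ _ (by positivity) (hcl 12) (hcl (k + 12)) (hcl k) hreal
      rw [he]
      ring

end Pool.Agent.Lib.MP_e8d1ff_al
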