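import Pool.Agent.Lib.MP_e8d1ff_al.Data

set_option autoImplicit false
set_option maxRecDepth 100000

namespace Pool.Agent.Lib.MP_e8d1ff_al

/-- target of the first stage (times `LAM`) -/
def tF (s : ℤ) (m : ℕ) : ℤ :=
  if m < 31 then s * (LAM * (2 * SS * (SS - cN m))) else s * (LAM * (2 * SS * SS))

/-- target of the first stage, as a list -/
def tgF (s : ℤ) : List ℤ := (List.range 62).map (tF s)

/-- target of the second stage (times `LAM`) -/
def tZ (k : ℕ) (s : ℤ) (m : ℕ) : ℤ := if m = k then s * (LAM * (2 * SS * SS)) else 0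

/-- target of the second stage, as a list -/
def tgZ (k : ℕ) (s : ℤ) : List ℤ := (List.range 62).map (tZ k s)

/-- check of the first stage: value at most `7.5e-5` -/
def chkF (s : ℤ) (lam : List ℕ) : Bool :=
  lpChk (packs ++ packF) (tees ++ [49600000000000, 49600000000000]) (tgF s) (10 ^ 6) 80
    (75 * (LAM * (2 * SS * SS))) lam

/-- check of the second stage: value at most `6.5e-5` -/
def chkZ (k : ℕ) (s : ℤ) (lam : List ℕ) : Bool :=
  lpChk (packs ++ packZ) (tees ++ [9000000000000, 9000000000000]) (tgZ k s) (10 ^ 6) 80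
    (65 * (LAM * (2 * SS * SS))) lam

/-- all the checks -/
def allZ : ℕ → List (List ℕ) → Bool
  | k, a :: b :: l => chkZ k 1 a && chkZ k (-1) b && allZ (k + 1) l
  | _, [] => true
  | _, [_] => false

theorem lamF_ok : (chkF 1 (lamF.getD 0 []) && chkF (-1) (lamF.getD 1 [])) = true := by
  decide +kernel

theorem lamz_ok : (Nat.beq lamz.length 124 && allZ 0 lamz) = true := by decide +kernel

/-- extra rows of the first stage -/
def exV (s : ℤ) (m : ℕ) : ℤ := if m < 31 then 0 else s * (2 * SS * SS)

/-- extra rows of the second stage -/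
def exW (s : ℤ) (m : ℕ) : ℤ := if m < 31 then s * (2 * SS * SS) else - s * (2 * SS * SS)

theorem packF_eq : packF = [pk (fun m => (exV 1 m + (OFF : ℤ)).toNat) 0 62,
    pk (fun m => (exV (-1) m + (OFF : ℤ)).toNat) 0 62] := by decide +kernel

theorem packZ_eq : packZ = [pk (fun m => (exW 1 m + (OFF : ℤ)).toNat) 0 62,
    pk (fun m => (exW (-1) m + (OFF : ℤ)).toNat) 0 62] := by decide +kernel

end Pool.Agent.Lib.MP_e8d1ff_al
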