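import Pool.Agent.Lib.MP_e8d1ff_al.Data

set_option autoImplicit false
set_option maxRecDepth 100000

namespace Pool.Agent.Lib.MP_e8d1ff_al

theorem sets_ok : sets.all rowChk = true := by decide +kernel

theorem packs_eq : sets.map SD.P = packs := by decide +kernel

theorem tees_eq : sets.map SD.T = tees := by decide +kernel

end Pool.Agent.Lib.MP_e8d1ff_al
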