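import Pool.Agent.Lib.MP_e8d1ff_al.Row
import Pool.Agent.Lib.MP_e8d1ff_al.KRow
import Pool.Agent.Lib.MP_e8d1ff_al.KLp
set_option autoImplicit false

namespace Pool.Agent.Lib.MP_e8d1ff_al

/-- no crossing, in the weak form -/
def NoCross (u v : Fin 31 → ℝ) : Prop :=
  ∀ d ∈ sets, (0 ≤ d.g → 0 ≤ G3 (fun j => at' j.val + u j) (fun j => 1 + v j) (Rset d.idx)) ∧
    (d.g < 0 → G3 (fun j => at' j.val + u j) (fun j => 1 + v j) (Rset d.idx) ≤ 0)

theorem allFacts (d : SD) (hd : d ∈ sets) : RowFacts d :=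
  rowFacts d (List.all_eq_true.mp sets_ok d hd)

/-- the row function of a set -/
def rowD (d : SD) : ℕ → ℤ := rowfun d.idx d.c1 d.c2 d.g

theorem psum2_bound (l : List ℕ) : 0 ≤ psum 2 l ∧ psum 2 l ≤ l.length * (4 * (SS : ℤ) ^ 2) := by
  induction l with
  | nil => simp [psum]
  | cons a l ih =>
    have h := cN_bound a
    have h2 : cN a ^ 2 ≤ 4 * (SS : ℤ) ^ 2 := by
      have := abs_le.mp h
      nlinarith
    have h3 : 0 ≤ cN a ^ 2 := sq_nonneg _
    simp only [psum, List.length_cons]
    push_cast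
    constructor
    · linarith [ih.1]
    · linarith [ih.2]

theorem rowD_bound (d : SD) (hf : RowFacts d) (m : ℕ) : |rowD d m| < OFF := by
  have hc1 : |d.c1| ≤ 4 * SS := by
    have := hf.b1
    have h2 : ((d.c1.natAbs : ℕ) : ℤ) ≤ ((4 * SS : ℕ) : ℤ) := by exact_mod_cast this
    rw [Int.natCast_natAbs] at h2
    push_cast at h2
    exact h2
  have hc2 := psum2_bound d.idx
  rw [hf.e2, hf.len] at hc2
  have hOFF : (110 * (SS : ℤ) ^ 2) < (OFF : ℤ) := by norm_num [SS, OFF]
  have hc1' := abs_le.mp hc1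
  have hSS : (0 : ℤ) < SS := by norm_num [SS]
  have hU : ∀ c : ℤ, |c| ≤ 2 * SS → |rU d.c1 d.c2 c| < OFF := by
    intro c hc
    have hc' := abs_le.mp hc
    have k1 : d.c1 * d.c1 ≤ 16 * (SS : ℤ) ^ 2 := by nlinarith
    have k2 : |d.c1 * c| ≤ 8 * (SS : ℤ) ^ 2 := by
      rw [abs_mul]
      calc |d.c1| * |c| ≤ (4 * SS) * (2 * SS) := mul_le_mul hc1 hc (abs_nonneg _) (by positivity)
        _ = 8 * (SS : ℤ) ^ 2 := by ring
    have k3 : c * c ≤ 4 * (SS : ℤ) ^ 2 := by nlinarith
    have k4 : 0 ≤ c * c := mul_self_nonneg c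
    have k5 : 0 ≤ d.c1 * d.c1 := mul_self_nonneg _
    have k2' := abs_le.mp k2
    have e : rU d.c1 d.c2 c = d.c1 * d.c1 - d.c2 - 2 * (d.c1 * c) + 2 * (c * c)
        + 22 * (SS : ℤ) ^ 2 := by
      unfold rU
      ring
    rw [e, abs_lt]
    push_cast at hc2
    constructor <;> nlinarith [hc2.1, hc2.2, k2'.1, k2'.2]
  have hV : ∀ c : ℤ, |c| ≤ 2 * SS → |rV d.c1 c| < OFF := by
    intro c hc
    have hc' := abs_le.mp hc
    unfold rV
    rw [abs_lt]
    constructor <;> nlinarith [hc1'.1, hc1'.2, hc'.1, hc'.2]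
  have h0 : |(0 : ℤ)| < OFF := by norm_num [OFF]
  unfold rowD rowfun
  split_ifs
  · rw [msgn_abs]
    exact hU _ (cN_bound _)
  · exact h0
  · rw [msgn_abs]
    exact hV _ (cN_bound _)
  · exact h0

theorem packs_rows : packs = (sets.map rowD).map fun f => pk (tn f) 0 62 := by
  rw [← packs_eq, List.map_map]
  apply List.map_congr_left
  intro d hd
  rw [← (allFacts d hd).pack]
  rfl

theorem getD_map_range (f : ℕ → ℤ) (m : ℕ) (hm : m < 62) :
    ((List.range 62).map f).getD m 0 = f m := by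
  rw [List.getD_eq_getElem _ _ (by simpa using hm)]
  simp

theorem rows_forall (u v : Fin 31 → ℝ)
    (hu : ∀ j, |u j| ≤ 8 / 10 ^ 5) (hv : ∀ j, |v j| ≤ 8 / 10 ^ 5) (hnc : NoCross u v) :
    List.Forall₂ (fun (f : ℕ → ℤ) (T : ℕ) =>
      ∑ m ∈ Finset.range 62, ((f m : ℤ) : ℝ) * zz u v m ≤ (T : ℕ)) (sets.map rowD) tees := by
  rw [← tees_eq, List.forall₂_map_left_iff, List.forall₂_map_right_iff, List.forall₂_same]
  intro d hd
  exact row_bound d (allFacts d hd) u v hu hv (hnc d hd).1 (hnc d hd).2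

theorem SS_int : ((SS : ℕ) : ℝ) = 10 ^ 8 := SS_real

theorem LAM_real : ((LAM : ℕ) : ℝ) = 10 ^ 4 := by norm_num [LAM]

theorem stageF (u v : Fin 31 → ℝ)
    (hu : ∀ j, |u j| ≤ 8 / 10 ^ 5) (hv : ∀ j, |v j| ≤ 8 / 10 ^ 5) (hnc : NoCross u v) :
    |∑ j : Fin 31, (1 - at' j.val) * u j + ∑ j : Fin 31, v j| ≤ 75 / 10 ^ 6 := by
  have hV : |∑ j : Fin 31, v j| ≤ 31 * (8 / 10 ^ 5) := by
    have := abs_sum_le_card Finset.univ v _ (fun j _ => hv j)
    simpa using this
  have hV' := abs_le.mp hV
  have hex : ∀ s : ℤ, ∑ m ∈ Finset.range 62, ((exV s m : ℤ) : ℝ) * zz u v m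
      = s * (2 * 10 ^ 16) * ∑ j : Fin 31, v j := by
    intro s
    rw [sum_zz (fun m => ((exV s m : ℤ) : ℝ))]
    have e1 : ∀ j : Fin 31, exV s j.val = 0 := fun j => by simp [exV]
    have e2 : ∀ j : Fin 31, exV s (31 + j.val) = s * (2 * SS * SS) := fun j => by
      simp [exV]
    simp only [e1, e2]
    push_cast
    rw [SS_real, Finset.mul_sum]
    simp only [zero_mul, Finset.sum_const_zero, zero_add]
    refine Finset.sum_congr rfl fun j _ => ?_
    ring
  have main : ∀ (s : ℤ) (lam : List ℕ), chkF s lam = true →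
      (s : ℝ) * (∑ j : Fin 31, (1 - at' j.val) * u j + ∑ j : Fin 31, v j) ≤ 75 / 10 ^ 6 := by
    intro s lam hchk
    unfold chkF at hchk
    have h := lp_sound (sets.map rowD ++ [exV 1, exV (-1)]) (by
        intro f hf m
        rcases List.mem_append.mp hf with hf | hf
        · obtain ⟨d, hd, rfl⟩ := List.mem_map.mp hf
          exact rowD_bound d (allFacts d hd) m
        · have : f = exV 1 ∨ f = exV (-1) := by simpa using hf
          rcases this with rfl | rfl <;> (unfold exV; split_ifs <;> norm_num [OFF, SS]))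
      (packs ++ packF) (tees ++ [49600000000000, 49600000000000]) (by
        rw [packs_rows, packF_eq, List.map_append]
        rfl) (zz u v) (zz_bound u v _ (by norm_num) hu hv) (by
        apply List.rel_append (rows_forall u v hu hv hnc)
        refine List.Forall₂.cons ?_ (List.Forall₂.cons ?_ List.Forall₂.nil)
        · rw [hex]
          push_cast
          linarith [hV'.1, hV'.2]
        · rw [hex]
          push_cast
          linarith [hV'.1, hV'.2])
      (tgF s) (75 * (LAM * (2 * SS * SS))) lam hchk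
    have e : ∑ m ∈ Finset.range 62, (((tgF s).getD m 0 : ℤ) : ℝ) * zz u v m
        = s * (2 * 10 ^ 20) * (∑ j : Fin 31, (1 - at' j.val) * u j + ∑ j : Fin 31, v j) := by
      have e0 : ∑ m ∈ Finset.range 62, (((tgF s).getD m 0 : ℤ) : ℝ) * zz u v m
          = ∑ m ∈ Finset.range 62, ((tF s m : ℤ) : ℝ) * zz u v m := by
        refine Finset.sum_congr rfl fun m hm => ?_
        rw [tgF, getD_map_range _ _ (by simpa using hm)]
      rw [e0, sum_zz (fun m => ((tF s m : ℤ) : ℝ))]
      have e1 : ∀ j : Fin 31, tF s j.val = s * (LAM * (2 * SS * (SS - cN j.val))) := fun j => by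
        simp [tF]
      have e2 : ∀ j : Fin 31, tF s (31 + j.val) = s * (LAM * (2 * SS * SS)) := fun j => by
        simp [tF]
      simp only [e1, e2]
      push_cast
      rw [SS_real, LAM_real, mul_add, Finset.mul_sum, Finset.mul_sum]
      congr 1
      · refine Finset.sum_congr rfl fun j _ => ?_
        unfold at'
        ring
      · refine Finset.sum_congr rfl fun j _ => ?_
        ring
    rw [e] at h
    push_cast at h
    rw [SS_real, LAM_real] at h
    linarith
  have hk := lamF_ok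
  rw [Bool.and_eq_true] at hk
  have h1 := main 1 _ hk.1
  have h2 := main (-1) _ hk.2
  rw [abs_le]
  push_cast at h1 h2
  constructor <;> linarith

theorem allZ_sound (k : ℕ) (L : List (List ℕ)) (h : allZ k L = true) (i : ℕ)
    (hi : 2 * i + 1 < L.length) :
    ∃ a b : List ℕ, chkZ (k + i) 1 a = true ∧ chkZ (k + i) (-1) b = true := by
  induction i generalizing k L with
  | zero =>
    match L, h with
    | a :: b :: l, h =>
      simp only [allZ, Bool.and_eq_true] at h
      exact ⟨a, b, by simpa using h.1.1, by simpa using h.1.2⟩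
    | [a], h => simp at hi
    | [], h => simp at hi
  | succ i ih =>
    match L, h with
    | a :: b :: l, h =>
      simp only [allZ, Bool.and_eq_true] at h
      obtain ⟨a', b', h1, h2⟩ := ih (k + 1) l h.2 (by simp at hi; omega)
      refine ⟨a', b', ?_, ?_⟩
      · rw [show k + (i + 1) = k + 1 + i by omega]; exact h1
      · rw [show k + (i + 1) = k + 1 + i by omega]; exact h2
    | [a], h => simp at hi
    | [], h => simp at hi

theorem stageZ (u v : Fin 31 → ℝ)
    (hu : ∀ j, |u j| ≤ 8 / 10 ^ 5) (hv : ∀ j, |v j| ≤ 8 / 10 ^ 5) (hnc : NoCross u v)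
    (hUV : |∑ j : Fin 31, u j - ∑ j : Fin 31, v j| ≤ 45 / 10 ^ 5) (k : ℕ) (hk : k < 62) :
    |zz u v k| ≤ 65 / 10 ^ 6 := by
  have hUV' := abs_le.mp hUV
  have hex : ∀ s : ℤ, ∑ m ∈ Finset.range 62, ((exW s m : ℤ) : ℝ) * zz u v m
      = s * (2 * 10 ^ 16) * (∑ j : Fin 31, u j - ∑ j : Fin 31, v j) := by
    intro s
    rw [sum_zz (fun m => ((exW s m : ℤ) : ℝ))]
    have e1 : ∀ j : Fin 31, exW s j.val = s * (2 * SS * SS) := fun j => by simp [exW]
    have e2 : ∀ j : Fin 31, exW s (31 + j.val) = - s * (2 * SS * SS) := fun j => by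
      simp [exW]
    simp only [e1, e2]
    push_cast
    rw [SS_real, mul_sub, Finset.mul_sum, Finset.mul_sum, sub_eq_add_neg,
      ← Finset.sum_neg_distrib]
    congr 1
    · refine Finset.sum_congr rfl fun j _ => ?_
      ring
    · refine Finset.sum_congr rfl fun j _ => ?_
      ring
  have main : ∀ (s : ℤ) (lam : List ℕ), chkZ k s lam = true →
      (s : ℝ) * zz u v k ≤ 65 / 10 ^ 6 := by
    intro s lam hchk
    unfold chkZ at hchk
    have h := lp_sound (sets.map rowD ++ [exW 1, exW (-1)]) (by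
        intro f hf m
        rcases List.mem_append.mp hf with hf | hf
        · obtain ⟨d, hd, rfl⟩ := List.mem_map.mp hf
          exact rowD_bound d (allFacts d hd) m
        · have : f = exW 1 ∨ f = exW (-1) := by simpa using hf
          rcases this with rfl | rfl <;> (unfold exW; split_ifs <;> norm_num [OFF, SS]))
      (packs ++ packZ) (tees ++ [9000000000000, 9000000000000]) (by
        rw [packs_rows, packZ_eq, List.map_append]
        rfl) (zz u v) (zz_bound u v _ (by norm_num) hu hv) (by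
        apply List.rel_append (rows_forall u v hu hv hnc)
        refine List.Forall₂.cons ?_ (List.Forall₂.cons ?_ List.Forall₂.nil)
        · rw [hex]
          push_cast
          linarith [hUV'.1, hUV'.2]
        · rw [hex]
          push_cast
          linarith [hUV'.1, hUV'.2])
      (tgZ k s) (65 * (LAM * (2 * SS * SS))) lam hchk
    have e : ∑ m ∈ Finset.range 62, (((tgZ k s).getD m 0 : ℤ) : ℝ) * zz u v m
        = s * (2 * 10 ^ 20) * zz u v k := by
      have e0 : ∑ m ∈ Finset.range 62, (((tgZ k s).getD m 0 : ℤ) : ℝ) * zz u v m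
          = ∑ m ∈ Finset.range 62, if m = k then s * (2 * 10 ^ 20) * zz u v k else 0 := by
        refine Finset.sum_congr rfl fun m hm => ?_
        rw [tgZ, getD_map_range _ _ (by simpa using hm), tZ]
        split_ifs with hmk
        · subst hmk
          push_cast
          rw [SS_real, LAM_real]
          ring
        · simp
      rw [e0, Finset.sum_ite_eq']
      simp [hk]
    rw [e] at h
    push_cast at h
    rw [SS_real, LAM_real] at h
    linarith
  have hkk := lamz_ok
  rw [Bool.and_eq_true, Nat.beq_eq] at hkk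
  obtain ⟨a, b, h1, h2⟩ := allZ_sound 0 lamz hkk.2 k (by rw [hkk.1]; omega)
  rw [zero_add] at h1 h2
  have g1 := main 1 _ h1
  have g2 := main (-1) _ h2
  rw [abs_le]
  push_cast at g1 g2
  constructor <;> linarith

end Pool.Agent.Lib.MP_e8d1ff_al
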