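import Mathlib

set_option autoImplicit false

/-! Executable checks with integers. -/

namespace Pool.Agent.Lib.MP_e8d1ff_al

/-- the scale -/
def SS : ℕ := 100000000

/-- packing base -/
def BB : ℕ := 2 ^ 96

/-- offset -/
def OFF : ℕ := 2 ^ 64

/-- approximations of the numbers `10^8 * 2 cos (2 π (j+1) / 63)` -/
def cs : List ℤ := [
  .ofNat 199006155, .ofNat 196034498, .ofNat 191114561, .ofNat 184295242, .ofNat 175644315,
  .ofNat 165247755, .ofNat 153208889, .ofNat 139647364, .ofNat 124697960, .ofNat 108509253,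
  .ofNat 91242131, .ofNat 73068205, .ofNat 54168094, .ofNat 34729636, .ofNat 14946019,
  .negSucc 4986137, .negSucc 24868740, .negSucc 44504186, .negSucc 63697329, .negSucc 82257420,
  .negSucc 99999999, .negSucc 116748733, .negSucc 132337167, .negSucc 146610373, .negSucc 159426500,
  .negSucc 170658175, .negSucc 180193773, .negSucc 187938523, .negSucc 193815456, .negSucc 197766164,
  .negSucc 199751383]

/-- lookup -/
def nthz : List ℤ → ℕ → ℤ
  | [], _ => 0
  | a :: _, 0 => a
  | _ :: l, n + 1 => nthz l n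

/-- lookup in `cs` -/
def cN (j : ℕ) : ℤ := nthz cs j

/-- membership -/
def mem' : ℕ → List ℕ → Bool
  | _, [] => false
  | m, a :: l => Nat.beq m a || mem' m l

/-- power sums -/
def psum (k : ℕ) : List ℕ → ℤ
  | [] => 0
  | a :: l => cN a ^ k + psum k l

/-- entry for the linear coordinates -/
def rU (c1 c2 c : ℤ) : ℤ := c1 * c1 - c2 - 2 * c1 * c + 2 * (c * c) + 22 * (SS * SS)

/-- entry for the constant coordinates -/
def rV (c1 c : ℤ) : ℤ := 2 * SS * (c1 - c)

/-- `- sign` -/
def msgn (g x : ℤ) : ℤ :=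
  match g with
  | .ofNat _ => - x
  | .negSucc _ => x

/-- entry `m` of the row -/
def rowfun (idx : List ℕ) (c1 c2 g : ℤ) (m : ℕ) : ℤ :=
  if m < 31 then (if mem' m idx then msgn g (rU c1 c2 (cN m)) else 0)
  else (if mem' (m - 31) idx then msgn g (rV c1 (cN (m - 31))) else 0)

/-- packing -/
def pk (f : ℕ → ℕ) : ℕ → ℕ → ℕ
  | _, 0 => 0
  | m, n + 1 => f m + BB * pk f (m + 1) n

/-- sum of absolute values of the entries of a row -/
def absum (idx : List ℕ) (c1 c2 : ℤ) : List ℕ → ℕ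
  | [] => 0
  | a :: l => (rU c1 c2 (cN a)).natAbs + absum idx c1 c2 l

/-- data attached to a set -/
structure SD where
  idx : List ℕ
  c1 : ℤ
  c2 : ℤ
  c3 : ℤ
  g : ℤ
  P : ℕ
  T : ℕ

/-- error term -/
def EE : ℕ := 99843727361

/-- the list is strictly increasing with entries less than 31 -/
def incr : ℕ → List ℕ → Bool
  | _, [] => true
  | m, a :: l => Nat.ble m a && Nat.blt a 31 && incr (a + 1) l

/-- row check -/
def rowChk (d : SD) : Bool :=
  incr 0 d.idx && Nat.beq d.idx.length 12 &&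
  decide (psum 1 d.idx = d.c1) && decide (psum 2 d.idx = d.c2) && decide (psum 3 d.idx = d.c3) &&
  decide (d.c1 ^ 3 - 3 * d.c1 * d.c2 + 2 * d.c3 + 66 * (SS * SS) * d.c1 = d.g) &&
  Nat.ble d.c1.natAbs (4 * SS) &&
  Nat.beq (pk (fun m => (rowfun d.idx d.c1 d.c2 d.g m + OFF).toNat) 0 62) d.P &&
  Nat.ble (d.g.natAbs + 3 * SS * EE) (3 * SS * d.T) &&
  Nat.blt (3 * absum d.idx d.c1 d.c2 d.idx + 10 ^ 12) d.g.natAbs

/-- weighted sum -/
def wsum : List ℕ → List ℕ → ℕ
  | a :: l, b :: m => a * b + wsum l m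
  | _, _ => 0

/-- sum -/
def suml : List ℕ → ℕ
  | [] => 0
  | a :: l => a + suml l

/-- residual -/
def resid (N off : ℕ) : List ℤ → ℕ
  | [] => 0
  | t :: l => ((N % BB : ℕ) - (off : ℤ) - t).natAbs + resid (N / BB) off l

/-- scale of the multipliers -/
def LAM : ℕ := 10000

/-- certificate check: `a * TS + b * res ≤ c` -/
def lpChk (Ps Ts : List ℕ) (t : List ℤ) (a b c : ℕ) (lam : List ℕ) : Bool :=
  Nat.blt (2 * OFF * suml lam) BB && Nat.beq t.length 62 && Nat.beq lam.length Ps.length &&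
  Nat.ble (a * wsum lam Ts + b * resid (wsum lam Ps) (OFF * suml lam) t) c

end Pool.Agent.Lib.MP_e8d1ff_al
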