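import Pool.Agent.Lib.MP_e8d1ff_al.Poly
set_option autoImplicit false

namespace Pool.Agent.Lib.MP_e8d1ff_al

open Polynomial

/-- the box -/
def Kb : Set EE31 := Set.Icc (99 / 100 : ℝ) (101 / 100) ×ˢ
  (Set.Icc (fun j : Fin 31 => at' j.val - 8 / 10 ^ 5) (fun j : Fin 31 => at' j.val + 8 / 10 ^ 5) ×ˢ
    Set.Icc (fun _ : Fin 31 => (1 : ℝ) - 8 / 10 ^ 5) (fun _ : Fin 31 => (1 : ℝ) + 8 / 10 ^ 5))

theorem Kb_compact : IsCompact Kb := isCompact_Icc.prod (isCompact_Icc.prod isCompact_Icc)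

theorem mem_Kb (z : EE31) : z ∈ Kb ↔ |z.1 - 1| ≤ 1 / 100 ∧
    (∀ j, |z.2.1 j - at' j.val| ≤ 8 / 10 ^ 5) ∧ (∀ j, |z.2.2 j - 1| ≤ 8 / 10 ^ 5) := by
  unfold Kb
  simp only [Set.mem_prod, Set.mem_Icc, Pi.le_def]
  constructor
  · rintro ⟨⟨a1, a2⟩, ⟨b1, b2⟩, ⟨c1, c2⟩⟩
    refine ⟨?_, fun j => ?_, fun j => ?_⟩
    · rw [abs_le]
      constructor <;> linarith
    · rw [abs_le]
      constructor <;> linarith [b1 j, b2 j]
    · rw [abs_le]
      constructor <;> linarith [c1 j, c2 j]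
  · rintro ⟨a, b, c⟩
    refine ⟨⟨?_, ?_⟩, ⟨fun j => ?_, fun j => ?_⟩, ⟨fun j => ?_, fun j => ?_⟩⟩
    · linarith [(abs_le.mp a).1]
    · linarith [(abs_le.mp a).2]
    · linarith [(abs_le.mp (b j)).1]
    · linarith [(abs_le.mp (b j)).2]
    · linarith [(abs_le.mp (c j)).1]
    · linarith [(abs_le.mp (c j)).2]

theorem Kb_nhds (z : EE31) (h1 : |z.1 - 1| < 1 / 100)
    (h2 : ∀ j, |z.2.1 j - at' j.val| < 8 / 10 ^ 5) (h3 : ∀ j, |z.2.2 j - 1| < 8 / 10 ^ 5) :
    Kb ∈ nhds z := by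
  unfold Kb
  have a : Set.Icc (99 / 100 : ℝ) (101 / 100) ∈ nhds z.1 := by
    rw [abs_lt] at h1
    exact Icc_mem_nhds (by linarith [h1.1]) (by linarith [h1.2])
  have b : Set.Icc (fun j : Fin 31 => at' j.val - 8 / 10 ^ 5)
      (fun j : Fin 31 => at' j.val + 8 / 10 ^ 5) ∈ nhds z.2.1 := by
    apply pi_Icc_mem_nhds
    · intro j
      have := (abs_lt.mp (h2 j)).1
      linarith
    · intro j
      have := (abs_lt.mp (h2 j)).2
      linarith
  have c : Set.Icc (fun _ : Fin 31 => (1 : ℝ) - 8 / 10 ^ 5)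
      (fun _ : Fin 31 => (1 : ℝ) + 8 / 10 ^ 5) ∈ nhds z.2.2 := by
    apply pi_Icc_mem_nhds
    · intro j
      have := (abs_lt.mp (h3 j)).1
      linarith
    · intro j
      have := (abs_lt.mp (h3 j)).2
      linarith
  exact prod_mem_nhds a (prod_mem_nhds b c)

/-- `G3` on parameters -/
noncomputable def Gz (d : SD) (z : EE31) : ℝ := G3 z.2.1 z.2.2 (Rset d.idx)

theorem Gz_continuous (d : SD) : Continuous (Gz d) := by
  unfold Gz G3
  fun_prop

/-- weak sign condition -/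
def WP (d : SD) (z : EE31) : Prop := (0 ≤ d.g → 0 ≤ Gz d z) ∧ (d.g < 0 → Gz d z ≤ 0)

/-- strict sign condition -/
def SP (d : SD) (z : EE31) : Prop := (0 ≤ d.g → 0 < Gz d z) ∧ (d.g < 0 → Gz d z < 0)

theorem SP.wp {d : SD} {z : EE31} (h : SP d z) : WP d z :=
  ⟨fun h0 => (h.1 h0).le, fun h0 => (h.2 h0).le⟩

theorem SP_open (d : SD) : IsOpen {z | SP d z} := by
  unfold SP
  rcases lt_or_ge d.g 0 with h | h
  · have e : {z | (0 ≤ d.g → 0 < Gz d z) ∧ (d.g < 0 → Gz d z < 0)} = {z | Gz d z < 0} := by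
      ext z
      constructor
      · intro hz
        exact hz.2 h
      · intro hz
        exact ⟨fun h0 => absurd h (not_lt.mpr h0), fun _ => hz⟩
    rw [e]
    exact isOpen_lt (Gz_continuous d) continuous_const
  · have e : {z | (0 ≤ d.g → 0 < Gz d z) ∧ (d.g < 0 → Gz d z < 0)} = {z | 0 < Gz d z} := by
      ext z
      constructor
      · intro hz
        exact hz.1 h
      · intro hz
        exact ⟨fun _ => hz, fun h0 => absurd h0 (not_lt.mpr h)⟩
    rw [e]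
    exact isOpen_lt continuous_const (Gz_continuous d)

theorem WP_closed (d : SD) : IsClosed {z | WP d z} := by
  unfold WP
  rcases lt_or_ge d.g 0 with h | h
  · have e : {z | (0 ≤ d.g → 0 ≤ Gz d z) ∧ (d.g < 0 → Gz d z ≤ 0)} = {z | Gz d z ≤ 0} := by
      ext z
      constructor
      · intro hz
        exact hz.2 h
      · intro hz
        exact ⟨fun h0 => absurd h (not_lt.mpr h0), fun _ => hz⟩
    rw [e]
    exact isClosed_le (Gz_continuous d) continuous_const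
  · have e : {z | (0 ≤ d.g → 0 ≤ Gz d z) ∧ (d.g < 0 → Gz d z ≤ 0)} = {z | 0 ≤ Gz d z} := by
      ext z
      constructor
      · intro hz
        exact hz.1 h
      · intro hz
        exact ⟨fun _ => hz, fun h0 => absurd h0 (not_lt.mpr h)⟩
    rw [e]
    exact isClosed_le continuous_const (Gz_continuous d)

theorem WP.nc {z : EE31} (h : ∀ d ∈ sets, WP d z) :
    NoCross (fun j => z.2.1 j - at' j.val) (fun j => z.2.2 j - 1) := by
  intro d hd
  have e1 : (fun j : Fin 31 => at' j.val + (z.2.1 j - at' j.val)) = z.2.1 := by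
    funext j
    ring
  have e2 : (fun j : Fin 31 => 1 + (z.2.2 j - 1)) = z.2.2 := by
    funext j
    ring
  rw [e1, e2]
  exact h d hd

/-- the good condition -/
def Good (p : ℝ[X]) (s : ℝ) : Prop := ∃ z ∈ Kb, phi z = wv p s ∧ ∀ d ∈ sets, SP d z

theorem at_sq_lt (j : Fin 31) : |at' j.val| ≤ 19976 / 10 ^ 4 := by
  have h : ∀ j : Fin 31, |cN j.val| ≤ 199760000 := by decide +kernel
  unfold at'
  rw [abs_div, abs_of_pos (by norm_num : (0 : ℝ) < 10 ^ 8), div_le_iff₀ (by norm_num)]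
  have h2 : ((|cN j.val| : ℤ) : ℝ) ≤ ((199760000 : ℤ) : ℝ) := by exact_mod_cast h j
  push_cast at h2
  refine h2.trans (by norm_num)

theorem at_ge (j : Fin 31) : 498 / 10 ^ 4 ≤ |at' j.val| := by
  have h : ∀ j : Fin 31, 4980000 ≤ |cN j.val| := by decide +kernel
  unfold at'
  rw [abs_div, abs_of_pos (by norm_num : (0 : ℝ) < 10 ^ 8), le_div_iff₀ (by norm_num)]
  have h2 : ((4980000 : ℤ) : ℝ) ≤ ((|cN j.val| : ℤ) : ℝ) := by exact_mod_cast h j
  push_cast at h2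
  refine le_trans (by norm_num) h2

theorem gaps' : ∀ i j : Fin 31, i ≠ j → 1980000 ≤ |cN j.val - cN i.val| := by decide +kernel

theorem at_gap' (i j : Fin 31) (h : i ≠ j) : 198 / 10 ^ 4 ≤ |at' j.val - at' i.val| := by
  have h1 := gaps' i j h
  unfold at'
  rw [← sub_div, abs_div, abs_of_pos (by norm_num : (0 : ℝ) < 10 ^ 8), le_div_iff₀ (by norm_num)]
  have h2 : ((1980000 : ℤ) : ℝ) ≤ ((|cN j.val - cN i.val| : ℤ) : ℝ) := by exact_mod_cast h1
  push_cast at h2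
  refine le_trans (by norm_num) h2

theorem Kb_open_map (z : EE31) (hz : z ∈ Kb) : Filter.map phi (nhds z) = nhds (phi z) := by
  obtain ⟨_, h2, h3⟩ := (mem_Kb z).mp hz
  apply phi_open
  · intro j k hjk he
    have hg := at_gap' j k hjk
    have a := h2 j
    have b := h2 k
    have e : at' k.val - at' j.val = (z.2.1 j - at' j.val) - (z.2.1 k - at' k.val) := by
      rw [he]
      ring
    rw [e] at hg
    have := abs_sub (z.2.1 j - at' j.val) (z.2.1 k - at' k.val)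
    norm_num at hg a b this
    linarith
  · intro j
    have a := at_sq_lt j
    have b := h2 j
    have c := (abs_le.mp (h3 j)).1
    have e : |z.2.1 j| ≤ 19977 / 10 ^ 4 := by
      have e1 : z.2.1 j = (z.2.1 j - at' j.val) + at' j.val := by ring
      rw [e1]
      refine (abs_add_le _ _).trans ?_
      norm_num at a b ⊢
      linarith
    have e2 : z.2.1 j ^ 2 ≤ (19977 / 10 ^ 4) ^ 2 := by
      rw [← sq_abs]
      exact pow_le_pow_left₀ (abs_nonneg _) e 2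
    norm_num at e2 c
    linarith

/-- openness at an interior point -/
theorem good_nhds (p : ℝ[X]) (hd : p.natDegree = 63) (hp : p.Monic) (s : ℝ) (z : EE31)
    (h1 : |z.1 - 1| < 1 / 100)
    (h2 : ∀ j, |z.2.1 j - at' j.val| < 8 / 10 ^ 5) (h3 : ∀ j, |z.2.2 j - 1| < 8 / 10 ^ 5)
    (hphi : phi z = wv p s) (hS : ∀ d ∈ sets, SP d z) : ∀ᶠ t in nhds s, Good p t := by
  have hK := Kb_nhds z h1 h2 h3
  have hzK : z ∈ Kb := mem_of_mem_nhds hK
  have hSP : {z | ∀ d ∈ sets, SP d z} ∈ nhds z := by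
    have : ∀ᶠ y in nhds z, ∀ d ∈ {d | d ∈ sets}, SP d y := by
      rw [Filter.eventually_all_finite (List.finite_toSet sets)]
      intro d hd
      exact (SP_open d).mem_nhds (hS d hd)
    exact this
  have hN : Kb ∩ {z | ∀ d ∈ sets, SP d z} ∈ nhds z := Filter.inter_mem hK hSP
  have him : phi '' (Kb ∩ {z | ∀ d ∈ sets, SP d z}) ∈ nhds (phi z) := by
    rw [← Kb_open_map z hzK]
    exact Filter.image_mem_map hN
  rw [hphi] at him
  have hc := (wv_continuous p hp hd).continuousAt (x := s) him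
  filter_upwards [hc] with t ht
  obtain ⟨y, ⟨hy1, hy2⟩, hy3⟩ := ht
  exact ⟨y, hy1, hy3, hy2⟩

section
variable (p : ℝ[X]) (hp : p.Monic) (hd : p.natDegree = 63)
include hp hd

theorem facts_of_phi (z : EE31) (s : ℝ) (h : phi z = wv p s) :
    z.1 + ∑ j, z.2.1 j = (- p.coeff 62) * s ∧
    z.1 * ∑ j, z.2.1 j + (((∑ j, z.2.1 j) ^ 2 - ∑ j, z.2.1 j ^ 2) / 2 + ∑ j, z.2.2 j)
      = p.coeff 61 * s ^ 2 ∧ z.1 * ∏ j, z.2.2 j = 1 := by
  have hD := (DD_eq_iff p hp hd z s).mpr h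
  have h1 := DD_coeff62 z.1 z.2.1 z.2.2
  have h2 := DD_coeff61 z.1 z.2.1 z.2.2
  have h3 := DD_eval_zero z.1 z.2.1 z.2.2
  rw [hD, Wp_coeff p hp hd s 62 (by norm_num)] at h1
  rw [hD, Wp_coeff p hp hd s 61 (by norm_num)] at h2
  rw [hD, Wp_eval_zero p hp hd s] at h3
  norm_num at h1 h2 h3
  refine ⟨by linarith, by linarith, by linarith⟩

theorem improve (s : ℝ) (z : EE31) (hz : z ∈ Kb) (hphi : phi z = wv p s)
    (hw : ∀ d ∈ sets, WP d z) (hg : Good p (s / 2)) :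
    |z.1 - 1| < 1 / 100 ∧ (∀ j, |z.2.1 j - at' j.val| < 8 / 10 ^ 5) ∧
      (∀ j, |z.2.2 j - 1| < 8 / 10 ^ 5) := by
  obtain ⟨z', hz', hphi', hs'⟩ := hg
  obtain ⟨a1, a2, a3⟩ := (mem_Kb z).mp hz
  obtain ⟨b1, b2, b3⟩ := (mem_Kb z').mp hz'
  obtain ⟨f1, f2, f3⟩ := facts_of_phi p hp hd z s hphi
  obtain ⟨g1, g2, g3⟩ := facts_of_phi p hp hd z' (s / 2) hphi'
  obtain ⟨k1, k2, k3⟩ := two_times z.1 z.2.1 z.2.2 a1 a2 a3 (WP.nc hw) f3 z'.1 z'.2.1 z'.2.2
    b1 b2 b3 (WP.nc fun d hd => (hs' d hd).wp) g3 (- p.coeff 62) (p.coeff 61) s f1 f2 g1 g2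
  refine ⟨?_, fun j => ?_, fun j => ?_⟩
  · exact lt_of_le_of_lt k3 (by norm_num)
  · exact lt_of_le_of_lt (k1 j) (by norm_num)
  · exact lt_of_le_of_lt (k2 j) (by norm_num)

/-- no crossing at positive times -/
def NoCr : Prop := ∀ s : ℝ, 0 < s → ∀ z ∈ Kb, phi z = wv p s → ∀ d ∈ sets, Gz d z ≠ 0

omit hp hd in
theorem WP.sp {d : SD} {z : EE31} (h : WP d z) (h0 : Gz d z ≠ 0) : SP d z :=
  ⟨fun h1 => lt_of_le_of_ne (h.1 h1) h0.symm, fun h1 => lt_of_le_of_ne (h.2 h1) h0⟩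

theorem good_closed (b : ℝ) (hnc : NoCr p) (h0 : Good p 0) :
    IsClosed {s | s ∈ Set.Icc 0 b ∧ Good p s} := by
  have hcl : IsClosed {x : ℝ × EE31 | phi x.2 = wv p x.1 ∧ ∀ d ∈ sets, WP d x.2} := by
    apply IsClosed.inter
    · exact isClosed_eq (phi_continuous.comp continuous_snd)
        ((wv_continuous p hp hd).comp continuous_fst)
    · have : {x : ℝ × EE31 | ∀ d ∈ sets, WP d x.2} = ⋂ d ∈ sets, {x : ℝ × EE31 | WP d x.2} := by
        ext x
        simp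
      show IsClosed {x : ℝ × EE31 | ∀ d ∈ sets, WP d x.2}
      rw [this]
      refine isClosed_iInter fun d => isClosed_iInter fun _ => ?_
      exact (WP_closed d).preimage continuous_snd
  have hcpt : IsCompact ((Set.Icc (0 : ℝ) b ×ˢ Kb) ∩
      {x : ℝ × EE31 | phi x.2 = wv p x.1 ∧ ∀ d ∈ sets, WP d x.2}) :=
    (isCompact_Icc.prod Kb_compact).inter_right hcl
  have himg := hcpt.image continuous_fst
  have e : {s | s ∈ Set.Icc 0 b ∧ Good p s} = Prod.fst '' ((Set.Icc (0 : ℝ) b ×ˢ Kb) ∩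
      {x : ℝ × EE31 | phi x.2 = wv p x.1 ∧ ∀ d ∈ sets, WP d x.2}) := by
    ext s
    constructor
    · rintro ⟨hs, z, hz, hphi, hS⟩
      exact ⟨(s, z), ⟨⟨hs, hz⟩, hphi, fun d hd => (hS d hd).wp⟩, rfl⟩
    · rintro ⟨⟨s', z⟩, ⟨⟨hs, hz⟩, hphi, hW⟩, rfl⟩
      refine ⟨hs, ?_⟩
      simp only at hs hz hphi hW ⊢
      rcases eq_or_lt_of_le hs.1 with h | h
      · rw [← h]
        exact h0
      · exact ⟨z, hz, hphi, fun d hd => (hW d hd).sp (hnc s' h z hz hphi d hd)⟩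
  rw [e]
  exact himg.isClosed

theorem good_all (hnc : NoCr p) (h0 : Good p 0) (b : ℝ) (hb : 0 ≤ b) : Good p b := by
  by_contra hcon
  set B : Set ℝ := {s | 0 ≤ s ∧ ¬ Good p s} with hB
  have hBne : B.Nonempty := ⟨b, hb, hcon⟩
  have hBb : BddBelow B := ⟨0, fun s hs => hs.1⟩
  set T := sInf B with hT
  have hT0 : 0 ≤ T := le_csInf hBne fun s hs => hs.1
  have hlt : ∀ s, 0 ≤ s → s < T → Good p s := by
    intro s hs hsT
    by_contra h
    exact absurd (csInf_le hBb ⟨hs, h⟩) (not_le.mpr hsT)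
  have hGT : Good p T := by
    rcases eq_or_lt_of_le hT0 with h | h
    · rw [← h]
      exact h0
    · have hcl := good_closed p hp hd T hnc h0
      have : T ∈ closure {s | s ∈ Set.Icc 0 T ∧ Good p s} := by
        have h1 : Set.Ico 0 T ⊆ {s | s ∈ Set.Icc 0 T ∧ Good p s} := fun s hs =>
          ⟨⟨hs.1, hs.2.le⟩, hlt s hs.1 hs.2⟩
        have h2 := closure_mono h1
        rw [closure_Ico h.ne] at h2
        exact h2 ⟨hT0, le_rfl⟩
      rw [hcl.closure_eq] at this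
      exact this.2
  have hG2 : Good p (T / 2) := by
    rcases eq_or_lt_of_le hT0 with h | h
    · rw [← h]
      simpa using h0
    · exact hlt _ (by linarith) (by linarith)
  obtain ⟨z, hz, hphi, hS⟩ := hGT
  obtain ⟨k1, k2, k3⟩ := improve p hp hd T z hz hphi (fun d hd => (hS d hd).wp) hG2
  have hev := good_nhds p hd hp T z k1 k2 k3 hphi hS
  obtain ⟨δ, hδ, hball⟩ := Metric.eventually_nhds_iff.mp hev
  obtain ⟨s, hs, hsT⟩ := exists_lt_of_csInf_lt hBne (show sInf B < T + δ by linarith)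
  have hTs : T ≤ s := csInf_le hBb hs
  apply hs.2
  apply hball
  rw [Real.dist_eq, abs_lt]
  constructor <;> linarith

end

end Pool.Agent.Lib.MP_e8d1ff_al
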