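import Pool.Agent.Lib.MP_e8d1ff_al.Factor
import Pool.Agent.Lib.MP_e8d1ff_al.Base
set_option autoImplicit false

namespace Pool.Agent.Lib.MP_e8d1ff_al

open Polynomial

/-- parameter space -/
abbrev EE31 : Type := ℝ × (Fin 31 → ℝ) × (Fin 31 → ℝ)

/-- values at the points `0, …, 62` -/
noncomputable def phi (z : EE31) : Fin 63 → ℝ := fun i =>
  ((i.val : ℝ) - z.1) * ∏ j, ((i.val : ℝ) ^ 2 - z.2.1 j * (i.val : ℝ) + z.2.2 j)

theorem phi_eval (z : EE31) (i : Fin 63) : phi z i = (DD z.1 z.2.1 z.2.2).eval (i.val : ℝ) := by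
  unfold phi DD qd
  simp [eval_prod]

theorem phi_contDiff : ContDiff ℝ 1 phi := by
  unfold phi
  rw [contDiff_pi]
  intro i
  apply ContDiff.mul
  · fun_prop
  · apply contDiff_prod
    intro j _
    fun_prop

theorem phi_continuous : Continuous phi := phi_contDiff.continuous

theorem phi_fderiv (z w : EE31) (i : Fin 63) :
    (fderiv ℝ phi z w) i = - w.1 * (∏ j, ((i.val : ℝ) ^ 2 - z.2.1 j * (i.val : ℝ) + z.2.2 j))
      + ((i.val : ℝ) - z.1) * ∑ j, (∏ k ∈ Finset.univ.erase j,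
        ((i.val : ℝ) ^ 2 - z.2.1 k * (i.val : ℝ) + z.2.2 k)) * (- w.2.1 j * (i.val : ℝ) + w.2.2 j) := by
  have h1 : HasFDerivAt phi (fderiv ℝ phi z) z :=
    (phi_contDiff.differentiable (by norm_num) z).hasFDerivAt
  have h2 : HasDerivAt (fun t : ℝ => z + t • w) w 0 := by
    have := ((hasDerivAt_id (0 : ℝ)).smul_const w).const_add z
    simpa using this
  have h1' : HasFDerivAt phi (fderiv ℝ phi z) (z + (0 : ℝ) • w) := by simpa using h1
  have h3 := h1'.comp_hasDerivAt (0 : ℝ) h2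
  have h4 : HasDerivAt (fun t : ℝ => phi (z + t • w) i) ((fderiv ℝ phi z w) i) 0 :=
    (hasDerivAt_pi.mp h3) i
  have h5 : HasDerivAt (fun t : ℝ => ((i.val : ℝ) - (z.1 + t * w.1)) *
      ∏ j, ((i.val : ℝ) ^ 2 - (z.2.1 j + t * w.2.1 j) * (i.val : ℝ) + (z.2.2 j + t * w.2.2 j)))
      (- w.1 * (∏ j, ((i.val : ℝ) ^ 2 - z.2.1 j * (i.val : ℝ) + z.2.2 j))
      + ((i.val : ℝ) - z.1) * ∑ j, (∏ k ∈ Finset.univ.erase j,
        ((i.val : ℝ) ^ 2 - z.2.1 k * (i.val : ℝ) + z.2.2 k)) * (- w.2.1 j * (i.val : ℝ) + w.2.2 j))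
      0 := by
    have g1 : HasDerivAt (fun t : ℝ => (i.val : ℝ) - (z.1 + t * w.1)) (- w.1) 0 := by
      have := ((hasDerivAt_id (0 : ℝ)).mul_const w.1).const_add z.1
      have := this.const_sub (i.val : ℝ)
      simpa using this
    have g2 : ∀ j : Fin 31, HasDerivAt (fun t : ℝ => (i.val : ℝ) ^ 2
        - (z.2.1 j + t * w.2.1 j) * (i.val : ℝ) + (z.2.2 j + t * w.2.2 j))
        (- w.2.1 j * (i.val : ℝ) + w.2.2 j) 0 := by
      intro j
      have a1 := ((hasDerivAt_id (0 : ℝ)).mul_const (w.2.1 j)).const_add (z.2.1 j)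
      have a2 := (a1.mul_const (i.val : ℝ)).const_sub ((i.val : ℝ) ^ 2)
      have a3 := ((hasDerivAt_id (0 : ℝ)).mul_const (w.2.2 j)).const_add (z.2.2 j)
      have a4 := a2.fun_add a3
      simpa using a4
    have g3 := HasDerivAt.fun_finsetProd (u := Finset.univ) (fun j _ => g2 j)
    have g4 := g1.fun_mul g3
    simpa using g4
  have h6 : (fun t : ℝ => phi (z + t • w) i) = (fun t : ℝ => ((i.val : ℝ) - (z.1 + t * w.1)) *
      ∏ j, ((i.val : ℝ) ^ 2 - (z.2.1 j + t * w.2.1 j) * (i.val : ℝ) + (z.2.2 j + t * w.2.2 j))) := by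
    funext t
    simp [phi]
  rw [h6] at h4
  exact h4.unique h5

/-- the polynomial of the derivative -/
noncomputable def Qp (z w : EE31) : ℝ[X] :=
  - C w.1 * (∏ j, qd (z.2.1 j) (z.2.2 j))
    + (X - C z.1) * ∑ j, (∏ k ∈ Finset.univ.erase j, qd (z.2.1 k) (z.2.2 k))
      * (C (- w.2.1 j) * X + C (w.2.2 j))

theorem Qp_eval (z w : EE31) (i : Fin 63) : (Qp z w).eval (i.val : ℝ) = (fderiv ℝ phi z w) i := by
  rw [phi_fderiv]
  simp only [Qp, qd, eval_add, eval_mul, eval_neg, eval_C, eval_prod, eval_sub, eval_X, eval_pow,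
    eval_finsetSum]

theorem Qp_natDegree (z w : EE31) : (Qp z w).natDegree ≤ 62 := by
  unfold Qp
  apply natDegree_add_le_of_degree_le
  · refine natDegree_mul_le.trans ?_
    rw [natDegree_neg, natDegree_C, prod_qd_natDegree]
    simp
  · refine natDegree_mul_le.trans ?_
    have h1 : (∑ j, (∏ k ∈ Finset.univ.erase j, qd (z.2.1 k) (z.2.2 k))
      * (C (- w.2.1 j) * X + C (w.2.2 j))).natDegree ≤ 61 := by
      apply natDegree_sum_le_of_forall_le
      intro j _
      refine natDegree_mul_le.trans ?_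
      rw [prod_qd_natDegree, Finset.card_erase_of_mem (Finset.mem_univ j)]
      have : (C (- w.2.1 j) * X + C (w.2.2 j)).natDegree ≤ 1 := natDegree_linear_le
      simp only [Finset.card_univ, Fintype.card_fin]
      omega
    rw [natDegree_X_sub_C]
    omega

theorem exists_root (a b : ℝ) (h : a ^ 2 < 4 * b) :
    ∃ x : ℂ, x.im ≠ 0 ∧ x ^ 2 - a * x + b = 0 := by
  refine ⟨⟨a / 2, Real.sqrt (4 * b - a ^ 2) / 2⟩, ?_, ?_⟩
  · have : 0 < Real.sqrt (4 * b - a ^ 2) := Real.sqrt_pos.mpr (by linarith)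
    simp only
    positivity
  · have hs : Real.sqrt (4 * b - a ^ 2) * Real.sqrt (4 * b - a ^ 2) = 4 * b - a ^ 2 :=
      Real.mul_self_sqrt (by linarith)
    rw [pow_two] at hs
    apply Complex.ext
    · simp [pow_two]
      linear_combination (-1 / 4) * hs
    · simp [pow_two]
      ring

theorem phi_fderiv_inj (z : EE31) (hd : ∀ j k : Fin 31, j ≠ k → z.2.1 j ≠ z.2.1 k)
    (hdisc : ∀ j, z.2.1 j ^ 2 < 4 * z.2.2 j) (w : EE31) (hw : fderiv ℝ phi z w = 0) : w = 0 := by
  have hQ : Qp z w = 0 := by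
    apply Polynomial.eq_zero_of_degree_lt_of_eval_index_eq_zero (s := (Finset.univ : Finset (Fin 63)))
      (v := fun i : Fin 63 => (i.val : ℝ))
    · intro i _ j _ h
      have : (i.val : ℝ) = (j.val : ℝ) := h
      exact Fin.ext (by exact_mod_cast this)
    · refine lt_of_le_of_lt degree_le_natDegree ?_
      have := Qp_natDegree z w
      simp only [Finset.card_univ, Fintype.card_fin]
      exact_mod_cast lt_of_le_of_lt this (by norm_num)
    · intro i _
      rw [Qp_eval, hw]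
      rfl
  have hQa : ∀ x : ℂ, - (w.1 : ℂ) * (∏ j, (x ^ 2 - z.2.1 j * x + z.2.2 j))
      + (x - z.1) * ∑ j, (∏ k ∈ Finset.univ.erase j, (x ^ 2 - z.2.1 k * x + z.2.2 k))
      * (- (w.2.1 j : ℂ) * x + w.2.2 j) = 0 := by
    intro x
    have h := congrArg (fun p => aeval x p) hQ
    simp only [Qp, qd, map_add, map_mul, map_neg, map_prod, map_sub, map_pow, map_sum, aeval_X,
      aeval_C, map_zero, Complex.coe_algebraMap] at h
    exact h
  have huv : ∀ j, w.2.1 j = 0 ∧ w.2.2 j = 0 := by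
    intro j
    obtain ⟨x, him, hx⟩ := exists_root _ _ (hdisc j)
    have h := hQa x
    have hp : ∏ j, (x ^ 2 - (z.2.1 j : ℂ) * x + z.2.2 j) = 0 :=
      Finset.prod_eq_zero (Finset.mem_univ j) hx
    have hs : ∑ j, (∏ k ∈ Finset.univ.erase j, (x ^ 2 - (z.2.1 k : ℂ) * x + z.2.2 k))
        * (- (w.2.1 j : ℂ) * x + w.2.2 j)
        = (∏ k ∈ Finset.univ.erase j, (x ^ 2 - (z.2.1 k : ℂ) * x + z.2.2 k))
        * (- (w.2.1 j : ℂ) * x + w.2.2 j) := by
      apply Finset.sum_eq_single j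
      · intro k _ hk
        rw [Finset.prod_eq_zero (Finset.mem_erase.mpr ⟨hk.symm, Finset.mem_univ j⟩) hx, zero_mul]
      · intro h
        exact absurd (Finset.mem_univ j) h
    rw [hp, hs, mul_zero, zero_add] at h
    have h1 : x - z.1 ≠ 0 := by
      intro h0
      apply him
      have := congrArg Complex.im h0
      simpa using this
    have h2 : ∏ k ∈ Finset.univ.erase j, (x ^ 2 - (z.2.1 k : ℂ) * x + z.2.2 k) ≠ 0 := by
      rw [Finset.prod_ne_zero_iff]
      intro k hk h0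
      have hkj := Finset.ne_of_mem_erase hk
      have h3 : ((z.2.1 j - z.2.1 k : ℝ) : ℂ) * x + ((z.2.2 k - z.2.2 j : ℝ) : ℂ) = 0 := by
        push_cast
        linear_combination h0 - hx
      have h4 := congrArg Complex.im h3
      simp at h4
      rcases h4 with h4 | h4
      · exact hd k j hkj (sub_eq_zero.mp h4).symm
      · exact him h4
    have h3 : - (w.2.1 j : ℂ) * x + w.2.2 j = 0 := by
      rcases mul_eq_zero.mp h with h | h
      · exact absurd h h1
      · rcases mul_eq_zero.mp h with h | h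
        · exact absurd h h2
        · exact h
    have h4 := congrArg Complex.im h3
    simp at h4
    have h5 : w.2.1 j = 0 := by
      rcases h4 with h4 | h4
      · exact h4
      · exact absurd h4 him
    refine ⟨h5, ?_⟩
    rw [h5] at h3
    simpa using h3
  have hw1 : w.1 = 0 := by
    have h := hQa ((z.1 : ℂ))
    rw [sub_self, zero_mul, add_zero] at h
    rcases mul_eq_zero.mp h with h | h
    · simpa using h
    · exfalso
      rw [Finset.prod_eq_zero_iff] at h
      obtain ⟨j, _, hj⟩ := h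
      have h1 : z.1 ^ 2 - z.2.1 j * z.1 + z.2.2 j = 0 := by exact_mod_cast hj
      have h2 := hdisc j
      nlinarith [sq_nonneg (2 * z.1 - z.2.1 j)]
  apply Prod.ext
  · exact hw1
  · apply Prod.ext
    · funext j
      exact (huv j).1
    · funext j
      exact (huv j).2

theorem phi_fderiv_surj (z : EE31) (hd : ∀ j k : Fin 31, j ≠ k → z.2.1 j ≠ z.2.1 k)
    (hdisc : ∀ j, z.2.1 j ^ 2 < 4 * z.2.2 j) :
    LinearMap.range (fderiv ℝ phi z : EE31 →ₗ[ℝ] (Fin 63 → ℝ)) = ⊤ := by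
  rw [LinearMap.range_eq_top]
  have hfin : Module.finrank ℝ EE31 = Module.finrank ℝ (Fin 63 → ℝ) := by
    simp [EE31, Module.finrank_prod]
  rw [← LinearMap.injective_iff_surjective_of_finrank_eq_finrank hfin]
  rw [injective_iff_map_eq_zero]
  intro w hw
  exact phi_fderiv_inj z hd hdisc w hw

theorem phi_open (z : EE31) (hd : ∀ j k : Fin 31, j ≠ k → z.2.1 j ≠ z.2.1 k)
    (hdisc : ∀ j, z.2.1 j ^ 2 < 4 * z.2.2 j) :
    Filter.map phi (nhds z) = nhds (phi z) := by
  have h : HasStrictFDerivAt phi (fderiv ℝ phi z) z :=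
    (phi_contDiff.contDiffAt).hasStrictFDerivAt (by norm_num)
  exact h.map_nhds_eq_of_surj (phi_fderiv_surj z hd hdisc)

end Pool.Agent.Lib.MP_e8d1ff_al
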