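import Mathlib

set_option autoImplicit false

namespace Pool.Agent.Lib.MP_e8d1ff_al

open Polynomial Matrix

/-- If the vector `χ 0, …, χ (n-1)` of polynomials satisfies the row recursion of the matrix `A`,
`χ 0 = 1` and `χ (n+1)` is monic of degree `n+1`, then it is the characteristic polynomial. -/
theorem charpoly_of_rows {n : ℕ} (A : Matrix (Fin (n+1)) (Fin (n+1)) ℝ) (χ : ℕ → ℝ[X])
    (h0 : χ 0 = 1) (hm : (χ (n+1)).Monic) (hd : (χ (n+1)).natDegree = n+1)
    (hrow : ∀ i : Fin (n+1), i.val < n →
      X * χ i.val - ∑ j : Fin (n+1), C (A i j) * χ j.val = 0)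
    (hlast : X * χ n - ∑ j : Fin (n+1), C (A (Fin.last n) j) * χ j.val = χ (n+1)) :
    A.charpoly = χ (n+1) := by
  classical
  set v : Fin (n+1) → ℝ[X] := fun j => χ j.val with hv
  have hmul : A.charmatrix *ᵥ v = Pi.single (Fin.last n) (χ (n+1)) := by
    funext i
    have hcm : (A.charmatrix *ᵥ v) i = X * χ i.val - ∑ j : Fin (n+1), C (A i j) * χ j.val := by
      simp only [Matrix.mulVec, dotProduct, Matrix.charmatrix_apply, hv, sub_mul,
        Finset.sum_sub_distrib]
      congr 1
      simp [Matrix.diagonal_apply, ite_mul]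
    rw [hcm]
    rcases lt_or_ge i.val n with hi | hi
    · rw [hrow i hi]
      have : i ≠ Fin.last n := by
        intro h
        rw [h] at hi
        simp at hi
      simp [this]
    · have : i = Fin.last n := by
        apply Fin.ext
        simp
        omega
      subst this
      simp only [Fin.val_last, Pi.single_eq_same]
      exact hlast
  have hadj : A.charmatrix.adjugate *ᵥ (A.charmatrix *ᵥ v) = A.charpoly • v := by
    rw [Matrix.mulVec_mulVec, Matrix.adjugate_mul, Matrix.smul_mulVec, Matrix.one_mulVec]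
    rfl
  have h1 : A.charpoly = A.charmatrix.adjugate 0 (Fin.last n) * χ (n+1) := by
    have := congrFun hadj 0
    rw [hmul] at this
    simp [Matrix.mulVec, dotProduct, hv, h0, Pi.single_apply] at this
    exact this.symm
  have hdvd : χ (n+1) ∣ A.charpoly := ⟨_, by rw [mul_comm]; exact h1⟩
  apply Polynomial.eq_of_monic_of_dvd_of_natDegree_le hm (Matrix.charpoly_monic A) hdvd
  rw [Matrix.charpoly_natDegree_eq_dim, hd]
  simp

end Pool.Agent.Lib.MP_e8d1ff_al
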