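import Pool.Agent.Lib.MP_e8d1ff_al.ArcChk
import Pool.Agent.Lib.MP_e8d1ff_al.Base

set_option autoImplicit false
set_option maxRecDepth 100000

namespace Pool.Agent.Lib.MP_e8d1ff_al

theorem arcs_ok : sets.all (fun d => arcChk' d.idx) = true := by decide +kernel

theorem arc0_ok : arcChk' idx0 = true := by decide +kernel

end Pool.Agent.Lib.MP_e8d1ff_al
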