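import Pool.Agent.Lib.MP_e8d1ff_al.Chk
set_option autoImplicit false

namespace Pool.Agent.Lib.MP_e8d1ff_al

theorem pk_zero (k n : ℕ) : pk (fun _ => 0) k n = 0 := by
  induction n generalizing k with
  | zero => rfl
  | succ n ih => simp [pk, ih]

theorem pk_comb (a : ℕ) (f g : ℕ → ℕ) (k n : ℕ) :
    pk (fun m => a * f m + g m) k n = a * pk f k n + pk g k n := by
  induction n generalizing k with
  | zero => simp [pk]
  | succ n ih => simp only [pk, ih]; ring

theorem wsum_pk (lam : List ℕ) (rows : List (ℕ → ℕ)) (k n : ℕ) :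
    wsum lam (rows.map fun e => pk e k n)
      = pk (fun m => wsum lam (rows.map fun e => e m)) k n := by
  induction lam generalizing rows with
  | nil => simp [wsum, pk_zero]
  | cons a l ih =>
    cases rows with
    | nil => simp [wsum, pk_zero]
    | cons e rows => simp only [List.map_cons, wsum, ih, pk_comb]

theorem resid_eq (ts : List ℤ) (e : ℕ → ℕ) (he : ∀ m, e m < BB) (k off : ℕ) :
    resid (pk e k ts.length) off ts
      = ∑ i ∈ Finset.range ts.length, ((e (k + i) : ℤ) - off - ts.getD i 0).natAbs := by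
  induction ts generalizing k with
  | nil => simp [resid]
  | cons t l ih =>
    have h1 : (e k + BB * pk e (k + 1) l.length) % BB = e k := by
      rw [Nat.add_mul_mod_self_left, Nat.mod_eq_of_lt (he k)]
    have h2 : (e k + BB * pk e (k + 1) l.length) / BB = pk e (k + 1) l.length := by
      rw [Nat.add_mul_div_left _ _ (by norm_num [BB]), Nat.div_eq_of_lt (he k), zero_add]
    rw [List.length_cons, Finset.sum_range_succ']
    simp only [resid, pk, h1, h2, ih]
    rw [add_comm]
    congr 1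
    refine Finset.sum_congr rfl fun i _ => ?_
    simp only [List.getD_cons_succ]
    rw [show k + (i + 1) = k + 1 + i by omega]

/-- shifted entry -/
def tn (f : ℕ → ℤ) (m : ℕ) : ℕ := (f m + (OFF : ℤ)).toNat

theorem wsum_real (lam : List ℕ) (rows : List (ℕ → ℤ)) (hl : lam.length = rows.length)
    (hoff : ∀ f ∈ rows, ∀ m, |f m| < OFF) (m : ℕ) :
    (wsum lam (rows.map fun f => tn f m) : ℝ) - (OFF * suml lam : ℕ)
      = (List.zipWith (fun (a : ℕ) (f : ℕ → ℤ) => (a : ℝ) * (f m : ℝ)) lam rows).sum := by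
  induction lam generalizing rows with
  | nil => simp [wsum, suml]
  | cons a l ih =>
    cases rows with
    | nil => simp at hl
    | cons f rows =>
      have hl' : l.length = rows.length := by simpa using hl
      have ih' := ih rows hl' fun f hf => hoff f (by simp [hf])
      have h1 : |f m| < OFF := hoff f (by simp) m
      have h2 : ((tn f m : ℕ) : ℤ) = f m + OFF := by
        unfold tn
        apply Int.toNat_of_nonneg
        rw [abs_lt] at h1
        omega
      have h3 : ((tn f m : ℕ) : ℝ) = f m + (OFF : ℕ) := by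
        exact_mod_cast h2
      simp only [List.map_cons, wsum, suml, List.zipWith_cons_cons, List.sum_cons]
      rw [← ih']
      push_cast
      rw [h3]
      ring

theorem wsum_le (lam : List ℕ) (rows : List (ℕ → ℤ)) (Ts : List ℕ) (z : ℕ → ℝ) (n : ℕ)
    (hrow : List.Forall₂ (fun (f : ℕ → ℤ) (T : ℕ) =>
      ∑ m ∈ Finset.range n, ((f m : ℤ) : ℝ) * z m ≤ (T : ℕ)) rows Ts) :
    ∑ m ∈ Finset.range n,
      (List.zipWith (fun (a : ℕ) (f : ℕ → ℤ) => (a : ℝ) * (f m : ℝ)) lam rows).sum * z m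
      ≤ (wsum lam Ts : ℕ) := by
  induction lam generalizing rows Ts with
  | nil => simp [wsum]
  | cons a l ih =>
    cases hrow with
    | nil => simp [wsum]
    | @cons f T rows Ts h0 h =>
      have ih' := ih rows Ts h
      simp only [List.zipWith_cons_cons, List.sum_cons, wsum, add_mul, Finset.sum_add_distrib]
      push_cast
      have h1 : ∑ m ∈ Finset.range n, (a : ℝ) * (f m : ℝ) * z m
          = a * ∑ m ∈ Finset.range n, (f m : ℝ) * z m := by
        rw [Finset.mul_sum]
        exact Finset.sum_congr rfl fun m _ => by ring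
      rw [h1]
      have h2 : (a : ℝ) * ∑ m ∈ Finset.range n, (f m : ℝ) * z m ≤ a * T :=
        mul_le_mul_of_nonneg_left h0 (by positivity)
      linarith

theorem wsum_lt (lam : List ℕ) (rows : List (ℕ → ℤ)) (hoff : ∀ f ∈ rows, ∀ m, |f m| < OFF)
    (m : ℕ) : wsum lam (rows.map fun f => tn f m) ≤ 2 * OFF * suml lam := by
  induction lam generalizing rows with
  | nil => simp [wsum]
  | cons a l ih =>
    cases rows with
    | nil => simp [wsum]
    | cons f rows =>
      have ih' := ih rows fun f hf => hoff f (by simp [hf])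
      have h1 : |f m| < OFF := hoff f (by simp) m
      have h2 : tn f m ≤ 2 * OFF := by
        unfold tn
        rw [abs_lt] at h1
        omega
      simp only [List.map_cons, wsum, suml]
      have := Nat.mul_le_mul_left a h2
      linarith

theorem cast_aux (a x b y c : ℕ) (h : a * x + b * y ≤ c) :
    (a : ℝ) * (x : ℕ) + (b : ℕ) * (y : ℕ) ≤ (c : ℕ) := by
  exact_mod_cast h

/-- soundness of the certificates -/
theorem lp_sound (rows : List (ℕ → ℤ)) (hoff : ∀ f ∈ rows, ∀ m, |f m| < OFF)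
    (Ps Ts : List ℕ) (hP : Ps = rows.map fun f => pk (tn f) 0 62)
    (z : ℕ → ℝ) (hz : ∀ m, |z m| ≤ 8 / 10 ^ 5)
    (hrow : List.Forall₂ (fun (f : ℕ → ℤ) (T : ℕ) =>
      ∑ m ∈ Finset.range 62, ((f m : ℤ) : ℝ) * z m ≤ (T : ℕ)) rows Ts)
    (t : List ℤ) (c : ℕ) (lam : List ℕ)
    (hchk : lpChk Ps Ts t (10 ^ 6) 80 c lam = true) :
    10 ^ 6 * ∑ m ∈ Finset.range 62, ((t.getD m 0 : ℤ) : ℝ) * z m ≤ c := by
  simp only [lpChk, Bool.and_eq_true, Nat.blt_eq, Nat.beq_eq, Nat.ble_eq] at hchk
  obtain ⟨⟨⟨h1, h2⟩, h3⟩, h4⟩ := hchk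
  have hlen : lam.length = rows.length := by
    rw [h3, hP]
    simp
  set e : ℕ → ℕ := fun m => wsum lam (rows.map fun f => tn f m) with he
  have heB : ∀ m, e m < BB := fun m => lt_of_le_of_lt (wsum_lt lam rows hoff m) h1
  have hw : wsum lam Ps = pk e 0 62 := by
    have := wsum_pk lam (rows.map tn) 0 62
    simp only [List.map_map, Function.comp_def] at this
    rw [hP, this]
  have hres : resid (wsum lam Ps) (OFF * suml lam) t
      = ∑ i ∈ Finset.range 62, ((e i : ℤ) - (OFF * suml lam : ℕ) - t.getD i 0).natAbs := by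
    have := resid_eq t e heB 0 (OFF * suml lam)
    rw [h2] at this
    rw [hw, this]
    simp
  have hle := wsum_le lam rows Ts z 62 hrow
  have hreal : ∀ m, (e m : ℝ) - (OFF * suml lam : ℕ)
      = (List.zipWith (fun (a : ℕ) (f : ℕ → ℤ) => (a : ℝ) * (f m : ℝ)) lam rows).sum :=
    fun m => wsum_real lam rows hlen hoff m
  have hle2 : ∑ m ∈ Finset.range 62, ((e m : ℝ) - (OFF * suml lam : ℕ)) * z m
      ≤ (wsum lam Ts : ℕ) := by
    simp only [hreal]
    exact hle
  have hdiff : ∑ m ∈ Finset.range 62, ((t.getD m 0 : ℤ) : ℝ) * z m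
      = ∑ m ∈ Finset.range 62, ((e m : ℝ) - (OFF * suml lam : ℕ)) * z m
        - ∑ m ∈ Finset.range 62, ((e m : ℝ) - (OFF * suml lam : ℕ) - ((t.getD m 0 : ℤ) : ℝ)) * z m := by
    rw [← Finset.sum_sub_distrib]
    exact Finset.sum_congr rfl fun m _ => by ring
  have habs : |∑ m ∈ Finset.range 62,
      ((e m : ℝ) - (OFF * suml lam : ℕ) - ((t.getD m 0 : ℤ) : ℝ)) * z m|
      ≤ (resid (wsum lam Ps) (OFF * suml lam) t : ℕ) * (8 / 10 ^ 5) := by
    rw [hres]
    push_cast
    rw [Finset.sum_mul]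
    refine (Finset.abs_sum_le_sum_abs _ _).trans (Finset.sum_le_sum fun m _ => ?_)
    rw [abs_mul]
    have e1 : (((((e m : ℤ) - ((OFF * suml lam : ℕ) : ℤ) - t.getD m 0).natAbs : ℕ)) : ℝ)
        = |(e m : ℝ) - ((OFF * suml lam : ℕ) : ℝ) - ((t.getD m 0 : ℤ) : ℝ)| := by
      rw [Nat.cast_natAbs]
      push_cast
      rfl
    push_cast at e1 ⊢
    rw [e1]
    exact mul_le_mul_of_nonneg_left (hz m) (abs_nonneg _)
  have h4' : (10 : ℝ) ^ 6 * (wsum lam Ts : ℕ) + 80 * (resid (wsum lam Ps) (OFF * suml lam) t : ℕ)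
      ≤ c := by
    have h5 := cast_aux _ _ _ _ _ h4
    have h6 : (((10 ^ 6 : ℕ)) : ℝ) = 10 ^ 6 := by norm_num
    rw [h6] at h5
    exact h5
  rw [hdiff]
  have := neg_abs_le (∑ m ∈ Finset.range 62,
      ((e m : ℝ) - (OFF * suml lam : ℕ) - ((t.getD m 0 : ℤ) : ℝ)) * z m)
  linarith

end Pool.Agent.Lib.MP_e8d1ff_al
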