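import Pool.Agent.Lib.MP_e8d1ff_al.Cont
import Pool.Agent.Lib.MP_e8d1ff_al.ArcS
import Pool.Agent.Lib.MP_e8d1ff_al.KArc
set_option autoImplicit false

/-!
# An irreducible spectrally arbitrary zero-nonzero pattern of order 63 with 125 entries

The pattern `pat` (vertices 0..62) is a Hessenberg pattern: the path `i -> i+1`, the arc `11 -> 0`,
the arcs `23 -> k` for `k <= 23`, `k` different from 12 and 21, a loop at 24, nineteen pairs
`26+2t -> 26+2t`, `26+2t -> 25+2t`, and the arc `62 -> 0`: altogether 62+1+22+1+38+1 = 125 arcs.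
Its matrices with ones on the path have characteristic polynomial
`P * (X - ρ) * prod (X^2 - α_t X + β_t) - c`, where `P` is any monic polynomial of degree 24 whose
coefficient of `X^21` vanishes and with a few non-vanishing conditions (`ArcsOK`).

To realize `p`, put `W_s = s^63 p(x/s) - (s^63 p(0) + 1)`, so that `W_0 = x^63 - 1`. For small `s` the
roots of `W_s` are near the 63rd roots of unity; grouping conjugate pairs, for each 12-set `R` of
pairs let `G_R` be (minus) the coefficient of `X^21` of the product over `R`. A list of 123 sets with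
very small value of `G_R` at the roots of unity is given. If none of these functions vanishes along
the way, linear programming certificates (checked by the kernel) show that the roots never leave a
small box around the roots of unity, so `W_s` stays bounded and `p = x^63 + p(0)`; this last
polynomial is treated by an exact zero of `G_R` for one special set. Otherwise some `G_R` vanishes
at some `s > 0` and gives a realization of the scaled polynomial.
-/


namespace Pool.Agent.Lib.MP_e8d1ff_al

open Polynomial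

theorem close_aux (x a e c : ℝ) (h : |x - a| ≤ e) (h2 : |a - c| + e ≤ 1 / 10 ^ 8) :
    |x - c| ≤ 1 / 10 ^ 8 := by
  have : x - c = (x - a) + (a - c) := by ring
  rw [this]
  linarith [abs_add_le (x - a) (a - c)]

theorem ca_close (j : ℕ) (hj : j < 31) : |ca (j + 1) - at' j| ≤ 1 / 10 ^ 8 := by
  unfold at'
  interval_cases j
  · refine close_aux _ _ _ _ ca_1 ?_
    rw [show cN 0 = 199006155 by decide]
    norm_num [abs_le]
  · refine close_aux _ _ _ _ ca_2 ?_
    rw [show cN 1 = 196034498 by decide]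
    norm_num [abs_le]
  · refine close_aux _ _ _ _ ca_3 ?_
    rw [show cN 2 = 191114561 by decide]
    norm_num [abs_le]
  · refine close_aux _ _ _ _ ca_4 ?_
    rw [show cN 3 = 184295242 by decide]
    norm_num [abs_le]
  · refine close_aux _ _ _ _ ca_5 ?_
    rw [show cN 4 = 175644315 by decide]
    norm_num [abs_le]
  · refine close_aux _ _ _ _ ca_6 ?_
    rw [show cN 5 = 165247755 by decide]
    norm_num [abs_le]
  · refine close_aux _ _ _ _ ca_7 ?_
    rw [show cN 6 = 153208889 by decide]
    norm_num [abs_le]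
  · refine close_aux _ _ _ _ ca_8 ?_
    rw [show cN 7 = 139647364 by decide]
    norm_num [abs_le]
  · refine close_aux _ _ _ _ ca_9 ?_
    rw [show cN 8 = 124697960 by decide]
    norm_num [abs_le]
  · refine close_aux _ _ _ _ ca_10 ?_
    rw [show cN 9 = 108509253 by decide]
    norm_num [abs_le]
  · refine close_aux _ _ _ _ ca_11 ?_
    rw [show cN 10 = 91242131 by decide]
    norm_num [abs_le]
  · refine close_aux _ _ _ _ ca_12 ?_
    rw [show cN 11 = 73068205 by decide]
    norm_num [abs_le]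
  · refine close_aux _ _ _ _ ca_13 ?_
    rw [show cN 12 = 54168094 by decide]
    norm_num [abs_le]
  · refine close_aux _ _ _ _ ca_14 ?_
    rw [show cN 13 = 34729636 by decide]
    norm_num [abs_le]
  · refine close_aux _ _ _ _ ca_15 ?_
    rw [show cN 14 = 14946019 by decide]
    norm_num [abs_le]
  · refine close_aux _ _ _ _ ca_16 ?_
    rw [show cN 15 = -4986138 by decide]
    norm_num [abs_le]
  · refine close_aux _ _ _ _ ca_17 ?_
    rw [show cN 16 = -24868741 by decide]
    norm_num [abs_le]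
  · refine close_aux _ _ _ _ ca_18 ?_
    rw [show cN 17 = -44504187 by decide]
    norm_num [abs_le]
  · refine close_aux _ _ _ _ ca_19 ?_
    rw [show cN 18 = -63697330 by decide]
    norm_num [abs_le]
  · refine close_aux _ _ _ _ ca_20 ?_
    rw [show cN 19 = -82257421 by decide]
    norm_num [abs_le]
  · refine close_aux _ _ _ _ ca_21 ?_
    rw [show cN 20 = -100000000 by decide]
    norm_num [abs_le]
  · refine close_aux _ _ _ _ ca_22 ?_
    rw [show cN 21 = -116748734 by decide]
    norm_num [abs_le]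
  · refine close_aux _ _ _ _ ca_23 ?_
    rw [show cN 22 = -132337168 by decide]
    norm_num [abs_le]
  · refine close_aux _ _ _ _ ca_24 ?_
    rw [show cN 23 = -146610374 by decide]
    norm_num [abs_le]
  · refine close_aux _ _ _ _ ca_25 ?_
    rw [show cN 24 = -159426501 by decide]
    norm_num [abs_le]
  · refine close_aux _ _ _ _ ca_26 ?_
    rw [show cN 25 = -170658176 by decide]
    norm_num [abs_le]
  · refine close_aux _ _ _ _ ca_27 ?_
    rw [show cN 26 = -180193774 by decide]
    norm_num [abs_le]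
  · refine close_aux _ _ _ _ ca_28 ?_
    rw [show cN 27 = -187938524 by decide]
    norm_num [abs_le]
  · refine close_aux _ _ _ _ ca_29 ?_
    rw [show cN 28 = -193815457 by decide]
    norm_num [abs_le]
  · refine close_aux _ _ _ _ ca_30 ?_
    rw [show cN 29 = -197766165 by decide]
    norm_num [abs_le]
  · refine close_aux _ _ _ _ ca_31 ?_
    rw [show cN 30 = -199751384 by decide]
    norm_num [abs_le]

/-- the base point -/
noncomputable def z0 : EE31 := (1, fun j => ca (j.val + 1), fun _ => 1)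

theorem absum_ge (d : SD) (hf : RowFacts d) (u : Fin 31 → ℝ) (ε : ℝ)
    (hu : ∀ j, |u j| ≤ ε) :
    |∑ j ∈ Rset d.idx, (rU d.c1 d.c2 (cN j.val) : ℝ) * u j|
      ≤ (absum d.idx d.c1 d.c2 d.idx : ℕ) * ε := by
  have h1 : ∀ l : List ℕ, absum d.idx d.c1 d.c2 l
      = (l.map fun a => (rU d.c1 d.c2 (cN a)).natAbs).sum := by
    intro l
    induction l with
    | nil => simp [absum]
    | cons a l ih => simp [absum, ih]
  have h2 := sum_Rset d.idx hf.nodup hf.lt (fun a => (rU d.c1 d.c2 (cN a)).natAbs)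
  rw [h1, ← h2]
  push_cast
  rw [Finset.sum_mul]
  refine (Finset.abs_sum_le_sum_abs _ _).trans (Finset.sum_le_sum fun j _ => ?_)
  rw [abs_mul, Nat.cast_natAbs, Int.cast_abs]
  exact mul_le_mul_of_nonneg_left (hu j) (abs_nonneg _)

theorem SP_z0 (d : SD) (hd : d ∈ sets) : SP d z0 := by
  have hf := allFacts d hd
  have hu : ∀ j : Fin 31, |(fun j : Fin 31 => ca (j.val + 1) - at' j.val) j| ≤ 1 / 10 ^ 8 :=
    fun j => ca_close j.val j.isLt
  have hlin := G3_lin d hf (fun j : Fin 31 => ca (j.val + 1) - at' j.val) (fun _ => 0) (1 / 10 ^ 8)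
    (by norm_num) hu (fun _ => by norm_num)
  have hab := absum_ge d hf (fun j : Fin 31 => ca (j.val + 1) - at' j.val) _ hu
  have e1 : (fun j : Fin 31 => at' j.val + (ca (j.val + 1) - at' j.val))
      = fun j : Fin 31 => ca (j.val + 1) := by
    funext j
    ring
  have e2 : (fun _ : Fin 31 => (1 : ℝ) + 0) = fun _ => 1 := by
    funext j
    ring
  have e3 : ∑ j ∈ Rset d.idx, ((rU d.c1 d.c2 (cN j.val) : ℝ) * (ca (j.val + 1) - at' j.val)
        + (rV d.c1 (cN j.val) : ℝ) * 0)
      = ∑ j ∈ Rset d.idx, (rU d.c1 d.c2 (cN j.val) : ℝ) * (ca (j.val + 1) - at' j.val) :=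
    Finset.sum_congr rfl fun j _ => by ring
  rw [e1, e2, e3] at hlin
  have hG : Gz d z0 = G3 (fun j : Fin 31 => ca (j.val + 1)) (fun _ => 1) (Rset d.idx) := rfl
  rw [← hG] at hlin
  have hst : (3 * (absum d.idx d.c1 d.c2 d.idx : ℕ) : ℝ) + 10 ^ 12 < |(d.g : ℝ)| := by
    have h := hf.start
    have h2 : ((3 * absum d.idx d.c1 d.c2 d.idx + 10 ^ 12 : ℕ) : ℝ) < ((d.g.natAbs : ℕ) : ℝ) := by
      exact_mod_cast h
    rw [Nat.cast_natAbs, Int.cast_abs] at h2
    push_cast at h2
    refine lt_of_eq_of_lt ?_ h2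
    norm_num
  generalize (∑ j ∈ Rset d.idx, (rU d.c1 d.c2 (cN j.val) : ℝ) * (ca (j.val + 1) - at' j.val)) = L
    at *
  generalize ((absum d.idx d.c1 d.c2 d.idx : ℕ) : ℝ) = A at *
  have hlin' := abs_le.mp hlin
  have hab' := abs_le.mp hab
  norm_num at hlin' hab'
  constructor
  · intro h
    have h4 : |(d.g : ℝ)| = d.g := abs_of_nonneg (by exact_mod_cast h)
    rw [h4] at hst
    linarith [hlin'.1, hab'.1]
  · intro h
    have h4 : |(d.g : ℝ)| = - d.g := abs_of_neg (by exact_mod_cast h)
    rw [h4] at hst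
    linarith [hlin'.2, hab'.2]

theorem z0_mem : z0 ∈ Kb := by
  rw [mem_Kb]
  refine ⟨?_, fun j => ?_, fun j => ?_⟩
  · simp [z0]
  · exact (ca_close j.val j.isLt).trans (by norm_num)
  · simp only [z0, sub_self, abs_zero]
    norm_num

theorem good_zero (p : ℝ[X]) (hp : p.Monic) (hd : p.natDegree = 63) : Good p 0 := by
  refine ⟨z0, z0_mem, ?_, SP_z0⟩
  rw [← DD_eq_iff p hp hd]
  have h1 : DD z0.1 z0.2.1 z0.2.2 = X ^ 63 - 1 := DD_base
  rw [h1]
  unfold Wp
  have h2 : p.scaleRoots 0 = X ^ 63 := by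
    ext k
    rw [coeff_scaleRoots, hd, coeff_X_pow]
    rcases lt_trichotomy k 63 with h | h | h
    · rw [zero_pow (by omega), mul_zero, if_neg (by omega)]
    · subst h
      have : p.coeff 63 = 1 := by
        rw [← hd]
        exact hp
      simp [this]
    · rw [coeff_eq_zero_of_natDegree_lt (by omega), zero_mul, if_neg (by omega)]
  rw [h2]
  simp

/-- the crossing case -/
theorem cross_case (p : ℝ[X]) (hp : p.Monic) (hd : p.natDegree = 63) (h0 : 0 ≤ p.coeff 0)
    (s : ℝ) (hs : 0 < s) (z : EE31) (hz : z ∈ Kb) (hphi : phi z = wv p s) (d : SD)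
    (hdm : d ∈ sets) (hG : Gz d z = 0) :
    ∃ A : Matrix (Fin 63) (Fin 63) ℝ, (∀ i j, A i j ≠ 0 ↔ (i, j) ∈ pat) ∧ A.charpoly = p := by
  have hf := allFacts d hdm
  obtain ⟨a1, a2, a3⟩ := (mem_Kb z).mp hz
  have hcard : (Rset d.idx).card = 12 := by rw [card_Rset _ hf.nodup hf.lt, hf.len]
  have e1 : (fun j : Fin 31 => qd (at' j.val + (z.2.1 j - at' j.val)) (1 + (z.2.2 j - 1)))
      = fun j => qd (z.2.1 j) (z.2.2 j) := by
    funext j
    congr 1 <;> ring
  have h21 : (∏ j ∈ Rset d.idx, qd (z.2.1 j) (z.2.2 j)).coeff 21 = 0 := by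
    rw [coeff21 _ _ _ hcard]
    have : G3 z.2.1 z.2.2 (Rset d.idx) = 0 := hG
    rw [this, neg_zero]
  have harc := arcs_sound d.idx hf.nodup hf.lt hf.len (List.all_eq_true.mp arcs_ok d hdm)
    (fun j => z.2.1 j - at' j.val) (fun j => z.2.2 j - 1) a2 a3 (by
      rw [e1]
      exact h21)
  rw [e1] at harc
  apply realize_of_factor p hp hd h0 s hs z.1 z.2.1 z.2.2
    ((DD_eq_iff p hp hd z s).mpr hphi) ?_ ?_ ?_ (Rset d.idx) hcard h21 harc
  · intro h
    rw [h] at a1
    norm_num at a1
  · intro j h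
    have h1 := a2 j
    rw [h, zero_sub, abs_neg] at h1
    have h2 := at_ge j
    norm_num at h1 h2
    linarith
  · intro j h
    have h1 := a3 j
    rw [h] at h1
    norm_num at h1

/-- the degenerate case -/
theorem exact_case (p : ℝ[X]) (hp : p.Monic) (hd : p.natDegree = 63) (h0 : 0 ≤ p.coeff 0)
    (hpx : p = X ^ 63 + C (p.coeff 0)) :
    ∃ A : Matrix (Fin 63) (Fin 63) ℝ, (∀ i j, A i j ≠ 0 ↔ (i, j) ∈ pat) ∧ A.charpoly = p := by
  have hn : idx0.Nodup := by decide
  have hl : ∀ i ∈ idx0, i < 31 := by decide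
  have hlen : idx0.length = 12 := rfl
  have hcard : (Rset idx0).card = 12 := by rw [card_Rset _ hn hl, hlen]
  obtain ⟨a1, a2, a3⟩ := (mem_Kb z0).mp z0_mem
  have e1 : (fun j : Fin 31 => qd (at' j.val + (z0.2.1 j - at' j.val)) (1 + (z0.2.2 j - 1)))
      = fun j => qd (z0.2.1 j) (z0.2.2 j) := by
    funext j
    congr 1 <;> ring
  have h21 : (∏ j ∈ Rset idx0, qd (z0.2.1 j) (z0.2.2 j)).coeff 21 = 0 := by
    rw [coeff21 _ _ _ hcard]
    have : G3 z0.2.1 z0.2.2 (Rset idx0) = 0 := G3_base
    rw [this, neg_zero]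
  have harc := arcs_sound idx0 hn hl hlen arc0_ok
    (fun j => z0.2.1 j - at' j.val) (fun j => z0.2.2 j - 1) a2 a3 (by
      rw [e1]
      exact h21)
  rw [e1] at harc
  have h1 : DD z0.1 z0.2.1 z0.2.2 = X ^ 63 - 1 := DD_base
  apply realize_of_factor p hp hd h0 1 one_pos z0.1 z0.2.1 z0.2.2 ?_ ?_ ?_ ?_ (Rset idx0) hcard
    h21 harc
  · rw [h1, scaleRoots_one]
    conv_rhs => rw [hpx]
    simp
  · simp [z0]
  · intro j h
    have h1 := a2 j
    rw [h, zero_sub, abs_neg] at h1
    have h2 := at_ge j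
    norm_num at h1 h2
    linarith
  · intro j
    simp [z0]

theorem realize_nonneg (p : ℝ[X]) (hp : p.Monic) (hd : p.natDegree = 63) (h0 : 0 ≤ p.coeff 0) :
    ∃ A : Matrix (Fin 63) (Fin 63) ℝ, (∀ i j, A i j ≠ 0 ↔ (i, j) ∈ pat) ∧ A.charpoly = p := by
  by_cases hnc : NoCr p
  · have hall := good_all p hp hd hnc (good_zero p hp hd)
    have hzero : ∀ k, k ≠ 0 → k < 63 → p.coeff k = 0 := by
      intro k hk1 hk2
      apply zero_of_bounded (p.coeff k) (6 ^ 31 * 3) (63 - k) (by omega)
      intro s hs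
      obtain ⟨z, hz, hphi, _⟩ := hall s hs
      obtain ⟨a1, a2, a3⟩ := (mem_Kb z).mp hz
      have hD := (DD_eq_iff p hp hd z s).mpr hphi
      have hb := DD_sup z.1 z.2.1 z.2.2 (by
          have := abs_le.mp a1
          rw [abs_le]
          norm_num at this ⊢
          constructor <;> linarith [this.1, this.2]) (fun j => by
          have h1 := abs_le.mp (a2 j)
          have h2 := abs_le.mp (at_bound j.val)
          rw [abs_le]
          norm_num at h1 ⊢
          constructor <;> linarith [h1.1, h1.2, h2.1, h2.2]) (fun j => by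
          have h1 := abs_le.mp (a3 j)
          rw [abs_le]
          norm_num at h1 ⊢
          constructor <;> linarith [h1.1, h1.2]) k
      rw [hD, Wp_coeff p hp hd s k hk1, abs_mul, abs_of_nonneg (by positivity : 0 ≤ s ^ (63 - k))]
        at hb
      exact hb
    apply exact_case p hp hd h0
    ext k
    rw [coeff_add, coeff_X_pow, coeff_C]
    rcases Nat.eq_zero_or_pos k with h | h
    · subst h
      simp
    · rw [if_neg (show k ≠ 0 by omega), add_zero]
      rcases lt_trichotomy k 63 with h' | h' | h'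
      · rw [if_neg (by omega)]
        exact hzero k (by omega) h'
      · subst h'
        rw [if_pos rfl, ← hd]
        exact hp
      · rw [if_neg (by omega)]
        exact coeff_eq_zero_of_natDegree_lt (by omega)
  · unfold NoCr at hnc
    push Not at hnc
    obtain ⟨s, hs, z, hz, hphi, d, hdm, hG⟩ := hnc
    exact cross_case p hp hd h0 s hs z hz hphi d hdm hG

theorem realize_all (p : ℝ[X]) (hp : p.Monic) (hd : p.natDegree = 63) :
    ∃ A : Matrix (Fin 63) (Fin 63) ℝ, (∀ i j, A i j ≠ 0 ↔ (i, j) ∈ pat) ∧ A.charpoly = p := by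
  rcases le_or_gt 0 (p.coeff 0) with h0 | h0
  · exact realize_nonneg p hp hd h0
  · obtain ⟨A, hA, hch⟩ := realize_nonneg (p.scaleRoots (-1)) ((monic_scaleRoots_iff _).mpr hp)
      (by rw [natDegree_scaleRoots, hd]) (by
        rw [coeff_scaleRoots, hd]
        norm_num
        linarith)
    refine ⟨(-1 : ℝ) • A, ?_, ?_⟩
    · intro i j
      rw [← hA i j]
      simp
    · rw [charpoly_smul' A (-1) (by norm_num), hch, ← scaleRoots_mul]
      norm_num

end Pool.Agent.Lib.MP_e8d1ff_al
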