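import Pool.Agent.Lib.MP_e8d1ff_al.Cert
set_option autoImplicit false

namespace Pool.Agent.Lib.MP_e8d1ff_al

theorem prod_est {ι : Type*} [DecidableEq ι] (s : Finset ι) (v : ι → ℝ) (ε : ℝ) (hε : 0 ≤ ε)
    (hv : ∀ j ∈ s, |v j| ≤ ε) :
    |∏ j ∈ s, (1 + v j) - 1| ≤ (1 + ε) ^ s.card - 1 ∧
      |∏ j ∈ s, (1 + v j) - 1 - ∑ j ∈ s, v j| ≤ (1 + ε) ^ s.card - 1 - s.card * ε := by
  induction s using Finset.induction_on with
  | empty => simp
  | insert j s hj ih =>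
    obtain ⟨h1, h2⟩ := ih fun i hi => hv i (Finset.mem_insert_of_mem hi)
    have hvj := hv j (Finset.mem_insert_self j s)
    rw [Finset.prod_insert hj, Finset.sum_insert hj, Finset.card_insert_of_notMem hj, pow_succ]
    push_cast
    set Q := ∏ i ∈ s, (1 + v i) with hQ
    set W := ∑ i ∈ s, v i with hW
    have h3 : |v j * (Q - 1)| ≤ ε * ((1 + ε) ^ s.card - 1) := by
      rw [abs_mul]
      exact mul_le_mul hvj h1 (abs_nonneg _) hε
    have e1 : (1 + v j) * Q - 1 = (Q - 1) + v j * (Q - 1) + v j := by ring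
    have e2 : (1 + v j) * Q - 1 - (v j + W) = (Q - 1 - W) + v j * (Q - 1) := by ring
    rw [e2, e1]
    rw [abs_le] at h1 h2 h3 hvj ⊢
    rw [abs_le]
    refine ⟨⟨?_, ?_⟩, ⟨?_, ?_⟩⟩ <;> nlinarith [h1.1, h1.2, h2.1, h2.2, h3.1, h3.2, hvj.1, hvj.2]

theorem sum_at : ∑ j : Fin 31, at' j.val = -1 + 3 / 10 ^ 8 := by
  have h : ∑ j : Fin 31, cN j.val = -99999997 := by decide +kernel
  have h2 : ∑ j : Fin 31, (cN j.val : ℝ) = -99999997 := by exact_mod_cast h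
  unfold at'
  rw [← Finset.sum_div, h2]
  norm_num

theorem sum_at_sq : |∑ j : Fin 31, at' j.val ^ 2 - 61| ≤ 2 / 10 ^ 8 := by
  have h : ∑ j : Fin 31, cN j.val ^ 2 = 610000000000000000 - 167616881 := by decide +kernel
  have h2 : ∑ j : Fin 31, (cN j.val : ℝ) ^ 2 = 610000000000000000 - 167616881 := by
    exact_mod_cast h
  unfold at'
  simp only [div_pow]
  rw [← Finset.sum_div, h2]
  norm_num [abs_le]

/-- the estimates at one time -/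
theorem one_time (ρ : ℝ) (α β : Fin 31 → ℝ) (hρ : |ρ - 1| ≤ 1 / 100)
    (hα : ∀ j, |α j - at' j.val| ≤ 8 / 10 ^ 5) (hβ : ∀ j, |β j - 1| ≤ 8 / 10 ^ 5)
    (hnc : NoCross (fun j => α j - at' j.val) (fun j => β j - 1))
    (hprod : ρ * ∏ j, β j = 1) :
    |(ρ + ∑ j, α j) + (ρ * ∑ j, α j + (((∑ j, α j) ^ 2 - ∑ j, α j ^ 2) / 2 + ∑ j, β j))|
      ≤ 86 / 10 ^ 6 ∧
    |ρ - 1| ≤ 25 / 10 ^ 4 ∧ |ρ - 1 + ∑ j, (β j - 1)| ≤ 1 / 10 ^ 5 := by
  have hF := stageF _ _ hα hβ hnc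
  have hU0 := abs_sum_le_card Finset.univ (fun j : Fin 31 => α j - at' j.val) _ (fun j _ => hα j)
  have hV0 := abs_sum_le_card Finset.univ (fun j : Fin 31 => β j - 1) _ (fun j _ => hβ j)
  have hW0 := abs_sum_le_card Finset.univ (fun j : Fin 31 => (α j - at' j.val) ^ 2)
    ((8 / 10 ^ 5) ^ 2) (fun j _ => by
      rw [abs_pow]
      exact pow_le_pow_left₀ (abs_nonneg _) (hα j) 2)
  have hp := prod_est Finset.univ (fun j : Fin 31 => β j - 1) (8 / 10 ^ 5) (by norm_num)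
    (fun j _ => hβ j)
  have hp0 : ∏ j : Fin 31, (1 + (β j - 1)) = ∏ j, β j :=
    Finset.prod_congr rfl fun j _ => by ring
  rw [hp0] at hp
  simp only [Finset.card_univ, Fintype.card_fin] at hU0 hV0 hW0 hp
  have hT1 := sum_at
  have hT2 := sum_at_sq
  have e1 : ∑ j : Fin 31, α j = ∑ j : Fin 31, at' j.val + ∑ j : Fin 31, (α j - at' j.val) := by
    rw [← Finset.sum_add_distrib]
    exact Finset.sum_congr rfl fun j _ => by ring
  have e2 : ∑ j : Fin 31, α j ^ 2 = ∑ j : Fin 31, at' j.val ^ 2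
      + 2 * ∑ j : Fin 31, at' j.val * (α j - at' j.val) + ∑ j : Fin 31, (α j - at' j.val) ^ 2 := by
    rw [Finset.mul_sum, ← Finset.sum_add_distrib, ← Finset.sum_add_distrib]
    exact Finset.sum_congr rfl fun j _ => by ring
  have e3 : ∑ j : Fin 31, β j = 31 + ∑ j : Fin 31, (β j - 1) := by
    rw [Finset.sum_sub_distrib]
    simp
  have e4 : ∑ j : Fin 31, (1 - at' j.val) * (α j - at' j.val)
      = ∑ j : Fin 31, (α j - at' j.val) - ∑ j : Fin 31, at' j.val * (α j - at' j.val) := by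
    rw [← Finset.sum_sub_distrib]
    exact Finset.sum_congr rfl fun j _ => by ring
  rw [e4] at hF
  rw [e1, e2, e3]
  generalize (∑ j : Fin 31, (α j - at' j.val)) = U at *
  generalize (∑ j : Fin 31, at' j.val * (α j - at' j.val)) = X at *
  generalize (∑ j : Fin 31, (α j - at' j.val) ^ 2) = U2 at *
  generalize (∑ j : Fin 31, (β j - 1)) = V at *
  generalize (∏ j : Fin 31, β j) = Q at *
  generalize (∑ j : Fin 31, at' j.val) = T1 at *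
  generalize (∑ j : Fin 31, at' j.val ^ 2) = T2 at *
  subst hT1
  obtain ⟨hp1, hp2⟩ := hp
  have hp1' : |Q - 1| ≤ 2484 / 10 ^ 6 := hp1.trans (by norm_num)
  have hp2' : |Q - 1 - V| ≤ 3 / 10 ^ 6 := hp2.trans (by norm_num)
  norm_num at hU0 hW0
  have hρpos : 0 < ρ := by
    have := (abs_le.mp hρ).1
    norm_num at this
    linarith
  have hr1 : ρ - 1 = - (ρ * (Q - 1)) := by linear_combination hprod
  have hr2 : |ρ - 1| ≤ ρ * (2484 / 10 ^ 6) := by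
    rw [hr1, abs_neg, abs_mul, abs_of_pos hρpos]
    exact mul_le_mul_of_nonneg_left hp1' hρpos.le
  have hr3 : |ρ - 1| ≤ 25 / 10 ^ 4 := by
    have h1 := (abs_le.mp hr2).2
    refine hr2.trans ?_
    norm_num at h1 ⊢
    linarith
  have hr4 : |ρ - 1 + V| ≤ 1 / 10 ^ 5 := by
    have e : ρ - 1 + V = -(Q - 1 - V) - (ρ - 1) * (Q - 1) := by linear_combination hprod
    have h1 : |(ρ - 1) * (Q - 1)| ≤ 25 / 10 ^ 4 * (2484 / 10 ^ 6) := by
      rw [abs_mul]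
      exact mul_le_mul hr3 hp1' (abs_nonneg _) (by norm_num)
    rw [e]
    rw [abs_le] at h1 hp2' ⊢
    norm_num at h1 hp2' ⊢
    constructor <;> linarith [h1.1, h1.2, hp2'.1, hp2'.2]
  refine ⟨?_, hr3, hr4⟩
  have e : (ρ + (-1 + 3 / 10 ^ 8 + U)) + (ρ * (-1 + 3 / 10 ^ 8 + U)
      + (((-1 + 3 / 10 ^ 8 + U) ^ 2 - (T2 + 2 * X + U2)) / 2 + (31 + V)))
      = (U - X + V) + ((ρ - 1) * U + U ^ 2 / 2 + 3 / 10 ^ 8 * ρ + (3 / 10 ^ 8) ^ 2 / 2
        + 3 / 10 ^ 8 * U - (T2 - 61) / 2 - U2 / 2) := by ring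
  rw [e]
  have k1 : |(ρ - 1) * U| ≤ 25 / 10 ^ 4 * (31 / 12500) := by
    rw [abs_mul]
    exact mul_le_mul hr3 hU0 (abs_nonneg _) (by norm_num)
  have k2 : |U ^ 2| ≤ (31 / 12500) ^ 2 := by
    rw [abs_pow]
    exact pow_le_pow_left₀ (abs_nonneg _) hU0 2
  rw [abs_le] at *
  norm_num at *
  constructor <;> linarith [k1.1, k1.2, k2, hF.1, hF.2, hT2.1, hT2.2, hW0.1, hW0.2, hU0.1, hU0.2,
    hρ.1, hρ.2]

/-- the estimate from two times -/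
theorem two_times (ρ : ℝ) (α β : Fin 31 → ℝ) (hρ : |ρ - 1| ≤ 1 / 100)
    (hα : ∀ j, |α j - at' j.val| ≤ 8 / 10 ^ 5) (hβ : ∀ j, |β j - 1| ≤ 8 / 10 ^ 5)
    (hnc : NoCross (fun j => α j - at' j.val) (fun j => β j - 1))
    (hprod : ρ * ∏ j, β j = 1)
    (ρ' : ℝ) (α' β' : Fin 31 → ℝ) (hρ' : |ρ' - 1| ≤ 1 / 100)
    (hα' : ∀ j, |α' j - at' j.val| ≤ 8 / 10 ^ 5) (hβ' : ∀ j, |β' j - 1| ≤ 8 / 10 ^ 5)
    (hnc' : NoCross (fun j => α' j - at' j.val) (fun j => β' j - 1))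
    (hprod' : ρ' * ∏ j, β' j = 1) (c1 c2 s : ℝ)
    (h1 : ρ + ∑ j, α j = c1 * s)
    (h2 : ρ * ∑ j, α j + (((∑ j, α j) ^ 2 - ∑ j, α j ^ 2) / 2 + ∑ j, β j) = c2 * s ^ 2)
    (h1' : ρ' + ∑ j, α' j = c1 * (s / 2))
    (h2' : ρ' * ∑ j, α' j + (((∑ j, α' j) ^ 2 - ∑ j, α' j ^ 2) / 2 + ∑ j, β' j)
      = c2 * (s / 2) ^ 2) :
    (∀ j, |α j - at' j.val| ≤ 65 / 10 ^ 6) ∧ (∀ j, |β j - 1| ≤ 65 / 10 ^ 6) ∧
      |ρ - 1| ≤ 25 / 10 ^ 4 := by
  obtain ⟨a1, a2, a3⟩ := one_time ρ α β hρ hα hβ hnc hprod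
  obtain ⟨b1, _, _⟩ := one_time ρ' α' β' hρ' hα' hβ' hnc' hprod'
  rw [h1, h2] at a1
  rw [h1', h2'] at b1
  have hU0 : ∑ j : Fin 31, α j = ∑ j : Fin 31, at' j.val + ∑ j : Fin 31, (α j - at' j.val) := by
    rw [← Finset.sum_add_distrib]
    exact Finset.sum_congr rfl fun j _ => by ring
  have hE1 : |c1 * s| ≤ 430 / 10 ^ 6 := by
    have e : c1 * s = 4 * (c1 * (s / 2) + c2 * (s / 2) ^ 2) - (c1 * s + c2 * s ^ 2) := by ring
    rw [e]
    rw [abs_le] at a1 b1 ⊢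
    norm_num at a1 b1 ⊢
    constructor <;> linarith [a1.1, a1.2, b1.1, b1.2]
  have hUV : |∑ j : Fin 31, (α j - at' j.val) - ∑ j : Fin 31, (β j - 1)| ≤ 45 / 10 ^ 5 := by
    have e : ∑ j : Fin 31, (α j - at' j.val) - ∑ j : Fin 31, (β j - 1)
        = c1 * s - (ρ - 1 + ∑ j : Fin 31, (β j - 1)) - 3 / 10 ^ 8 := by
      rw [← h1, hU0, sum_at]
      ring
    rw [e]
    rw [abs_le] at a3 hE1 ⊢
    norm_num at a3 hE1 ⊢
    constructor <;> linarith [a3.1, a3.2, hE1.1, hE1.2]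
  have hz := stageZ _ _ hα hβ hnc hUV
  refine ⟨fun j => ?_, fun j => ?_, a2⟩
  · have := hz j.val (by omega)
    simpa [zz] using this
  · have := hz (31 + j.val) (by omega)
    simpa [zz] using this

end Pool.Agent.Lib.MP_e8d1ff_al
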