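import Pool.Agent.Lib.MP_e8d1ff_al.Deriv
import Pool.Agent.Lib.MP_e8d1ff_al.Pert
import Pool.Agent.Lib.MP_e8d1ff_al.Stage
set_option autoImplicit false

namespace Pool.Agent.Lib.MP_e8d1ff_al

open Polynomial

/-- the family of target polynomials -/
noncomputable def Wp (p : ℝ[X]) (s : ℝ) : ℝ[X] := p.scaleRoots s - C (1 + s ^ 63 * p.coeff 0)

/-- values at the points `0, …, 62` -/
noncomputable def wv (p : ℝ[X]) (s : ℝ) : Fin 63 → ℝ := fun i => (Wp p s).eval (i.val : ℝ)

section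
variable (p : ℝ[X]) (hp : p.Monic) (hd : p.natDegree = 63)
include hp hd

theorem Wp_monic (s : ℝ) : (Wp p s).Monic := by
  have h := (monic_scaleRoots_iff s).mpr hp
  unfold Wp
  apply h.sub_of_left
  rw [degree_eq_natDegree h.ne_zero, natDegree_scaleRoots, hd]
  exact lt_of_le_of_lt degree_C_le (by norm_num)

theorem Wp_natDegree (s : ℝ) : (Wp p s).natDegree = 63 := by
  unfold Wp
  rw [natDegree_sub_C, natDegree_scaleRoots, hd]

theorem Wp_coeff (s : ℝ) (k : ℕ) (hk : k ≠ 0) : (Wp p s).coeff k = p.coeff k * s ^ (63 - k) := by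
  unfold Wp
  rw [coeff_sub, coeff_scaleRoots, hd, coeff_C_of_ne_zero hk, sub_zero]

theorem Wp_eval_zero (s : ℝ) : (Wp p s).eval 0 = -1 := by
  rw [← coeff_zero_eq_eval_zero]
  unfold Wp
  rw [coeff_sub, coeff_scaleRoots, hd, coeff_C_zero]
  simp
  ring

theorem DD_eq_iff (z : EE31) (s : ℝ) : DD z.1 z.2.1 z.2.2 = Wp p s ↔ phi z = wv p s := by
  constructor
  · intro h
    funext i
    rw [phi_eval, h]
    rfl
  · intro h
    have hm1 := DD_monic z.1 z.2.1 z.2.2
    have hd1 := DD_natDegree z.1 z.2.1 z.2.2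
    have hm2 := Wp_monic p hp hd s
    have hd2 := Wp_natDegree p hp hd s
    have hdeg : (DD z.1 z.2.1 z.2.2 - Wp p s).degree < ((Finset.univ : Finset (Fin 63)).card
        : WithBot ℕ) := by
      have h := degree_sub_lt_left (p := DD z.1 z.2.1 z.2.2) (q := Wp p s)
        (by rw [degree_eq_natDegree hm1.ne_zero, degree_eq_natDegree hm2.ne_zero, hd1, hd2])
        hm1.ne_zero (by rw [hm1.leadingCoeff, hm2.leadingCoeff])
      rw [degree_eq_natDegree hm1.ne_zero, hd1] at h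
      rw [Finset.card_univ, Fintype.card_fin]
      exact h
    apply Polynomial.eq_of_degree_sub_lt_of_eval_index_eq (v := fun i : Fin 63 => (i.val : ℝ))
      Finset.univ _ hdeg
    · intro i _
      rw [← phi_eval, h]
      rfl
    · intro i _ j _ h
      have : (i.val : ℝ) = (j.val : ℝ) := h
      exact Fin.ext (by exact_mod_cast this)

theorem wv_continuous : Continuous (wv p) := by
  apply continuous_pi
  intro i
  have : (fun s => wv p s i) = fun s => (∑ k ∈ Finset.range 64,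
      (p.coeff k * s ^ (63 - k)) * (i.val : ℝ) ^ k) - (1 + s ^ 63 * p.coeff 0) := by
    funext s
    unfold wv Wp
    rw [eval_sub, eval_C, eval_eq_sum_range' (n := 64) (by rw [natDegree_scaleRoots, hd]; norm_num)]
    congr 1
    refine Finset.sum_congr rfl fun k _ => ?_
    rw [coeff_scaleRoots, hd]
  rw [this]
  fun_prop

end

theorem DD_coeff62 (ρ : ℝ) (α β : Fin 31 → ℝ) : (DD ρ α β).coeff 62 = - (ρ + ∑ j, α j) := by
  obtain ⟨_, _, h3, h2, _, _⟩ := coeff_prod_top α β Finset.univ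
  simp only [Finset.card_univ, Fintype.card_fin] at h3 h2
  rw [show 2 * 31 + 3 = 62 + 3 by norm_num, coeff_X_pow_mul] at h3
  rw [show 2 * 31 + 2 = 61 + 3 by norm_num, coeff_X_pow_mul] at h2
  unfold DD
  rw [sub_mul, coeff_sub, show 62 = 61 + 1 by norm_num, coeff_X_mul, coeff_C_mul, h2]
  simp only [Nat.reduceAdd]
  rw [h3]
  ring

theorem DD_coeff61 (ρ : ℝ) (α β : Fin 31 → ℝ) : (DD ρ α β).coeff 61
    = ρ * ∑ j, α j + (((∑ j, α j) ^ 2 - ∑ j, α j ^ 2) / 2 + ∑ j, β j) := by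
  obtain ⟨_, _, _, h2, h1, _⟩ := coeff_prod_top α β Finset.univ
  simp only [Finset.card_univ, Fintype.card_fin] at h1 h2
  rw [show 2 * 31 + 2 = 61 + 3 by norm_num, coeff_X_pow_mul] at h2
  rw [show 2 * 31 + 1 = 60 + 3 by norm_num, coeff_X_pow_mul] at h1
  unfold DD
  rw [sub_mul, coeff_sub, show 61 = 60 + 1 by norm_num, coeff_X_mul, coeff_C_mul, h1]
  simp only [Nat.reduceAdd]
  rw [h2]
  ring

theorem DD_eval_zero (ρ : ℝ) (α β : Fin 31 → ℝ) : (DD ρ α β).eval 0 = - (ρ * ∏ j, β j) := by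
  unfold DD qd
  simp [eval_prod]

theorem SupLe.qd_mul {f : ℝ[X]} {c : ℝ} (h : SupLe f c) (a b : ℝ) :
    SupLe (qd a b * f) ((1 + |a| + |b|) * c) := by
  have h1 := h.linear_mul (-a) b
  have h2 : SupLe (X ^ 2 * f) c := by
    intro k
    have hc : 0 ≤ c := (abs_nonneg _).trans (h 0)
    rw [coeff_X_pow_mul']
    split_ifs
    · exact h _
    · simpa using hc
  intro k
  have e : qd a b * f = X ^ 2 * f + (C (-a) * X + C b) * f := by
    unfold qd
    rw [C_neg]
    ring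
  rw [e, coeff_add]
  refine (abs_add_le _ _).trans ?_
  have k1 := h1 k
  have k2 := h2 k
  rw [abs_neg] at k1
  linarith

theorem SupLe.prod_qd {ι : Type*} [DecidableEq ι] (s : Finset ι) (α β : ι → ℝ) (c : ℝ)
    (hα : ∀ j ∈ s, |α j| ≤ 3) (hβ : ∀ j ∈ s, |β j| ≤ 2) (f : ℝ[X]) (hf : SupLe f c) :
    SupLe ((∏ j ∈ s, qd (α j) (β j)) * f) (6 ^ s.card * c) := by
  have hc : 0 ≤ c := (abs_nonneg _).trans (hf 0)
  induction s using Finset.induction_on with
  | empty => simpa using hf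
  | insert j s hj ih =>
    have ih' := ih (fun i hi => hα i (Finset.mem_insert_of_mem hi))
      (fun i hi => hβ i (Finset.mem_insert_of_mem hi))
    rw [Finset.prod_insert hj, mul_assoc, Finset.card_insert_of_notMem hj]
    refine (ih'.qd_mul _ _).mono ?_
    have h1 := hα j (Finset.mem_insert_self j s)
    have h2 := hβ j (Finset.mem_insert_self j s)
    have h3 : 0 ≤ 6 ^ s.card * c := by positivity
    rw [pow_succ]
    nlinarith

theorem DD_sup (ρ : ℝ) (α β : Fin 31 → ℝ) (hρ : |ρ| ≤ 2) (hα : ∀ j, |α j| ≤ 3)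
    (hβ : ∀ j, |β j| ≤ 2) : SupLe (DD ρ α β) (6 ^ 31 * 3) := by
  have h0 : SupLe (1 : ℝ[X]) 1 := by
    intro k
    rw [coeff_one]
    split_ifs <;> simp
  have h1 := h0.linear_mul 1 (-ρ)
  have h2 := h1.mono (d := 3) (by rw [abs_neg, abs_one]; linarith)
  have h3 := SupLe.prod_qd Finset.univ α β 3 (fun j _ => hα j) (fun j _ => hβ j) _ h2
  have e : DD ρ α β = (∏ j, qd (α j) (β j)) * ((C 1 * X + C (-ρ)) * 1) := by
    unfold DD
    rw [C_neg, C_1]
    ring
  rw [e]
  simpa using h3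

theorem zero_of_bounded (a M : ℝ) (n : ℕ) (hn : n ≠ 0) (h : ∀ s : ℝ, 0 ≤ s → |a| * s ^ n ≤ M) :
    a = 0 := by
  by_contra ha
  have hpos : 0 < |a| := abs_pos.mpr ha
  have hM : 0 ≤ M := by
    have := h 0 le_rfl
    rw [zero_pow hn, mul_zero] at this
    exact this
  have h1 := h ((M + 1) / |a| + 1) (by positivity)
  have h2 : (M + 1) / |a| + 1 ≤ ((M + 1) / |a| + 1) ^ n := by
    apply le_self_pow₀ _ hn
    have : 0 ≤ (M + 1) / |a| := by positivity
    linarith
  have h3 : |a| * ((M + 1) / |a| + 1) = M + 1 + |a| := by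
    field_simp
  have h4 := mul_le_mul_of_nonneg_left h2 hpos.le
  linarith

end Pool.Agent.Lib.MP_e8d1ff_al
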