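import Pool.Agent.Lib.MP_e8d1ff_al.Realize
set_option autoImplicit false

namespace Pool.Agent.Lib.MP_e8d1ff_al

open Polynomial

theorem coeff_qd_mul (a b : ℝ) (Y : ℝ[X]) (n : ℕ) :
    (qd a b * Y).coeff (n + 2) = Y.coeff n - a * Y.coeff (n + 1) + b * Y.coeff (n + 2) := by
  have h1 : (X ^ 2 * Y).coeff (n + 2) = Y.coeff n := by
    rw [coeff_X_pow_mul]
  have h2 : (C a * X * Y).coeff (n + 2) = a * Y.coeff (n + 1) := by
    rw [mul_assoc, coeff_C_mul, show n + 2 = (n + 1) + 1 by ring, coeff_X_mul]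
  have h3 : (C b * Y).coeff (n + 2) = b * Y.coeff (n + 2) := by
    rw [coeff_C_mul]
  unfold qd
  rw [add_mul, sub_mul, coeff_add, coeff_sub, h1, h2, h3]

section
variable {ι : Type*} [DecidableEq ι] (α β : ι → ℝ)

/-- the expression for the third coefficient -/
noncomputable def G3 (s : Finset ι) : ℝ :=
  ((∑ j ∈ s, α j) ^ 3 - 3 * (∑ j ∈ s, α j) * (∑ j ∈ s, α j ^ 2) + 2 * ∑ j ∈ s, α j ^ 3) / 6
    + (∑ j ∈ s, α j) * (∑ j ∈ s, β j) - ∑ j ∈ s, α j * β j

theorem coeff_prod_top (s : Finset ι) :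
    let Y : ℝ[X] := X ^ 3 * ∏ j ∈ s, qd (α j) (β j)
    Y.coeff (2 * s.card + 5) = 0 ∧ Y.coeff (2 * s.card + 4) = 0 ∧ Y.coeff (2 * s.card + 3) = 1 ∧
    Y.coeff (2 * s.card + 2) = - ∑ j ∈ s, α j ∧
    Y.coeff (2 * s.card + 1) = ((∑ j ∈ s, α j) ^ 2 - ∑ j ∈ s, α j ^ 2) / 2 + ∑ j ∈ s, β j ∧
    Y.coeff (2 * s.card) = - G3 α β s := by
  induction s using Finset.induction_on with
  | empty =>
    simp [G3, coeff_X_pow]
  | insert j s hj ih =>
    obtain ⟨i5, i4, i3, i2, i1, i0⟩ := ih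
    have e : (X : ℝ[X]) ^ 3 * ∏ i ∈ insert j s, qd (α i) (β i)
        = qd (α j) (β j) * (X ^ 3 * ∏ i ∈ s, qd (α i) (β i)) := by
      rw [Finset.prod_insert hj]
      ring
    have hdeg : (X ^ 3 * ∏ i ∈ s, qd (α i) (β i)).natDegree = 2 * s.card + 3 := by
      rw [(monic_X_pow 3).natDegree_mul (prod_qd_monic _ _ _), prod_qd_natDegree, natDegree_X_pow]
      ring
    simp only [e, Finset.card_insert_of_notMem hj, G3, Finset.sum_insert hj]
    have c1 : ∀ k, 2 * (s.card + 1) + k = (2 * s.card + k) + 2 := fun k => by ring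
    have c2 : 2 * (s.card + 1) = (2 * s.card) + 2 := by ring
    have z : ∀ k, 3 < k → (X ^ 3 * ∏ i ∈ s, qd (α i) (β i)).coeff (2 * s.card + k) = 0 := by
      intro k hk
      apply coeff_eq_zero_of_natDegree_lt
      omega
    rw [c1, c1, c1, c1, c1, c2, coeff_qd_mul, coeff_qd_mul, coeff_qd_mul, coeff_qd_mul,
      coeff_qd_mul, coeff_qd_mul]
    simp only [add_assoc, Nat.reduceAdd]
    rw [z 7 (by norm_num), z 6 (by norm_num), z 5 (by norm_num), z 4 (by norm_num), i3, i2, i1, i0]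
    simp only [G3]
    refine ⟨by ring, by ring, by ring, by ring, by ring, by ring⟩

end

theorem coeff21 (α β : Fin 31 → ℝ) (R : Finset (Fin 31)) (hR : R.card = 12) :
    (∏ j ∈ R, qd (α j) (β j)).coeff 21 = - G3 α β R := by
  have h := (coeff_prod_top α β R).2.2.2.2.2
  rw [hR] at h
  rw [← h, show 2 * 12 = 21 + 3 by norm_num, coeff_X_pow_mul]

end Pool.Agent.Lib.MP_e8d1ff_al
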