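import Pool.Agent.Lib.MP_e8d1ff_al.Hess
set_option autoImplicit false

namespace Pool.Agent.Lib.MP_e8d1ff_al

open Polynomial Matrix

/-- version of the previous theorem with sums over ranges -/
theorem charpoly_of_rows_range (n : ℕ) (e : ℕ → ℕ → ℝ) (χ : ℕ → ℝ[X])
    (h0 : χ 0 = 1) (hm : (χ (n+1)).Monic) (hd : (χ (n+1)).natDegree = n+1)
    (hrow : ∀ i, i < n → X * χ i - ∑ j ∈ Finset.range (n+1), C (e i j) * χ j = 0)
    (hlast : X * χ n - ∑ j ∈ Finset.range (n+1), C (e n j) * χ j = χ (n+1)) :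
    Matrix.charpoly (fun i j : Fin (n+1) => e i.val j.val) = χ (n+1) := by
  have hs : ∀ i : ℕ, (∑ j : Fin (n + 1), C (e i j.val) * χ j.val)
      = ∑ j ∈ Finset.range (n+1), C (e i j) * χ j := fun i =>
    (Finset.sum_range (fun j => C (e i j) * χ j)).symm
  apply charpoly_of_rows (fun i j : Fin (n+1) => e i.val j.val) χ h0 hm hd
  · intro i hi
    have h := hrow i.val hi
    rw [← hs] at h
    exact h
  · have h := hlast
    rw [← hs] at h
    exact h

/-- version of the previous theorem for `63` -/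
theorem charpoly_of_rows63 (e : ℕ → ℕ → ℝ) (χ : ℕ → ℝ[X])
    (h0 : χ 0 = 1) (hm : (χ 63).Monic) (hd : (χ 63).natDegree = 63)
    (hrow : ∀ i, i < 62 → X * χ i - ∑ j ∈ Finset.range 63, C (e i j) * χ j = 0)
    (hlast : X * χ 62 - ∑ j ∈ Finset.range 63, C (e 62 j) * χ j = χ 63) :
    Matrix.charpoly (fun i j : Fin 63 => e i.val j.val) = χ 63 :=
  charpoly_of_rows_range 62 e χ h0 hm hd hrow hlast

/-- entries of the realization -/
noncomputable def ent (γ ρ c : ℝ) (r α β : ℕ → ℝ) (i j : ℕ) : ℝ :=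
  (if j = i + 1 then 1 else 0) + (if i = 11 ∧ j = 0 then γ else 0)
    + (if i = 23 ∧ j ≤ 23 then r j else 0) + (if i = 24 ∧ j = 24 then ρ else 0)
    + (if 26 ≤ i ∧ i % 2 = 0 ∧ j = i then α ((i - 26) / 2) else 0)
    + (if 26 ≤ i ∧ i % 2 = 0 ∧ j + 1 = i then - β ((i - 26) / 2) else 0)
    + (if i = 62 ∧ j = 0 then c else 0)

/-- quadratic -/
noncomputable def qd (a b : ℝ) : ℝ[X] := X ^ 2 - C a * X + C b

/-- the row polynomials -/
noncomputable def chi (γ ρ c : ℝ) (P : ℝ[X]) (α β : ℕ → ℝ) (k : ℕ) : ℝ[X] :=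
  if k ≤ 11 then X ^ k
  else if k ≤ 23 then X ^ (k - 12) * (X ^ 12 - C γ)
  else if k = 24 then P
  else if k = 63 then P * (X - C ρ) * (∏ t ∈ Finset.range 19, qd (α t) (β t)) - C c
  else if k % 2 = 1 then P * (X - C ρ) * ∏ t ∈ Finset.range ((k - 25) / 2), qd (α t) (β t)
  else X * (P * (X - C ρ) * ∏ t ∈ Finset.range ((k - 26) / 2), qd (α t) (β t))

section
variable (γ ρ c : ℝ) (r α β : ℕ → ℝ) (P : ℝ[X])

theorem row_easy (i : ℕ) (hi : i < 62) (h11 : i ≠ 11) (h23 : i ≠ 23) (h24 : i ≠ 24)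
    (ho : i < 26 ∨ i % 2 = 1) :
    X * chi γ ρ c P α β i - (∑ j ∈ Finset.range 63, C (ent γ ρ c r α β i j) * chi γ ρ c P α β j)
      = 0 := by
  have h1 : ∀ j ∈ Finset.range 63, C (ent γ ρ c r α β i j) * chi γ ρ c P α β j
      = if j = i + 1 then chi γ ρ c P α β j else 0 := by
    intro j _
    have e : ent γ ρ c r α β i j = if j = i + 1 then 1 else 0 := by
      unfold ent
      have a1 : ¬ (26 ≤ i ∧ i % 2 = 0 ∧ j = i) := by omega
      have a2 : ¬ (26 ≤ i ∧ i % 2 = 0 ∧ j + 1 = i) := by omega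
      have a3 : ¬ (i = 62 ∧ j = 0) := by omega
      simp [h11, h23, h24, a1, a2, a3]
    rw [e]
    split_ifs <;> simp
  rw [Finset.sum_congr rfl h1, Finset.sum_ite_eq' (Finset.range 63) (i+1)]
  rw [if_pos (by simp; omega), sub_eq_zero]
  rcases lt_or_ge i 11 with h | h
  · unfold chi
    rw [if_pos (by omega), if_pos (by omega)]
    ring
  rcases lt_or_ge i 23 with h' | h'
  · unfold chi
    rw [if_neg (by omega), if_pos (by omega), if_neg (by omega), if_pos (by omega)]
    have : i + 1 - 12 = (i - 12) + 1 := by omega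
    rw [this]
    ring
  · have hodd : i % 2 = 1 := by omega
    unfold chi
    rw [if_neg (by omega), if_neg (by omega), if_neg (by omega), if_neg (by omega),
      if_pos (by omega), if_neg (by omega), if_neg (by omega), if_neg (by omega),
      if_neg (by omega), if_neg (by omega)]
    have : (i + 1 - 26) / 2 = (i - 25) / 2 := by omega
    rw [this]

theorem row_11 :
    X * chi γ ρ c P α β 11 - (∑ j ∈ Finset.range 63, C (ent γ ρ c r α β 11 j) * chi γ ρ c P α β j)
      = 0 := by
  have h1 : ∀ j ∈ Finset.range 63, C (ent γ ρ c r α β 11 j) * chi γ ρ c P α β j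
      = (if j = 12 then chi γ ρ c P α β 12 else 0)
        + (if j = 0 then C γ * chi γ ρ c P α β 0 else 0) := by
    intro j _
    by_cases h12 : j = 12
    · subst h12; simp [ent]
    by_cases h0 : j = 0
    · subst h0; simp [ent]
    simp [ent, h12, h0]
  rw [Finset.sum_congr rfl h1, Finset.sum_add_distrib, Finset.sum_ite_eq', Finset.sum_ite_eq']
  simp [chi]
  ring

theorem row_24 :
    X * chi γ ρ c P α β 24 - (∑ j ∈ Finset.range 63, C (ent γ ρ c r α β 24 j) * chi γ ρ c P α β j)
      = 0 := by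
  have h1 : ∀ j ∈ Finset.range 63, C (ent γ ρ c r α β 24 j) * chi γ ρ c P α β j
      = (if j = 25 then chi γ ρ c P α β 25 else 0)
        + (if j = 24 then C ρ * chi γ ρ c P α β 24 else 0) := by
    intro j _
    by_cases h12 : j = 25
    · subst h12; simp [ent]
    by_cases h0 : j = 24
    · subst h0; simp [ent]
    simp [ent, h12, h0]
  rw [Finset.sum_congr rfl h1, Finset.sum_add_distrib, Finset.sum_ite_eq', Finset.sum_ite_eq']
  simp [chi]
  ring

theorem row_even (i : ℕ) (hi : i < 62) (h26 : 26 ≤ i) (he : i % 2 = 0) :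
    X * chi γ ρ c P α β i - (∑ j ∈ Finset.range 63, C (ent γ ρ c r α β i j) * chi γ ρ c P α β j)
      = 0 := by
  have h1 : ∀ j ∈ Finset.range 63, C (ent γ ρ c r α β i j) * chi γ ρ c P α β j
      = (if j = i + 1 then chi γ ρ c P α β (i + 1) else 0)
        + (if j = i then C (α ((i - 26) / 2)) * chi γ ρ c P α β i else 0)
        + (if j = i - 1 then C (- β ((i - 26) / 2)) * chi γ ρ c P α β (i - 1) else 0) := by
    intro j _
    have e : ent γ ρ c r α β i j = (if j = i + 1 then 1 else 0)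
        + (if j = i then α ((i - 26) / 2) else 0)
        + (if j = i - 1 then - β ((i - 26) / 2) else 0) := by
      unfold ent
      have a1 : (26 ≤ i ∧ i % 2 = 0 ∧ j = i) ↔ (j = i) := by omega
      have a2 : (26 ≤ i ∧ i % 2 = 0 ∧ j + 1 = i) ↔ (j = i - 1) := by omega
      have a3 : ¬ (i = 62 ∧ j = 0) := by omega
      have a4 : ¬ (i = 11 ∧ j = 0) := by omega
      have a5 : ¬ (i = 23 ∧ j ≤ 23) := by omega
      have a6 : ¬ (i = 24 ∧ j = 24) := by omega
      simp only [a1, a2, if_neg a3, if_neg a4, if_neg a5, if_neg a6, add_zero]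
    rw [e, C_add, C_add, add_mul, add_mul]
    congr 1
    · congr 1
      · split_ifs with h
        · subst h; simp
        · simp
      · split_ifs with h
        · subst h; simp
        · simp
    · split_ifs with h
      · subst h; simp
      · simp
  rw [Finset.sum_congr rfl h1, Finset.sum_add_distrib, Finset.sum_add_distrib,
    Finset.sum_ite_eq', Finset.sum_ite_eq', Finset.sum_ite_eq']
  rw [if_pos (by simp; omega), if_pos (by simp; omega), if_pos (by simp; omega)]
  obtain ⟨t, rfl⟩ : ∃ t, i = 26 + 2 * t := ⟨(i - 26) / 2, by omega⟩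
  have k1 : (26 + 2 * t - 26) / 2 = t := by omega
  have c1 : chi γ ρ c P α β (26 + 2 * t)
      = X * (P * (X - C ρ) * ∏ t ∈ Finset.range t, qd (α t) (β t)) := by
    unfold chi
    rw [if_neg (by omega), if_neg (by omega), if_neg (by omega), if_neg (by omega),
      if_neg (by omega), k1]
  have c2 : chi γ ρ c P α β (26 + 2 * t + 1)
      = P * (X - C ρ) * ∏ t ∈ Finset.range (t + 1), qd (α t) (β t) := by
    unfold chi
    rw [if_neg (by omega), if_neg (by omega), if_neg (by omega), if_neg (by omega),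
      if_pos (by omega), show (26 + 2 * t + 1 - 25) / 2 = t + 1 by omega]
  have c3 : chi γ ρ c P α β (26 + 2 * t - 1)
      = P * (X - C ρ) * ∏ t ∈ Finset.range t, qd (α t) (β t) := by
    unfold chi
    rw [if_neg (by omega), if_neg (by omega), if_neg (by omega), if_neg (by omega),
      if_pos (by omega), show (26 + 2 * t - 1 - 25) / 2 = t by omega]
  rw [c1, c2, c3, k1, Finset.prod_range_succ]
  simp only [qd, C_neg]
  ring

theorem row_62 :
    X * chi γ ρ c P α β 62 - (∑ j ∈ Finset.range 63, C (ent γ ρ c r α β 62 j) * chi γ ρ c P α β j)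
      = chi γ ρ c P α β 63 := by
  have h1 : ∀ j ∈ Finset.range 63, C (ent γ ρ c r α β 62 j) * chi γ ρ c P α β j
      = (if j = 0 then C c * chi γ ρ c P α β 0 else 0)
        + (if j = 62 then C (α 18) * chi γ ρ c P α β 62 else 0)
        + (if j = 61 then C (- β 18) * chi γ ρ c P α β 61 else 0) := by
    intro j hj
    have hj' : j < 63 := by simpa using hj
    have g0 : ¬ (j = 63) := by omega
    by_cases h12 : j = 0
    · subst h12
      simp [ent]
    by_cases h0 : j = 62
    · subst h0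
      simp [ent]
    by_cases h2 : j = 61
    · subst h2
      simp [ent]
    simp [ent, h12, h0, h2, g0]
  rw [Finset.sum_congr rfl h1, Finset.sum_add_distrib, Finset.sum_add_distrib,
    Finset.sum_ite_eq', Finset.sum_ite_eq', Finset.sum_ite_eq']
  simp only [Finset.mem_range]
  norm_num
  have c0 : chi γ ρ c P α β 0 = 1 := by simp [chi]
  have c1 : chi γ ρ c P α β 62
      = X * (P * (X - C ρ) * ∏ t ∈ Finset.range 18, qd (α t) (β t)) := by
    simp [chi]
  have c2 : chi γ ρ c P α β 63
      = P * (X - C ρ) * (∏ t ∈ Finset.range 19, qd (α t) (β t)) - C c := by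
    simp [chi]
  have c3 : chi γ ρ c P α β 61
      = P * (X - C ρ) * ∏ t ∈ Finset.range 18, qd (α t) (β t) := by
    simp [chi]
  rw [c0, c1, c2, c3, Finset.prod_range_succ _ 18]
  simp only [qd]
  ring

theorem row_23 (hP : P = X ^ 12 * (X ^ 12 - C γ) - ∑ j ∈ Finset.range 12, C (r j) * X ^ j
      - ∑ j ∈ Finset.range 12, C (r (j + 12)) * (X ^ j * (X ^ 12 - C γ))) :
    X * chi γ ρ c P α β 23 - (∑ j ∈ Finset.range 63, C (ent γ ρ c r α β 23 j) * chi γ ρ c P α β j)
      = 0 := by
  have h1 : ∀ j ∈ Finset.range 63, C (ent γ ρ c r α β 23 j) * chi γ ρ c P α β j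
      = (if j = 24 then chi γ ρ c P α β 24 else 0)
        + (if j < 24 then C (r j) * chi γ ρ c P α β j else 0) := by
    intro j _
    by_cases h12 : j = 24
    · subst h12
      simp [ent]
    by_cases h0 : j < 24
    · have : j ≤ 23 := by omega
      simp [ent, h12, h0, this]
    have : ¬ j ≤ 23 := by omega
    simp [ent, h12, h0, this]
  have h2 : (∑ j ∈ Finset.range 63, (if j < 24 then C (r j) * chi γ ρ c P α β j else 0))
      = ∑ j ∈ Finset.range 24, C (r j) * chi γ ρ c P α β j := by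
    rw [← Finset.sum_filter]
    refine Finset.sum_congr ?_ (fun _ _ => rfl)
    ext j
    simp only [Finset.mem_filter, Finset.mem_range]
    omega
  have h3 : ∀ j ∈ Finset.range 12, C (r j) * chi γ ρ c P α β j = C (r j) * X ^ j := by
    intro j hj
    have hj' : j < 12 := by simpa using hj
    unfold chi
    rw [if_pos (by omega)]
  have h4 : ∀ j ∈ Finset.range 12, C (r (12 + j)) * chi γ ρ c P α β (12 + j)
      = C (r (j + 12)) * (X ^ j * (X ^ 12 - C γ)) := by
    intro j hj
    have hj' : j < 12 := by simpa using hj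
    unfold chi
    rw [if_neg (by omega), if_pos (by omega), show 12 + j - 12 = j by omega,
      show 12 + j = j + 12 by omega]
  have h5 : chi γ ρ c P α β 24 = P := by simp [chi]
  have h6 : chi γ ρ c P α β 23 = X ^ 11 * (X ^ 12 - C γ) := by simp [chi]
  have h7 : ∑ j ∈ Finset.range 24, C (r j) * chi γ ρ c P α β j
      = (∑ j ∈ Finset.range 12, C (r j) * X ^ j)
        + ∑ j ∈ Finset.range 12, C (r (j + 12)) * (X ^ j * (X ^ 12 - C γ)) := by
    have := Finset.sum_range_add (fun j => C (r j) * chi γ ρ c P α β j) 12 12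
    rw [Finset.sum_congr rfl h3, Finset.sum_congr rfl h4] at this
    exact this
  have h8 : (24 : ℕ) ∈ Finset.range 63 := Finset.mem_range.mpr (by norm_num)
  rw [Finset.sum_congr rfl h1, Finset.sum_add_distrib, Finset.sum_ite_eq', h2, if_pos h8, h5, h6,
    h7]
  generalize (∑ j ∈ Finset.range 12, C (r j) * X ^ j) = A at *
  generalize (∑ j ∈ Finset.range 12, C (r (j + 12)) * (X ^ j * (X ^ 12 - C γ))) = B at *
  clear h1 h2 h3 h4 h5 h6 h7
  subst hP
  ring

end

/-- the arcs -/
def arc (i j : ℕ) : Prop :=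
  j = i + 1 ∨ (i = 11 ∧ j = 0) ∨ (i = 23 ∧ j ≤ 23 ∧ j ≠ 12 ∧ j ≠ 21) ∨ (i = 24 ∧ j = 24)
    ∨ (26 ≤ i ∧ i % 2 = 0 ∧ (j = i ∨ j + 1 = i)) ∨ (i = 62 ∧ j = 0)

instance (i j : ℕ) : Decidable (arc i j) := by unfold arc; infer_instance

theorem ent_ne_zero_iff (γ ρ c : ℝ) (r α β : ℕ → ℝ) (hγ : γ ≠ 0) (hρ : ρ ≠ 0) (hc : c ≠ 0)
    (hr : ∀ j ≤ 23, r j ≠ 0 ↔ (j ≠ 12 ∧ j ≠ 21)) (hα : ∀ t < 19, α t ≠ 0)
    (hβ : ∀ t < 19, β t ≠ 0) (i j : ℕ) (hi : i < 63) :
    ent γ ρ c r α β i j ≠ 0 ↔ arc i j := by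
  unfold arc
  by_cases h1 : j = i + 1
  · have a1 : ¬ (i = 11 ∧ j = 0) := by omega
    have a2 : ¬ (i = 23 ∧ j ≤ 23) := by omega
    have a3 : ¬ (i = 24 ∧ j = 24) := by omega
    have a4 : ¬ (26 ≤ i ∧ i % 2 = 0 ∧ j = i) := by omega
    have a5 : ¬ (26 ≤ i ∧ i % 2 = 0 ∧ j + 1 = i) := by omega
    have a6 : ¬ (i = 62 ∧ j = 0) := by omega
    have : ent γ ρ c r α β i j = 1 := by
      unfold ent
      rw [if_pos h1, if_neg a1, if_neg a2, if_neg a3, if_neg a4, if_neg a5, if_neg a6]
      norm_num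
    rw [this]
    simp [h1]
  by_cases h2 : i = 11 ∧ j = 0
  · obtain ⟨rfl, rfl⟩ := h2
    have : ent γ ρ c r α β 11 0 = γ := by simp [ent]
    rw [this]
    simp [hγ]
  by_cases h3 : i = 23 ∧ j ≤ 23
  · obtain ⟨rfl, h3⟩ := h3
    have : ent γ ρ c r α β 23 j = r j := by
      unfold ent
      rw [if_neg h1, if_neg h2, if_pos ⟨rfl, h3⟩]
      simp
    rw [this, hr j h3]
    simp [h3]
    omega
  by_cases h4 : i = 24 ∧ j = 24
  · obtain ⟨rfl, rfl⟩ := h4
    have : ent γ ρ c r α β 24 24 = ρ := by simp [ent]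
    rw [this]
    simp [hρ]
  by_cases h5 : 26 ≤ i ∧ i % 2 = 0 ∧ j = i
  · have a5 : ¬ (26 ≤ i ∧ i % 2 = 0 ∧ j + 1 = i) := by omega
    have a6 : ¬ (i = 62 ∧ j = 0) := by omega
    have : ent γ ρ c r α β i j = α ((i - 26) / 2) := by
      unfold ent
      rw [if_neg h1, if_neg h2, if_neg h3, if_neg h4, if_pos h5, if_neg a5, if_neg a6]
      simp
    rw [this]
    have := hα ((i - 26) / 2) (by omega)
    simp only [this, ne_eq, not_false_eq_true, true_iff]
    omega
  by_cases h6 : 26 ≤ i ∧ i % 2 = 0 ∧ j + 1 = i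
  · have a6 : ¬ (i = 62 ∧ j = 0) := by omega
    have : ent γ ρ c r α β i j = - β ((i - 26) / 2) := by
      unfold ent
      rw [if_neg h1, if_neg h2, if_neg h3, if_neg h4, if_neg h5, if_pos h6, if_neg a6]
      simp
    rw [this]
    have := hβ ((i - 26) / 2) (by omega)
    simp only [this, ne_eq, neg_eq_zero, not_false_eq_true, true_iff]
    omega
  by_cases h7 : i = 62 ∧ j = 0
  · have : ent γ ρ c r α β i j = c := by
      unfold ent
      rw [if_neg h1, if_neg h2, if_neg h3, if_neg h4, if_neg h5, if_neg h6, if_pos h7]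
      simp
    rw [this]
    simp only [hc, ne_eq, not_false_eq_true, true_iff]
    omega
  · have : ent γ ρ c r α β i j = 0 := by
      unfold ent
      rw [if_neg h1, if_neg h2, if_neg h3, if_neg h4, if_neg h5, if_neg h6, if_neg h7]
      simp
    rw [this]
    simp only [ne_eq, not_true_eq_false, false_iff]
    omega

/-- the zero-nonzero pattern -/
def pat : Finset (Fin 63 × Fin 63) := Finset.univ.filter fun ij => arc ij.1.val ij.2.val

theorem card_pat : pat.card = 125 := by decide +kernel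

theorem mem_pat (i j : Fin 63) : (i, j) ∈ pat ↔ arc i.val j.val := by
  unfold pat
  rw [Finset.mem_filter_univ]

theorem arc_connected (i j : Fin 63) :
    Relation.TransGen (fun a b : Fin 63 => arc a.val b.val) i j := by
  have step : ∀ (a b : Fin 63), b.val = a.val + 1 → arc a.val b.val := by
    intro a b h
    exact Or.inl h
  have up : ∀ (k : ℕ) (a b : Fin 63), b.val = a.val + k →
      Relation.ReflTransGen (fun a b : Fin 63 => arc a.val b.val) a b := by
    intro k
    induction k with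
    | zero =>
      intro a b h
      have : a = b := Fin.ext h.symm
      subst this
      exact Relation.ReflTransGen.refl
    | succ k ih =>
      intro a b h
      have hb : b.val - 1 < 63 := by omega
      have h1 := ih a ⟨b.val - 1, hb⟩ (by simp only; omega)
      exact h1.tail (step _ _ (by simp only; omega))
  have hi := i.isLt
  have h62 : Relation.ReflTransGen (fun a b : Fin 63 => arc a.val b.val) i ⟨62, by norm_num⟩ := by
    apply up (62 - i.val)
    simp only
    omega
  have h0 : Relation.ReflTransGen (fun a b : Fin 63 => arc a.val b.val) ⟨0, by norm_num⟩ j := by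
    apply up j.val
    simp only
    omega
  have hc : arc 62 0 := by
    unfold arc
    omega
  exact (Relation.TransGen.tail' h62 hc).trans_left h0

theorem pat_connected (i j : Fin 63) :
    Relation.TransGen (fun a b : Fin 63 => (a, b) ∈ pat) i j := by
  have : (fun a b : Fin 63 => (a, b) ∈ pat) = (fun a b : Fin 63 => arc a.val b.val) := by
    funext a b
    exact propext (mem_pat a b)
  rw [this]
  exact arc_connected i j

/-- the arcs of the first block are all nonzero -/
def ArcsOK (P : ℝ[X]) : Prop :=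
  P.coeff 0 ≠ 0 ∧ (∀ k, 12 ≤ k → k < 24 → k ≠ 21 → P.coeff k ≠ 0) ∧
    ∀ k, 1 ≤ k → k < 12 → P.coeff k ≠ P.coeff 12 * P.coeff (k + 12)

/-- the entries of row 23 -/
noncomputable def rr (P : ℝ[X]) (j : ℕ) : ℝ :=
  if j = 0 then - P.coeff 0 else if j < 12 then - P.coeff j + P.coeff 12 * P.coeff (j + 12)
  else if j = 12 then 0 else - P.coeff j

theorem rr_eq (P : ℝ[X]) (hPm : P.Monic) (hPd : P.natDegree = 24) :
    P = X ^ 12 * (X ^ 12 - C (- P.coeff 12)) - ∑ j ∈ Finset.range 12, C (rr P j) * X ^ j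
      - ∑ j ∈ Finset.range 12, C (rr P (j + 12)) * (X ^ j * (X ^ 12 - C (- P.coeff 12))) := by
  have h24 : P.coeff 24 = 1 := by
    rw [← hPd]
    exact hPm
  have h := P.as_sum_range_C_mul_X_pow
  rw [hPd] at h
  conv_lhs => rw [h]
  simp only [Finset.sum_range_succ, Finset.sum_range_zero, rr, h24]
  norm_num
  ring

theorem qd_monic (a b : ℝ) : (qd a b).Monic := by
  unfold qd
  monicity!

theorem qd_natDegree (a b : ℝ) : (qd a b).natDegree = 2 := by
  unfold qd
  compute_degree!

theorem prod_qd_monic {ι : Type*} (s : Finset ι) (α β : ι → ℝ) :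
    (∏ t ∈ s, qd (α t) (β t)).Monic :=
  monic_prod_of_monic _ _ fun _ _ => qd_monic _ _

theorem prod_qd_natDegree {ι : Type*} (s : Finset ι) (α β : ι → ℝ) :
    (∏ t ∈ s, qd (α t) (β t)).natDegree = 2 * s.card := by
  rw [natDegree_prod_of_monic _ _ fun _ _ => qd_monic _ _]
  simp [qd_natDegree, mul_comm]

theorem realize_core (P : ℝ[X]) (hPm : P.Monic) (hPd : P.natDegree = 24) (h21 : P.coeff 21 = 0)
    (harc : ArcsOK P) (ρ c : ℝ) (α β : ℕ → ℝ) (hρ : ρ ≠ 0) (hc : c ≠ 0)
    (hα : ∀ t < 19, α t ≠ 0) (hβ : ∀ t < 19, β t ≠ 0) :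
    ∃ A : Matrix (Fin 63) (Fin 63) ℝ, (∀ i j, A i j ≠ 0 ↔ (i, j) ∈ pat) ∧
      A.charpoly = P * (X - C ρ) * (∏ t ∈ Finset.range 19, qd (α t) (β t)) - C c := by
  obtain ⟨h0, h1, h2⟩ := harc
  set γ := - P.coeff 12 with hγ
  have hP := rr_eq P hPm hPd
  rw [← hγ] at hP
  refine ⟨fun i j => ent γ ρ c (rr P) α β i.val j.val, ?_, ?_⟩
  · intro i j
    rw [mem_pat]
    apply ent_ne_zero_iff γ ρ c (rr P) α β _ hρ hc _ hα hβ i.val j.val i.isLt
    · rw [hγ]
      exact neg_ne_zero.mpr (h1 12 le_rfl (by norm_num) (by norm_num))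
    · intro j hj
      unfold rr
      by_cases j0 : j = 0
      · subst j0
        simp [h0]
      by_cases j1 : j < 12
      · rw [if_neg j0, if_pos j1]
        have := h2 j (by omega) j1
        constructor
        · intro _
          omega
        · intro _ h
          apply this
          linarith
      by_cases j2 : j = 12
      · subst j2
        simp
      rw [if_neg j0, if_neg j1, if_neg j2]
      by_cases j3 : j = 21
      · subst j3
        simp [h21]
      have := h1 j (by omega) (by omega) j3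
      simp [j2, j3, this]
  · have hfin : chi γ ρ c P α β 63
        = P * (X - C ρ) * (∏ t ∈ Finset.range 19, qd (α t) (β t)) - C c := by
      simp [chi]
    have hQm : (P * (X - C ρ) * (∏ t ∈ Finset.range 19, qd (α t) (β t))).Monic :=
      (hPm.mul (monic_X_sub_C ρ)).mul (prod_qd_monic _ _ _)
    have hQd : (P * (X - C ρ) * (∏ t ∈ Finset.range 19, qd (α t) (β t))).natDegree = 63 := by
      rw [(hPm.mul (monic_X_sub_C ρ)).natDegree_mul (prod_qd_monic _ _ _),
        hPm.natDegree_mul (monic_X_sub_C ρ), hPd, natDegree_X_sub_C, prod_qd_natDegree]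
      simp
    rw [← hfin]
    apply charpoly_of_rows63 (ent γ ρ c (rr P) α β) (chi γ ρ c P α β)
    · simp [chi]
    · rw [hfin]
      apply hQm.sub_of_left
      rw [degree_eq_natDegree hQm.ne_zero, hQd]
      exact lt_of_le_of_lt degree_C_le (by norm_num)
    · rw [hfin, natDegree_sub_C, hQd]
    · intro i hi
      by_cases i1 : i = 11
      · rw [i1]
        exact row_11 ..
      by_cases i2 : i = 23
      · rw [i2]
        exact row_23 _ _ _ _ _ _ _ hP
      by_cases i3 : i = 24
      · rw [i3]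
        exact row_24 ..
      by_cases i4 : i < 26 ∨ i % 2 = 1
      · exact row_easy _ _ _ _ _ _ _ _ hi i1 i2 i3 i4
      · exact row_even _ _ _ _ _ _ _ _ hi (by omega) (by omega)
    · exact row_62 ..

end Pool.Agent.Lib.MP_e8d1ff_al
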